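import Mathlib

/-!
# Polynomials of bounded degree over a finite field, functionals and characters
-/

namespace Pool.Agent.H598.FQ

open Finset Polynomial

variable {F : Type*} [Field F]

noncomputable instance instFintypeDegreeLT [Fintype F] (n : ℕ) : Fintype (degreeLT F n) :=
  Fintype.ofEquiv (Fin n → F) (degreeLTEquiv F n).symm.toEquiv

lemma card_V [Fintype F] (n : ℕ) : Fintype.card (degreeLT F n) = Fintype.card F ^ n := by
  rw [Fintype.card_congr (degreeLTEquiv F n).toEquiv]
  simp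

lemma mem_V_iff {n : ℕ} {w : F[X]} : w ∈ degreeLT F n ↔ ∀ j, n ≤ j → w.coeff j = 0 := by
  rw [mem_degreeLT, degree_lt_iff_coeff_zero]

lemma mem_V_succ_iff {n : ℕ} {w : F[X]} : w ∈ degreeLT F (n + 1) ↔ w.natDegree ≤ n := by
  rw [mem_V_iff, natDegree_le_iff_coeff_eq_zero]
  constructor
  · intro h j hj; exact h j hj
  · intro h j hj; exact h j (by omega)

lemma char_sum {ι : Type*} (ψ : AddChar F ℂ) (s : Finset ι) (f : ι → F) :
    ψ (∑ i ∈ s, f i) = ∏ i ∈ s, ψ (f i) := by
  classical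
  induction s using Finset.induction_on with
  | empty => simp
  | insert a s ha ih => rw [Finset.sum_insert ha, Finset.prod_insert ha,
      AddChar.map_add_eq_mul, ih]

/-- The functional on polynomials given by a vector. -/
noncomputable def lin {n : ℕ} (α : Fin n → F) : F[X] →ₗ[F] F := ∑ j, α j • lcoeff F (j : ℕ)

lemma lin_apply {n : ℕ} (α : Fin n → F) (w : F[X]) : lin α w = ∑ j, α j * w.coeff (j : ℕ) := by
  simp [lin, LinearMap.sum_apply]

lemma lin_add {n : ℕ} (α β : Fin n → F) (w : F[X]) : lin (α + β) w = lin α w + lin β w := by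
  simp [lin_apply, add_mul, Finset.sum_add_distrib]

lemma prod_ite_lt (n r : ℕ) (x : ℂ) :
    ∏ j : Fin n, (if (j : ℕ) < r then 1 else x) = x ^ (n - r) := by
  rw [Fin.prod_univ_eq_prod_range (fun j => if j < r then (1 : ℂ) else x) n, Finset.prod_ite]
  simp only [Finset.prod_const_one, one_mul, Finset.prod_const]
  congr 1
  have h2 : (Finset.range n).filter (fun j => ¬ j < r) = Finset.Ico r n := by
    ext j; simp; omega
  rw [h2, Nat.card_Ico]

/-- Vectors whose first `r` entries vanish. -/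
def Bs (F : Type*) [Field F] [Fintype F] [DecidableEq F] (n r : ℕ) : Finset (Fin n → F) :=
  Fintype.piFinset (fun j => if (j : ℕ) < r then {0} else Finset.univ)

lemma mem_Bs [Fintype F] [DecidableEq F] {n r : ℕ} {β : Fin n → F} :
    β ∈ Bs F n r ↔ ∀ j : Fin n, (j : ℕ) < r → β j = 0 := by
  unfold Bs
  rw [Fintype.mem_piFinset]
  apply forall_congr'
  intro j
  by_cases h : (j : ℕ) < r <;> simp [h]

/-- Partial orthogonality. -/
lemma sum_Bs [Fintype F] [DecidableEq F] {ψ : AddChar F ℂ} (hψ : ψ ≠ 1) {n r : ℕ}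
    {w : F[X]} (hw : w ∈ degreeLT F n) [Decidable (w ∈ degreeLT F r)] :
    ∑ β ∈ Bs F n r, ψ (lin β w) =
      if w ∈ degreeLT F r then (Fintype.card F : ℂ) ^ (n - r) else 0 := by
  have hp := AddChar.IsPrimitive.of_ne_one hψ
  have h1 : ∀ β : Fin n → F, ψ (lin β w) = ∏ j, ψ (β j * w.coeff (j : ℕ)) := by
    intro β
    rw [lin_apply, char_sum]
  rw [Finset.sum_congr rfl (fun β _ => h1 β)]
  unfold Bs
  rw [← Finset.prod_univ_sum (fun j : Fin n => if (j : ℕ) < r then {0} else Finset.univ)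
    (fun j b => ψ (b * w.coeff (j : ℕ)))]
  split_ifs with h
  · rw [← prod_ite_lt n r (Fintype.card F : ℂ)]
    apply Finset.prod_congr rfl
    intro j _
    by_cases hj : (j : ℕ) < r
    · simp [hj]
    · have h0 : w.coeff (j : ℕ) = 0 := mem_V_iff.1 h _ (by omega)
      simp [hj, h0]
  · rw [mem_V_iff] at h
    push Not at h
    obtain ⟨j, hj, hne⟩ := h
    have hjn : j < n := by
      by_contra hcon
      exact hne (mem_V_iff.1 hw _ (by omega))
    apply Finset.prod_eq_zero (Finset.mem_univ (⟨j, hjn⟩ : Fin n))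
    have : ¬ (((⟨j, hjn⟩ : Fin n) : ℕ) < r) := by simp; omega
    rw [if_neg this, AddChar.sum_mulShift _ hp, if_neg hne, Nat.cast_zero]

lemma card_Bs [Fintype F] [DecidableEq F] {n r : ℕ} :
    (Bs F n r).card = Fintype.card F ^ (n - r) := by
  unfold Bs
  rw [Fintype.card_piFinset]
  have := prod_ite_lt n r (Fintype.card F : ℂ)
  have h2 : ∀ j : Fin n, ((if (j : ℕ) < r then ({0} : Finset F) else Finset.univ).card : ℂ)
      = if (j : ℕ) < r then 1 else (Fintype.card F : ℂ) := by
    intro j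
    split_ifs <;> simp
  have h3 : ((∏ j : Fin n, (if (j : ℕ) < r then ({0} : Finset F) else Finset.univ).card : ℕ) : ℂ)
      = ((Fintype.card F ^ (n - r) : ℕ) : ℂ) := by
    push_cast
    rw [← this]
    exact Finset.prod_congr rfl (fun j _ => h2 j)
  exact_mod_cast h3

/-- Full orthogonality. -/
lemma sum_lin [Fintype F] {ψ : AddChar F ℂ} (hψ : ψ ≠ 1) {n : ℕ} {w : F[X]}
    (hw : w ∈ degreeLT F n) [Decidable (w = 0)] :
    ∑ α : Fin n → F, ψ (lin α w) = if w = 0 then (Fintype.card F : ℂ) ^ n else 0 := by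
  classical
  have h := sum_Bs hψ (r := 0) hw
  have h1 : Bs F n 0 = Finset.univ := by
    ext β; simp [mem_Bs]
  rw [h1] at h
  rw [h]
  have : w ∈ degreeLT F 0 ↔ w = 0 := by
    rw [mem_degreeLT]
    constructor
    · intro h
      by_contra hne
      rw [degree_eq_natDegree hne] at h
      exact absurd h (not_lt.mpr (by exact_mod_cast Nat.zero_le _))
    · rintro rfl
      simp
  by_cases hw0 : w = 0
  · rw [if_pos (this.2 hw0), if_pos hw0]; simp
  · rw [if_neg (fun h' => hw0 (this.1 h')), if_neg hw0]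

/-- Sum of a character composed with a linear functional. -/
lemma sum_char_lin [Fintype F] {ψ : AddChar F ℂ} (hψ : ψ ≠ 1) {W : Type*} [AddCommGroup W]
    [Module F W] [Fintype W] (ℓ : W →ₗ[F] F) [Decidable (∀ w, ℓ w = 0)] :
    ∑ w, ψ (ℓ w) = if ∀ w, ℓ w = 0 then (Fintype.card W : ℂ) else 0 := by
  classical
  split_ifs with h
  · simp [h]
  · push Not at h
    obtain ⟨w₀, hw₀⟩ := h
    obtain ⟨a, ha⟩ := AddChar.ne_one_iff.1 hψ
    set w₁ := (a / ℓ w₀) • w₀ with hw₁
    have h1 : ℓ w₁ = a := by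
      rw [hw₁, map_smul, smul_eq_mul, div_mul_cancel₀ _ hw₀]
    have h2 : ∑ w, ψ (ℓ w) = ψ a * ∑ w, ψ (ℓ w) := by
      rw [Finset.mul_sum, ← Equiv.sum_comp (Equiv.addLeft w₁)]
      apply Finset.sum_congr rfl
      intro w _
      rw [Equiv.coe_addLeft, map_add, h1, AddChar.map_add_eq_mul]
    have h3 : (ψ a - 1) * ∑ w, ψ (ℓ w) = 0 := by
      rw [sub_mul, one_mul, ← h2, sub_self]
    rcases mul_eq_zero.1 h3 with h4 | h4
    · exact absurd (sub_eq_zero.1 h4) ha
    · exact h4

/-- Duality: rank of a pairing equals rank of the transposed pairing, in terms of counts. -/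
lemma dual_count [Fintype F] (L : F[X] →ₗ[F] F) (m n : ℕ) :
    Fintype.card F ^ m * Nat.card {b : degreeLT F n // ∀ a : degreeLT F m,
      L ((a : F[X]) * b) = 0}
    = Fintype.card F ^ n * Nat.card {a : degreeLT F m // ∀ b : degreeLT F n,
      L ((a : F[X]) * b) = 0} := by
  classical
  obtain ⟨ψ, hψ⟩ : ∃ ψ : AddChar F ℂ, ψ ≠ 1 := by
    obtain ⟨ψ, hψ⟩ := (AddChar.exists_apply_ne_zero (α := F) (a := 1)).2 one_ne_zero
    exact ⟨ψ, fun h => hψ (by rw [h]; rfl)⟩
  have h1 : ∀ b : degreeLT F n, ∑ a : degreeLT F m, ψ (L ((a : F[X]) * b))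
      = if ∀ a : degreeLT F m, L ((a : F[X]) * b) = 0 then (Fintype.card F : ℂ) ^ m else 0 := by
    intro b
    have := sum_char_lin hψ (W := degreeLT F m)
      ((L.comp (LinearMap.mulRight F (b : F[X]))).comp (degreeLT F m).subtype)
    simp only [LinearMap.comp_apply, Submodule.subtype_apply, LinearMap.mulRight_apply] at this
    rw [this, card_V]
    push_cast
    rfl
  have h2 : ∀ a : degreeLT F m, ∑ b : degreeLT F n, ψ (L ((a : F[X]) * b))
      = if ∀ b : degreeLT F n, L ((a : F[X]) * b) = 0 then (Fintype.card F : ℂ) ^ n else 0 := by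
    intro a
    have := sum_char_lin hψ (W := degreeLT F n)
      ((L.comp (LinearMap.mulLeft F (a : F[X]))).comp (degreeLT F n).subtype)
    simp only [LinearMap.comp_apply, Submodule.subtype_apply, LinearMap.mulLeft_apply] at this
    rw [this, card_V]
    push_cast
    rfl
  have h3 : ∑ b : degreeLT F n, ∑ a : degreeLT F m, ψ (L ((a : F[X]) * b))
      = ∑ a : degreeLT F m, ∑ b : degreeLT F n, ψ (L ((a : F[X]) * b)) := Finset.sum_comm
  rw [Finset.sum_congr rfl (fun b _ => h1 b), Finset.sum_congr rfl (fun a _ => h2 a),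
    Finset.sum_ite, Finset.sum_ite] at h3
  simp only [Finset.sum_const_zero, add_zero, Finset.sum_const, nsmul_eq_mul] at h3
  rw [Nat.card_eq_fintype_card, Nat.card_eq_fintype_card, Fintype.card_subtype,
    Fintype.card_subtype]
  have h4 : (((Fintype.card F ^ m * (Finset.univ.filter (fun b : degreeLT F n =>
      ∀ a : degreeLT F m, L ((a : F[X]) * b) = 0)).card : ℕ)) : ℂ)
      = ((Fintype.card F ^ n * (Finset.univ.filter (fun a : degreeLT F m =>
      ∀ b : degreeLT F n, L ((a : F[X]) * b) = 0)).card : ℕ) : ℂ) := by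
    push_cast
    rw [mul_comm, h3, mul_comm]
  exact_mod_cast h4

end Pool.Agent.H598.FQ
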