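import Mathlib

/-!
# The weights

The combinatorial heart of the upper bound for the number of solutions: with suitable weights on
the coefficients `x_{i,j}` (`i` modulo `2k`, `j ≤ P`), among all the monomials
`∏ l, x_{i, f l}` with `∑ f = m` the one with `i ≡ m` modulo `2k` and `f` balanced is the unique
cheapest one.
-/

namespace Pool.Agent.H598.FQ

open Finset

/-- The signed distance modulo `2k` from `k * j` to `i`, in `[-k, k)`. -/
def dlt (k i j : ℕ) : ℤ := ((i : ℤ) - k * j + k) % (2 * k) - k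

/-- The small part of the cost of the variable `x_{i,j}`. -/
def hh (k P i j : ℕ) : ℤ :=
  if 0 ≤ dlt k i j then (k : ℤ) ^ (2 * (P - j)) * dlt k i j ^ 2
  else (k : ℤ) ^ (2 * (P + 1 - j)) * dlt k i j ^ 2

lemma dlt_bounds {k : ℕ} (hk : 0 < k) (i j : ℕ) : -(k : ℤ) ≤ dlt k i j ∧ dlt k i j < k := by
  have h2k : (0 : ℤ) < 2 * k := by positivity
  have h1 := Int.emod_nonneg ((i : ℤ) - k * j + k) (ne_of_gt h2k)
  have h2 := Int.emod_lt_of_pos ((i : ℤ) - k * j + k) h2k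
  unfold dlt
  constructor <;> linarith

lemma hh_nonneg (k P i j : ℕ) : 0 ≤ hh k P i j := by
  unfold hh
  split_ifs <;> positivity

lemma hh_le {k : ℕ} (hk : 0 < k) (P i j : ℕ) : hh k P i j ≤ (k : ℤ) ^ (2 * P + 4) := by
  have h1 : (1 : ℤ) ≤ k := by exact_mod_cast hk
  obtain ⟨hl, hu⟩ := dlt_bounds hk i j
  have hd : dlt k i j ^ 2 ≤ (k : ℤ) ^ 2 := by nlinarith
  have e1 : (k : ℤ) ^ (2 * (P - j)) ≤ (k : ℤ) ^ (2 * P + 2) := by
    apply pow_le_pow_right₀ h1; omega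
  have e2 : (k : ℤ) ^ (2 * (P + 1 - j)) ≤ (k : ℤ) ^ (2 * P + 2) := by
    apply pow_le_pow_right₀ h1; omega
  have hk0 : (0 : ℤ) ≤ (k : ℤ) ^ (2 * P + 2) := by positivity
  have hd0 : 0 ≤ dlt k i j ^ 2 := sq_nonneg _
  have e3 : (k : ℤ) ^ (2 * P + 4) = (k : ℤ) ^ (2 * P + 2) * (k : ℤ) ^ 2 := by ring
  unfold hh
  rw [e3]
  split_ifs
  · exact mul_le_mul e1 hd hd0 hk0
  · exact mul_le_mul e2 hd hd0 hk0

lemma dlt_succ {k : ℕ} (hk : 0 < k) (i j : ℕ) :
    (0 ≤ dlt k i j → dlt k i (j + 1) = dlt k i j - k) ∧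
    (dlt k i j < 0 → dlt k i (j + 1) = dlt k i j + k) := by
  have h2k : (0 : ℤ) < 2 * k := by positivity
  have hk0 : (0 : ℤ) < k := by exact_mod_cast hk
  set t : ℤ := (i : ℤ) - k * j + k with ht
  have h1 := Int.emod_nonneg t (ne_of_gt h2k)
  have h2 := Int.emod_lt_of_pos t h2k
  have h3 := Int.emod_add_mul_ediv t (2 * k)
  have hd : dlt k i j = t % (2 * k) - k := rfl
  have hd' : dlt k i (j + 1) = (t - k) % (2 * k) - k := by
    unfold dlt
    rw [ht]
    congr 2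
    push_cast
    ring
  constructor
  · intro h
    rw [hd', hd]
    have e : t - k = (t % (2 * k) - k) + 2 * k * (t / (2 * k)) := by linarith
    rw [e, Int.add_mul_emod_self_left, Int.emod_eq_of_lt (by rw [hd] at h; linarith)
      (by linarith)]
  · intro h
    rw [hd', hd]
    have e : t - k = (t % (2 * k) + k) + 2 * k * (t / (2 * k) - 1) := by linarith
    rw [e, Int.add_mul_emod_self_left, Int.emod_eq_of_lt (by linarith)
      (by rw [hd] at h; linarith)]
    ring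

lemma dlt_mod {k : ℕ} (hk : 0 < k) (j a : ℕ) (ha : a < k) :
    dlt k ((k * j + a) % (2 * k)) j = a := by
  have h2k : (0 : ℤ) < 2 * k := by positivity
  have hk0 : (0 : ℤ) < k := by exact_mod_cast hk
  have haz : (a : ℤ) < k := by exact_mod_cast ha
  have ha0 : (0 : ℤ) ≤ a := by positivity
  unfold dlt
  have h3 : (((k * j + a) % (2 * k) : ℕ) : ℤ) =
      (k * j + a : ℤ) - 2 * k * ((k * j + a : ℤ) / (2 * k)) := by
    rw [Int.natCast_emod]
    push_cast
    have := Int.emod_add_mul_ediv ((k : ℤ) * j + a) (2 * k)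
    linarith
  rw [h3]
  have e : (k * j + a : ℤ) - 2 * k * ((k * j + a : ℤ) / (2 * k)) - k * j + k
      = (a + k) + 2 * k * (-((k * j + a : ℤ) / (2 * k))) := by ring
  rw [e, Int.add_mul_emod_self_left, Int.emod_eq_of_lt (by linarith) (by linarith)]
  ring

lemma eq_of_dlt_eq {k : ℕ} (hk : 0 < k) {i i' j : ℕ} (hi : i < 2 * k) (hi' : i' < 2 * k)
    (h : dlt k i j = dlt k i' j) : i = i' := by
  have h2k : (0 : ℤ) < 2 * k := by positivity
  unfold dlt at h
  have h1 : ((i : ℤ) - k * j + k) % (2 * k) = ((i' : ℤ) - k * j + k) % (2 * k) := by linarith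
  have h2 := Int.emod_emod_of_dvd
  have h3 : (i : ℤ) ≡ i' [ZMOD (2 * k)] := by
    have h4 : ((i : ℤ) - k * j + k) ≡ ((i' : ℤ) - k * j + k) [ZMOD (2 * k)] := h1
    have h5 := Int.ModEq.add_right ((k : ℤ) * j - k) h4
    have e1 : (i : ℤ) - k * j + k + (k * j - k) = i := by ring
    have e2 : (i' : ℤ) - k * j + k + (k * j - k) = i' := by ring
    rwa [e1, e2] at h5
  have h6 : (i : ℤ) % (2 * k) = (i' : ℤ) % (2 * k) := h3
  have hiz : (i : ℤ) < 2 * k := by exact_mod_cast hi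
  have hiz' : (i' : ℤ) < 2 * k := by exact_mod_cast hi'
  rw [Int.emod_eq_of_lt (by positivity) hiz, Int.emod_eq_of_lt (by positivity) hiz'] at h6
  exact_mod_cast h6

/-- The cost of the designated monomial. -/
lemma hh_min {k : ℕ} (hk : 0 < k) {P j a : ℕ} (ha : a < k) (hj : j ≤ P)
    (haj : 0 < a → j + 1 ≤ P) :
    ((k : ℤ) - a) * hh k P ((k * j + a) % (2 * k)) j
      + a * hh k P ((k * j + a) % (2 * k)) (j + 1)
      = (k : ℤ) ^ (2 * (P - j)) * (a * (k - a) * k) := by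
  have hk0 : (0 : ℤ) < k := by exact_mod_cast hk
  have haz : (a : ℤ) < k := by exact_mod_cast ha
  have ha0 : (0 : ℤ) ≤ a := by positivity
  have hd := dlt_mod hk j a ha
  have hd' := (dlt_succ hk ((k * j + a) % (2 * k)) j).1 (by rw [hd]; exact ha0)
  rw [hd] at hd'
  have h1 : hh k P ((k * j + a) % (2 * k)) j = (k : ℤ) ^ (2 * (P - j)) * (a : ℤ) ^ 2 := by
    unfold hh
    rw [hd, if_pos ha0]
  have h2 : hh k P ((k * j + a) % (2 * k)) (j + 1)
      = (k : ℤ) ^ (2 * (P + 1 - (j + 1))) * ((a : ℤ) - k) ^ 2 := by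
    unfold hh
    rw [hd', if_neg (by linarith)]
  rw [h1, h2]
  have : P + 1 - (j + 1) = P - j := by omega
  rw [this]
  ring

/-- The designated index is strictly the best one among the balanced monomials. -/
lemma hh_lt {k : ℕ} (hk : 0 < k) {P j a i : ℕ} (ha : a < k) (hj : j ≤ P)
    (haj : 0 < a → j + 1 ≤ P) (hi : i < 2 * k) (hne : i ≠ (k * j + a) % (2 * k)) :
    (k : ℤ) ^ (2 * (P - j)) * (a * (k - a) * k) <
      ((k : ℤ) - a) * hh k P i j + a * hh k P i (j + 1) := by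
  have hk0 : (0 : ℤ) < k := by exact_mod_cast hk
  have haz : (a : ℤ) < k := by exact_mod_cast ha
  have ha0 : (0 : ℤ) ≤ a := by positivity
  have hd := dlt_mod hk j a ha
  have hdne : dlt k i j ≠ a := by
    intro h
    apply hne
    apply eq_of_dlt_eq hk hi (Nat.mod_lt _ (by positivity)) (j := j)
    rw [h, hd]
  have hpow : (0 : ℤ) < (k : ℤ) ^ (2 * (P - j)) := by positivity
  obtain ⟨hs1, hs2⟩ := dlt_succ hk i j
  obtain ⟨hb1, hb2⟩ := dlt_bounds hk i j
  by_cases hc : 0 ≤ dlt k i j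
  · have h1 : hh k P i j = (k : ℤ) ^ (2 * (P - j)) * dlt k i j ^ 2 := by
      unfold hh
      rw [if_pos hc]
    have h2 : hh k P i (j + 1) = (k : ℤ) ^ (2 * (P - j)) * (dlt k i j - k) ^ 2 := by
      unfold hh
      rw [hs1 hc, if_neg (by linarith)]
      have : P + 1 - (j + 1) = P - j := by omega
      rw [this]
    rw [h1, h2]
    have key : ((k : ℤ) - a) * ((k : ℤ) ^ (2 * (P - j)) * dlt k i j ^ 2)
        + a * ((k : ℤ) ^ (2 * (P - j)) * (dlt k i j - k) ^ 2)
        = (k : ℤ) ^ (2 * (P - j)) * (a * (k - a) * k)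
          + (k : ℤ) ^ (2 * (P - j)) * (k * (dlt k i j - a) ^ 2) := by ring
    rw [key]
    have : 0 < (dlt k i j - a) ^ 2 := by
      have : dlt k i j - a ≠ 0 := sub_ne_zero.mpr hdne
      positivity
    have h3 : 0 < (k : ℤ) ^ (2 * (P - j)) * (k * (dlt k i j - a) ^ 2) := by positivity
    linarith
  · push Not at hc
    have h1 : hh k P i j = (k : ℤ) ^ (2 * (P + 1 - j)) * dlt k i j ^ 2 := by
      unfold hh
      rw [if_neg (by linarith)]
    have h2 := hh_nonneg k P i (j + 1)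
    have h3 : (1 : ℤ) ≤ dlt k i j ^ 2 := by nlinarith
    have e : (k : ℤ) ^ (2 * (P + 1 - j)) = (k : ℤ) ^ (2 * (P - j)) * k ^ 2 := by
      rw [← pow_add]
      congr 1
      omega
    have h4 : (k : ℤ) ^ (2 * (P - j)) * (a * (k - a) * k)
        < ((k : ℤ) - a) * ((k : ℤ) ^ (2 * (P - j)) * k ^ 2) := by
      have e2 : ((k : ℤ) - a) * ((k : ℤ) ^ (2 * (P - j)) * k ^ 2)
          - (k : ℤ) ^ (2 * (P - j)) * (a * (k - a) * k)
          = (k : ℤ) ^ (2 * (P - j)) * (k * (k - a) * (k - a)) := by ring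
      have h5 : 0 < (k : ℤ) - a := by linarith
      have h6 : 0 < (k : ℤ) ^ (2 * (P - j)) * (k * (k - a) * (k - a)) := by positivity
      linarith
    have h5 : ((k : ℤ) - a) * ((k : ℤ) ^ (2 * (P - j)) * k ^ 2)
        ≤ ((k : ℤ) - a) * hh k P i j := by
      rw [h1, e]
      apply mul_le_mul_of_nonneg_left _ (by linarith)
      have h6 : 0 < (k : ℤ) ^ (2 * (P - j)) * k ^ 2 := by positivity
      nlinarith
    have h7 : 0 ≤ (a : ℤ) * hh k P i (j + 1) := by positivity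
    linarith

/-- The cost of a variable. -/
def cost (k P i j : ℕ) : ℤ := (k : ℤ) ^ (2 * P + 3) * (j : ℤ) ^ 2 + hh k P i j

lemma sum_sq (k : ℕ) (f : Fin k → ℕ) (m j : ℕ) (hf : ∑ l, f l = m) :
    ∑ l, (f l : ℤ) ^ 2 = (2 * j + 1) * m - k * j * (j + 1)
      + ∑ l, ((f l : ℤ) - j) * ((f l : ℤ) - j - 1) := by
  have h1 : ∀ l, ((f l : ℤ) - j) * ((f l : ℤ) - j - 1)
      = (f l : ℤ) ^ 2 - (2 * j + 1) * (f l : ℤ) + j * (j + 1) := by
    intro l; ring
  simp_rw [h1]
  rw [Finset.sum_add_distrib, Finset.sum_sub_distrib, ← Finset.mul_sum]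
  have h2 : ∑ l, (f l : ℤ) = m := by exact_mod_cast hf
  rw [h2]
  simp
  ring

lemma bal_nonneg (x j : ℤ) : 0 ≤ (x - j) * (x - j - 1) := by
  rcases lt_or_ge (x - j) 1 with h | h
  · nlinarith
  · nlinarith

lemma bal_two (x j : ℤ) (h1 : x ≠ j) (h2 : x ≠ j + 1) : 2 ≤ (x - j) * (x - j - 1) := by
  rcases lt_or_gt_of_ne h1 with h | h
  · have : x - j ≤ -1 := by linarith
    nlinarith
  · have : 2 ≤ x - j := by
      rcases lt_or_gt_of_ne h2 with h' | h'
      · omega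
      · omega
    nlinarith

lemma sum_bal {k : ℕ} (f : Fin k → ℕ) {m j a : ℕ} (hf : ∑ l, f l = m) (hm : m = k * j + a)
    (hb : ∀ l, f l = j ∨ f l = j + 1) (g : ℕ → ℤ) :
    ∑ l, g (f l) = ((k : ℤ) - a) * g j + a * g (j + 1) := by
  classical
  have hg : ∀ l, g (f l) = g j + ((f l : ℤ) - j) * (g (j + 1) - g j) := by
    intro l
    rcases hb l with h | h
    · rw [h]; ring
    · rw [h]; push_cast; ring
  have h2 : ∑ l, (f l : ℤ) = m := by exact_mod_cast hf
  rw [Finset.sum_congr rfl (fun l _ => hg l), Finset.sum_add_distrib, ← Finset.sum_mul,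
    Finset.sum_sub_distrib, h2, hm]
  simp
  ring

/-- The total cost of the designated monomial. -/
def minCost (k P j a : ℕ) : ℤ :=
  (k : ℤ) ^ (2 * P + 3) * ((2 * j + 1) * (k * j + a : ℕ) - k * j * (j + 1))
    + (k : ℤ) ^ (2 * (P - j)) * (a * (k - a) * k)

theorem minCost_lt {k : ℕ} (hk : 0 < k) {P j a i : ℕ} (ha : a < k) (hj : j ≤ P)
    (haj : 0 < a → j + 1 ≤ P) (hi : i < 2 * k) (f : Fin k → ℕ)
    (hf : ∑ l, f l = k * j + a)
    (hne : ¬ (i = (k * j + a) % (2 * k) ∧ ∀ l, f l = j ∨ f l = j + 1)) :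
    minCost k P j a < ∑ l, cost k P i (f l) := by
  have hk0 : (0 : ℤ) < k := by exact_mod_cast hk
  have hk1 : (1 : ℤ) ≤ k := by exact_mod_cast hk
  have haz : (a : ℤ) < k := by exact_mod_cast ha
  have ha0 : (0 : ℤ) ≤ a := by positivity
  unfold minCost
  have hc : ∑ l, cost k P i (f l) = (k : ℤ) ^ (2 * P + 3) * ∑ l, (f l : ℤ) ^ 2
      + ∑ l, hh k P i (f l) := by
    unfold cost
    rw [Finset.sum_add_distrib, Finset.mul_sum]
  rw [hc, sum_sq k f _ j hf]
  have hB : (0 : ℤ) < (k : ℤ) ^ (2 * P + 3) := by positivity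
  by_cases hb : ∀ l, f l = j ∨ f l = j + 1
  · have hi' : i ≠ (k * j + a) % (2 * k) := fun h => hne ⟨h, hb⟩
    have h0 : ∑ l, ((f l : ℤ) - j) * ((f l : ℤ) - j - 1) = 0 := by
      apply Finset.sum_eq_zero
      intro l _
      rcases hb l with h | h
      · rw [h]; ring
      · rw [h]; push_cast; ring
    rw [h0, sum_bal f hf rfl hb (fun t => hh k P i t)]
    have := hh_lt hk ha hj haj hi hi'
    push_cast
    linarith
  · push Not at hb
    obtain ⟨l₀, h1, h2⟩ := hb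
    have h3 : 2 ≤ ∑ l, ((f l : ℤ) - j) * ((f l : ℤ) - j - 1) := by
      have h4 := Finset.single_le_sum (f := fun l => ((f l : ℤ) - j) * ((f l : ℤ) - j - 1))
        (fun l _ => bal_nonneg _ _) (Finset.mem_univ l₀)
      have h5 := bal_two (f l₀ : ℤ) j (by exact_mod_cast h1) (by exact_mod_cast h2)
      exact le_trans h5 h4
    have h6 : 0 ≤ ∑ l, hh k P i (f l) := Finset.sum_nonneg (fun l _ => hh_nonneg _ _ _ _)
    have h7 : (k : ℤ) ^ (2 * (P - j)) * (a * (k - a) * k) < 2 * (k : ℤ) ^ (2 * P + 3) := by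
      have e1 : (k : ℤ) ^ (2 * (P - j)) ≤ (k : ℤ) ^ (2 * P) := by
        apply pow_le_pow_right₀ hk1; omega
      have e2 : (a : ℤ) * (k - a) * k ≤ (k : ℤ) ^ 3 := by
        have : (a : ℤ) * (k - a) ≤ k * k := by nlinarith
        nlinarith
      have e3 : 0 ≤ (a : ℤ) * (k - a) * k := by
        have : (0 : ℤ) ≤ k - a := by linarith
        positivity
      calc (k : ℤ) ^ (2 * (P - j)) * (a * (k - a) * k)
          ≤ (k : ℤ) ^ (2 * P) * (k : ℤ) ^ 3 := mul_le_mul e1 e2 e3 (by positivity)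
        _ = (k : ℤ) ^ (2 * P + 3) := by ring
        _ < 2 * (k : ℤ) ^ (2 * P + 3) := by linarith
    push_cast
    nlinarith

end Pool.Agent.H598.FQ
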