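import Pool.Agent.H598.FQ.Foot
import Pool.Agent.H598.FQ.Weights

/-!
# The number of solutions of a diagonal equation in `2k` variables
-/

namespace Pool.Agent.H598.FQ

open Finset Polynomial

/-- Exponent vector of the monomial `∏ l, x (i, f l)`. -/
def ex {k P : ℕ} (i : Fin (2 * k)) (f : Fin k → Fin (P + 1)) :
    Fin (2 * k) × Fin (P + 1) → ℕ := ∑ l, Pi.single (i, f l) 1

section general
variable {σ : Type*} [Fintype σ] {K : Type*} [Field K]

lemma mon_zero (Z : Set (σ → K)) : mon Z 0 = 1 := by
  funext z; simp [mon]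

lemma mon_single [DecidableEq σ] (Z : Set (σ → K)) (v : σ) :
    mon Z (Pi.single v 1) = fun z => z.1 v := by
  funext z
  unfold mon
  rw [Finset.prod_eq_single v]
  · simp
  · intro u _ hu
    simp [hu]
  · simp

lemma mon_sum {ι : Type*} (Z : Set (σ → K)) (s : Finset ι) (g : ι → σ → ℕ) :
    mon Z (∑ l ∈ s, g l) = ∏ l ∈ s, mon Z (g l) := by
  classical
  induction s using Finset.induction_on with
  | empty => simp [mon_zero]
  | insert a s ha ih => rw [Finset.sum_insert ha, Finset.prod_insert ha, mon_add, ih]

lemma wt_zero (w : σ → ℕ) : wt w 0 = 0 := by simp [wt]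

lemma wt_single [DecidableEq σ] (w : σ → ℕ) (v : σ) : wt w (Pi.single v 1) = w v := by
  unfold wt
  rw [Finset.sum_eq_single v]
  · simp
  · intro u _ hu
    simp [hu]
  · simp

lemma wt_sum {ι : Type*} (w : σ → ℕ) (s : Finset ι) (g : ι → σ → ℕ) :
    wt w (∑ l ∈ s, g l) = ∑ l ∈ s, wt w (g l) := by
  classical
  induction s using Finset.induction_on with
  | empty => simp [wt_zero]
  | insert a s ha ih => rw [Finset.sum_insert ha, Finset.sum_insert ha, wt_add, ih]

/-- Counting exponent vectors which are small at prescribed places. -/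
lemma card_box {μ : Type*} [Fintype μ] (g : μ → σ) (hg : Function.Injective g) (k q : ℕ) :
    Nat.card {τ : σ → Fin q // ∀ m, (τ (g m) : ℕ) < k} ≤
      k ^ Fintype.card μ * q ^ (Fintype.card σ - Fintype.card μ) := by
  classical
  let Φ : {τ : σ → Fin q // ∀ m, (τ (g m) : ℕ) < k} →
      (μ → Fin k) × ({v : σ // v ∉ Set.range g} → Fin q) :=
    fun τ => (fun m => ⟨τ.1 (g m), τ.2 m⟩, fun v => τ.1 v.1)
  have hΦ : Function.Injective Φ := by
    intro τ τ' h
    have h1 := congrArg Prod.fst h
    have h2 := congrArg Prod.snd h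
    apply Subtype.ext
    funext v
    by_cases hv : v ∈ Set.range g
    · obtain ⟨m, rfl⟩ := hv
      have := congrFun h1 m
      simp only [Φ, Fin.mk.injEq] at this
      exact Fin.ext this
    · exact congrFun h2 ⟨v, hv⟩
  have h3 := Nat.card_le_card_of_injective Φ hΦ
  refine le_trans h3 (le_of_eq ?_)
  rw [Nat.card_prod, Nat.card_fun, Nat.card_fun]
  have h4 : Nat.card {v : σ // v ∉ Set.range g} = Fintype.card σ - Fintype.card μ := by
    rw [Nat.card_eq_fintype_card, Fintype.card_subtype_compl]
    congr 1
    exact Set.card_range_of_injective hg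
  rw [h4]
  simp

end general

lemma card_good {k P j a : ℕ} (hj : j ≤ P) (haj : 0 < a → j + 1 ≤ P) :
    ((Finset.univ : Finset (Fin k → Fin (P + 1))).filter
      (fun f => (∀ l, (f l : ℕ) = j ∨ (f l : ℕ) = j + 1) ∧ ∑ l, (f l : ℕ) = k * j + a)).card
      = k.choose a := by
  classical
  have hcard : ∀ f : Fin k → Fin (P + 1), (∀ l, (f l : ℕ) = j ∨ (f l : ℕ) = j + 1) →
      ∑ l, (f l : ℕ) = k * j + (Finset.univ.filter (fun l => (f l : ℕ) = j + 1)).card := by
    intro f hf
    rw [Finset.card_filter]
    have : ∀ l, (f l : ℕ) = j + (if (f l : ℕ) = j + 1 then 1 else 0) := by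
      intro l
      rcases hf l with h | h
      · rw [h]; simp
      · rw [h]; simp
    rw [Finset.sum_congr rfl (fun l _ => this l), Finset.sum_add_distrib]
    simp
  have hP : k.choose a = (Finset.powersetCard a (Finset.univ : Finset (Fin k))).card := by
    simp
  rw [hP]
  let jj : Fin (P + 1) := ⟨j, by omega⟩
  let jp : Fin (P + 1) := if h : j + 1 < P + 1 then ⟨j + 1, h⟩ else jj
  refine Finset.card_bij' (fun f _ => Finset.univ.filter (fun l => (f l : ℕ) = j + 1))
    (fun s _ => fun l => if l ∈ s then jp else jj) ?_ ?_ ?_ ?_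
  · intro f hf
    rw [Finset.mem_filter] at hf
    rw [Finset.mem_powersetCard]
    refine ⟨Finset.subset_univ _, ?_⟩
    have h1 := hcard f hf.2.1
    have h2 := hf.2.2
    omega
  · intro s hs
    rw [Finset.mem_powersetCard] at hs
    rw [Finset.mem_filter]
    have hjp : 0 < a → (jp : ℕ) = j + 1 := by
      intro ha
      have : j + 1 < P + 1 := by have := haj ha; omega
      simp [jp, this]
    have hval : ∀ l, (((if l ∈ s then jp else jj : Fin (P + 1))) : ℕ)
        = j + if l ∈ s then 1 else 0 := by
      intro l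
      by_cases hl : l ∈ s
      · have ha : 0 < a := by
          rw [← hs.2]; exact Finset.card_pos.mpr ⟨l, hl⟩
        simp only [hl, if_true]
        exact hjp ha
      · simp only [hl, if_false]
        rfl
    refine ⟨Finset.mem_univ _, ?_, ?_⟩
    · intro l
      rw [hval l]
      split_ifs <;> simp
    · rw [Finset.sum_congr rfl (fun l _ => hval l), Finset.sum_add_distrib]
      simp [hs.2]
  · intro f hf
    rw [Finset.mem_filter] at hf
    funext l
    apply Fin.ext
    by_cases hl : (f l : ℕ) = j + 1
    · have h3 : j + 1 < P + 1 := by rw [← hl]; exact (f l).2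
      simp [hl, jp, h3]
    · have h4 : (f l : ℕ) = j := by
        rcases hf.2.1 l with h | h
        · exact h
        · exact absurd h hl
      simp [h4, jj]
  · intro s hs
    rw [Finset.mem_powersetCard] at hs
    ext l
    rw [Finset.mem_filter]
    by_cases hl : l ∈ s
    · have ha : 0 < a := by
        rw [← hs.2]; exact Finset.card_pos.mpr ⟨l, hl⟩
      have h3 : j + 1 < P + 1 := by have := haj ha; omega
      simp [hl, jp, h3]
    · simp [hl, jj]

/-- All balanced functions give the same exponent vector. -/
lemma ex_bal {k P j a : ℕ} (hak : a ≤ k) (i : Fin (2 * k)) (f : Fin k → Fin (P + 1))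
    (hb : ∀ l, (f l : ℕ) = j ∨ (f l : ℕ) = j + 1) (hs : ∑ l, (f l : ℕ) = k * j + a)
    (v : Fin (2 * k) × Fin (P + 1)) :
    ex i f v = if v.1 = i then (if (v.2 : ℕ) = j then k - a else if (v.2 : ℕ) = j + 1 then a else 0)
      else 0 := by
  classical
  have hcard : (Finset.univ.filter (fun l => (f l : ℕ) = j + 1)).card = a := by
    have : ∀ l, (f l : ℕ) = j + (if (f l : ℕ) = j + 1 then 1 else 0) := by
      intro l
      rcases hb l with h | h
      · rw [h]; simp
      · rw [h]; simp
    rw [Finset.sum_congr rfl (fun l _ => this l), Finset.sum_add_distrib] at hs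
    rw [Finset.card_filter]
    simp only [Finset.sum_const, Finset.card_univ, Fintype.card_fin, smul_eq_mul] at hs
    omega
  have hcard2 : (Finset.univ.filter (fun l => (f l : ℕ) = j)).card = k - a := by
    have h1 := Finset.card_filter_add_card_filter_not (s := (Finset.univ : Finset (Fin k)))
      (fun l => (f l : ℕ) = j + 1)
    have h2 : (Finset.univ.filter (fun l => ¬ (f l : ℕ) = j + 1))
        = (Finset.univ.filter (fun l => (f l : ℕ) = j)) := by
      apply Finset.filter_congr
      intro l _
      rcases hb l with h | h <;> omega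
    rw [h2, hcard, Finset.card_univ, Fintype.card_fin] at h1
    omega
  unfold ex
  rw [Finset.sum_apply]
  obtain ⟨vi, vj⟩ := v
  by_cases hi : vi = i
  · subst hi
    simp only [if_true]
    have h1 : ∀ l, (Pi.single (vi, f l) 1 : Fin (2 * k) × Fin (P + 1) → ℕ) (vi, vj)
        = if (f l : ℕ) = (vj : ℕ) then 1 else 0 := by
      intro l
      by_cases h : f l = vj
      · subst h; simp
      · have : ¬ (f l : ℕ) = (vj : ℕ) := fun h' => h (Fin.ext h')
        rw [if_neg this, Pi.single_apply, if_neg]
        intro h'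
        exact h (congrArg Prod.snd h').symm
    rw [Finset.sum_congr rfl (fun l _ => h1 l), ← Finset.card_filter]
    split_ifs with h2 h3
    · rw [h2]; exact hcard2
    · rw [h3]; exact hcard
    · rw [Finset.card_eq_zero, Finset.filter_eq_empty_iff]
      intro l _
      rcases hb l with h | h <;> omega
  · rw [if_neg hi]
    apply Finset.sum_eq_zero
    intro l _
    rw [Pi.single_apply, if_neg]
    intro h
    exact hi (congrArg Prod.fst h)

end Pool.Agent.H598.FQ
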