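import Pool.Agent.H598.FQ.Count

/-!
# The number of solutions of a diagonal equation in `2k` variables, continued
-/

namespace Pool.Agent.H598.FQ

open Finset Polynomial

/-- The base weight. -/
def base (k P : ℕ) : ℤ := (k : ℤ) ^ (2 * P + 3) * (P : ℤ) ^ 2 + (k : ℤ) ^ (2 * P + 4) + 1

/-- The weight of a variable. -/
def wv (k P : ℕ) (v : Fin (2 * k) × Fin (P + 1)) : ℕ := (base k P - cost k P v.1 v.2).toNat

lemma cost_lt_base {k P : ℕ} (hk : 0 < k) (i j : ℕ) (hj : j ≤ P) : cost k P i j < base k P := by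
  unfold cost base
  have h1 := hh_le hk P i j
  have h2 : (j : ℤ) ^ 2 ≤ (P : ℤ) ^ 2 := by
    have : (j : ℤ) ≤ P := by exact_mod_cast hj
    have h0 : (0 : ℤ) ≤ j := by positivity
    nlinarith
  have h3 : (0 : ℤ) ≤ (k : ℤ) ^ (2 * P + 3) := by positivity
  have := mul_le_mul_of_nonneg_left h2 h3
  linarith

lemma wv_cast {k P : ℕ} (hk : 0 < k) (v : Fin (2 * k) × Fin (P + 1)) :
    (wv k P v : ℤ) = base k P - cost k P v.1 v.2 := by
  unfold wv
  rw [Int.toNat_of_nonneg]
  have := cost_lt_base (P := P) hk v.1 v.2 (by have := v.2.2; omega)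
  linarith

lemma wv_pos {k P : ℕ} (hk : 0 < k) (v : Fin (2 * k) × Fin (P + 1)) : 0 < wv k P v := by
  have h := wv_cast hk v
  have := cost_lt_base (P := P) hk v.1 v.2 (by have := v.2.2; omega)
  have h2 : (0 : ℤ) < (wv k P v : ℤ) := by linarith
  exact_mod_cast h2

lemma wt_ex {k P : ℕ} (hk : 0 < k) (i : Fin (2 * k)) (f : Fin k → Fin (P + 1)) :
    (wt (wv k P) (ex i f) : ℤ) = k * base k P - ∑ l, cost k P i (f l) := by
  unfold ex
  rw [wt_sum]
  push_cast
  have : ∀ l, ((wt (wv k P) (Pi.single (i, f l) 1) : ℕ) : ℤ) = base k P - cost k P i (f l) := by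
    intro l
    rw [wt_single, wv_cast hk]
  rw [Finset.sum_congr rfl (fun l _ => this l), Finset.sum_sub_distrib]
  simp

/-- The designated index. -/
def di (k P : ℕ) (hk : 0 < k) (t : Fin (k * P + 1)) : Fin (2 * k) :=
  ⟨t.1 % (2 * k), Nat.mod_lt _ (by positivity)⟩

lemma div_le {k P : ℕ} (hk : 0 < k) (t : Fin (k * P + 1)) : t.1 / k ≤ P := by
  have h1 := t.2
  have : t.1 ≤ P * k := by have := Nat.mul_comm k P; omega
  calc t.1 / k ≤ (P * k) / k := Nat.div_le_div_right this
    _ = P := Nat.mul_div_cancel _ hk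

lemma div_lt {k P : ℕ} (hk : 0 < k) (t : Fin (k * P + 1)) (ha : 0 < t.1 % k) :
    t.1 / k + 1 ≤ P := by
  have h1 := t.2
  have h2 := Nat.div_add_mod t.1 k
  by_contra h
  have h3 : P ≤ t.1 / k := by omega
  have h4 : k * P ≤ k * (t.1 / k) := Nat.mul_le_mul_left _ h3
  omega

/-- The designated balanced function. -/
def df (k P : ℕ) (hk : 0 < k) (t : Fin (k * P + 1)) : Fin k → Fin (P + 1) := fun l =>
  if h : l.1 < t.1 % k then ⟨t.1 / k + 1, by have := div_lt hk t (by omega); omega⟩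
  else ⟨t.1 / k, by have := div_le hk t; omega⟩

lemma df_bal {k P : ℕ} (hk : 0 < k) (t : Fin (k * P + 1)) (l : Fin k) :
    (df k P hk t l : ℕ) = t.1 / k ∨ (df k P hk t l : ℕ) = t.1 / k + 1 := by
  unfold df
  split_ifs <;> simp

lemma df_sum {k P : ℕ} (hk : 0 < k) (t : Fin (k * P + 1)) :
    ∑ l, (df k P hk t l : ℕ) = k * (t.1 / k) + t.1 % k := by
  have h : ∀ l : Fin k, (df k P hk t l : ℕ) = t.1 / k + if l.1 < t.1 % k then 1 else 0 := by
    intro l
    unfold df
    split_ifs <;> simp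
  rw [Finset.sum_congr rfl (fun l _ => h l), Finset.sum_add_distrib]
  simp only [Finset.sum_const, Finset.card_univ, Fintype.card_fin, smul_eq_mul]
  congr 1
  rw [← Finset.card_filter]
  have h2 : t.1 % k < k := Nat.mod_lt _ hk
  have h3 : (Finset.univ.filter (fun l : Fin k => l.1 < t.1 % k))
      = Finset.Iio (⟨t.1 % k, h2⟩ : Fin k) := by
    ext l
    simp [Fin.lt_def]
  rw [h3, Fin.card_Iio]

/-- The designated monomial. -/
def dm (k P : ℕ) (hk : 0 < k) (t : Fin (k * P + 1)) : Fin (2 * k) × Fin (P + 1) → ℕ :=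
  ex (di k P hk t) (df k P hk t)

lemma cost_bal {k P : ℕ} (hk : 0 < k) (t : Fin (k * P + 1)) (f : Fin k → Fin (P + 1))
    (hb : ∀ l, (f l : ℕ) = t.1 / k ∨ (f l : ℕ) = t.1 / k + 1)
    (hs : ∑ l, (f l : ℕ) = k * (t.1 / k) + t.1 % k) :
    ∑ l, cost k P (di k P hk t) (f l) = minCost k P (t.1 / k) (t.1 % k) := by
  have hc : ∑ l, cost k P (di k P hk t) (f l)
      = (k : ℤ) ^ (2 * P + 3) * ∑ l, (((f l : ℕ)) : ℤ) ^ 2
      + ∑ l, hh k P (di k P hk t) (f l) := by
    unfold cost
    rw [Finset.sum_add_distrib, Finset.mul_sum]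
  rw [hc, sum_sq k (fun l => (f l : ℕ)) _ (t.1 / k) hs]
  have h0 : ∑ l, ((((f l : ℕ)) : ℤ) - (t.1 / k : ℕ)) * ((((f l : ℕ)) : ℤ) - (t.1 / k : ℕ) - 1)
      = 0 := by
    apply Finset.sum_eq_zero
    intro l _
    rcases hb l with h | h
    · rw [h]; ring
    · rw [h]; push_cast; ring
  rw [h0, sum_bal (fun l => (f l : ℕ)) hs rfl hb
    (fun u => hh k P (di k P hk t) u)]
  have h4 : ((di k P hk t : Fin (2 * k)) : ℕ) = (k * (t.1 / k) + t.1 % k) % (2 * k) := by
    rw [Nat.div_add_mod]; rfl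
  rw [h4, hh_min hk (Nat.mod_lt _ hk) (div_le hk t) (fun ha => div_lt hk t ha)]
  unfold minCost
  ring

lemma wt_lt {k P : ℕ} (hk : 0 < k) (t : Fin (k * P + 1)) (i : Fin (2 * k))
    (f : Fin k → Fin (P + 1)) (hs : ∑ l, (f l : ℕ) = t.1)
    (hne : ¬ (i = di k P hk t ∧ ∀ l, (f l : ℕ) = t.1 / k ∨ (f l : ℕ) = t.1 / k + 1)) :
    wt (wv k P) (ex i f) < wt (wv k P) (dm k P hk t) := by
  have h1 := wt_ex hk i f
  have h2 := wt_ex hk (di k P hk t) (df k P hk t)
  rw [cost_bal hk t _ (df_bal hk t) (df_sum hk t)] at h2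
  have hs' : ∑ l, (f l : ℕ) = k * (t.1 / k) + t.1 % k := by rw [Nat.div_add_mod]; exact hs
  have h3 := minCost_lt (k := k) hk (P := P) (j := t.1 / k) (a := t.1 % k) (i := i)
    (Nat.mod_lt _ hk) (div_le hk t) (fun ha => div_lt hk t ha) i.2 (fun l => (f l : ℕ)) hs' (by
      rintro ⟨h4, h5⟩
      apply hne
      refine ⟨?_, h5⟩
      apply Fin.ext
      rw [h4, Nat.div_add_mod]; rfl)
  have h6 : ((wt (wv k P) (ex i f) : ℕ) : ℤ) < (wt (wv k P) (dm k P hk t) : ℕ) := by
    unfold dm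
    rw [h1, h2]
    linarith
  exact_mod_cast h6

lemma wt_dm_pos {k P : ℕ} (hk : 0 < k) (t : Fin (k * P + 1)) :
    0 < wt (wv k P) (dm k P hk t) := by
  unfold dm ex
  rw [wt_sum]
  apply Finset.sum_pos
  · intro l _
    rw [wt_single]
    exact wv_pos hk _
  · exact ⟨⟨0, hk⟩, Finset.mem_univ _⟩

/-- The polynomial with given coefficients. -/
noncomputable def pol {F : Type*} [Field F] {P : ℕ} (x : Fin (P + 1) → F) : F[X] :=
  ∑ j : Fin (P + 1), C (x j) * X ^ (j : ℕ)

lemma coeff_pol_pow {F : Type*} [Field F] {P : ℕ} (x : Fin (P + 1) → F) (k t : ℕ) :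
    (pol x ^ k).coeff t = ∑ f : Fin k → Fin (P + 1),
      if ∑ l, (f l : ℕ) = t then ∏ l, x (f l) else 0 := by
  unfold pol
  rw [Fintype.sum_pow, Polynomial.finsetSum_coeff]
  apply Finset.sum_congr rfl
  intro f _
  rw [Finset.prod_mul_distrib, Finset.prod_pow_eq_pow_sum, ← map_prod, coeff_C_mul, coeff_X_pow]
  by_cases h : ∑ l, (f l : ℕ) = t
  · rw [if_pos h, if_pos h.symm, mul_one]
  · rw [if_neg h, if_neg (fun h' => h h'.symm), mul_zero]

section
variable {F : Type*} [Field F]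

lemma mon_ex {k P : ℕ} (Z : Set (Fin (2 * k) × Fin (P + 1) → F)) (i : Fin (2 * k))
    (f : Fin k → Fin (P + 1)) :
    mon Z (ex i f) = fun z => ∏ l, z.1 (i, f l) := by
  unfold ex
  rw [mon_sum]
  funext z
  rw [Finset.prod_apply]
  apply Finset.prod_congr rfl
  intro l _
  rw [mon_single]

/-- The zero set of a diagonal equation. -/
def zset (k P : ℕ) (c : Fin (2 * k) → F) (m : F[X]) :
    Set (Fin (2 * k) × Fin (P + 1) → F) :=
  {x | ∑ i, C (c i) * pol (fun j => x (i, j)) ^ k = m}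

lemma dm_mem_span {k P : ℕ} (hk : 0 < k) (hch : ∀ a, a ≤ k → ((k.choose a : ℕ) : F) ≠ 0)
    (c : Fin (2 * k) → F) (hc : ∀ i, c i ≠ 0) (m : F[X]) (t : Fin (k * P + 1)) :
    mon (zset k P c m) (dm k P hk t) ∈ Submodule.span F
      (mon (zset k P c m) '' {e | wt (wv k P) e < wt (wv k P) (dm k P hk t)}) := by
  classical
  set Z := zset k P c m with hZ
  set i₀ := di k P hk t with hi₀
  set bal : (Fin k → Fin (P + 1)) → Prop :=
    fun f => ∀ l, (f l : ℕ) = t.1 / k ∨ (f l : ℕ) = t.1 / k + 1 with hbal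
  set D : Finset (Fin k → Fin (P + 1)) := Finset.univ.filter (fun f => ∑ l, (f l : ℕ) = t.1)
    with hD
  -- the relation
  have hrel : ∑ i, ∑ f ∈ D, c i • mon Z (ex i f) = m.coeff t.1 • mon Z 0 := by
    funext z
    have hz : ∑ i, C (c i) * pol (fun j => z.1 (i, j)) ^ k = m := z.2
    have h1 := congrArg (fun p => p.coeff t.1) hz
    simp only [Polynomial.finsetSum_coeff, coeff_C_mul, coeff_pol_pow] at h1
    rw [Finset.sum_apply]
    simp only [Finset.sum_apply, Pi.smul_apply, smul_eq_mul, mon_zero, Pi.one_apply, mul_one]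
    rw [← h1]
    apply Finset.sum_congr rfl
    intro i _
    rw [Finset.mul_sum, hD, Finset.sum_filter]
    apply Finset.sum_congr rfl
    intro f _
    by_cases h : ∑ l, (f l : ℕ) = t.1
    · rw [if_pos h, if_pos h, mon_ex]
    · rw [if_neg h, if_neg h, mul_zero]
  -- good terms
  have hgood : ∑ f ∈ D.filter bal, c i₀ • mon Z (ex i₀ f)
      = (c i₀ * ((k.choose (t.1 % k) : ℕ) : F)) • mon Z (dm k P hk t) := by
    have h1 : ∀ f ∈ D.filter bal, c i₀ • mon Z (ex i₀ f) = c i₀ • mon Z (dm k P hk t) := by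
      intro f hf
      rw [Finset.mem_filter, hD, Finset.mem_filter] at hf
      congr 2
      funext v
      unfold dm
      rw [ex_bal (j := t.1 / k) (a := t.1 % k) (Nat.mod_lt _ hk).le _ f hf.2
        (by rw [Nat.div_add_mod]; exact hf.1.2) v,
        ex_bal (j := t.1 / k) (a := t.1 % k) (Nat.mod_lt _ hk).le _ _ (df_bal hk t)
        (df_sum hk t) v]
    rw [Finset.sum_congr rfl h1, Finset.sum_const]
    have h2 : (D.filter bal).card = k.choose (t.1 % k) := by
      rw [← card_good (P := P) (j := t.1 / k) (a := t.1 % k) (div_le hk t)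
        (fun ha => div_lt hk t ha)]
      congr 1
      ext f
      rw [hD, Finset.mem_filter, Finset.mem_filter, Finset.mem_filter, Nat.div_add_mod, hbal]
      tauto
    rw [h2, ← Nat.cast_smul_eq_nsmul F, smul_smul]
    congr 1
    ring
  have hcne : c i₀ * ((k.choose (t.1 % k) : ℕ) : F) ≠ 0 :=
    mul_ne_zero (hc _) (hch _ (Nat.mod_lt _ hk).le)
  -- split the sum
  have hsplit : ∑ i, ∑ f ∈ D, c i • mon Z (ex i f)
      = ∑ f ∈ D.filter bal, c i₀ • mon Z (ex i₀ f)
        + (∑ f ∈ D.filter (fun f => ¬ bal f), c i₀ • mon Z (ex i₀ f)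
        + ∑ i ∈ Finset.univ.erase i₀, ∑ f ∈ D, c i • mon Z (ex i f)) := by
    rw [← Finset.add_sum_erase _ _ (Finset.mem_univ i₀),
      ← Finset.sum_filter_add_sum_filter_not D bal, add_assoc]
  have hmain : (c i₀ * ((k.choose (t.1 % k) : ℕ) : F)) • mon Z (dm k P hk t)
      = m.coeff t.1 • mon Z 0
        - (∑ f ∈ D.filter (fun f => ¬ bal f), c i₀ • mon Z (ex i₀ f)
        + ∑ i ∈ Finset.univ.erase i₀, ∑ f ∈ D, c i • mon Z (ex i f)) := by
    rw [← hgood, ← hrel, hsplit]
    abel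
  have hmem : (c i₀ * ((k.choose (t.1 % k) : ℕ) : F)) • mon Z (dm k P hk t) ∈
      Submodule.span F (mon Z '' {e | wt (wv k P) e < wt (wv k P) (dm k P hk t)}) := by
    rw [hmain]
    apply Submodule.sub_mem
    · apply Submodule.smul_mem
      apply Submodule.subset_span
      refine ⟨0, ?_, rfl⟩
      change wt (wv k P) 0 < _
      rw [wt_zero]
      exact wt_dm_pos hk t
    · apply Submodule.add_mem
      · apply Submodule.sum_mem
        intro f hf
        rw [Finset.mem_filter, hD, Finset.mem_filter] at hf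
        apply Submodule.smul_mem
        apply Submodule.subset_span
        exact ⟨_, wt_lt hk t i₀ f hf.1.2 (fun h => hf.2 h.2), rfl⟩
      · apply Submodule.sum_mem
        intro i hi
        apply Submodule.sum_mem
        intro f hf
        rw [hD, Finset.mem_filter] at hf
        apply Submodule.smul_mem
        apply Submodule.subset_span
        exact ⟨_, wt_lt hk t i f hf.2 (fun h => (Finset.ne_of_mem_erase hi) h.1), rfl⟩
  have := Submodule.smul_mem _ (c i₀ * ((k.choose (t.1 % k) : ℕ) : F))⁻¹ hmem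
  rwa [smul_smul, inv_mul_cancel₀ hcne, one_smul] at this

end

/-- Counting standard exponent vectors. -/
lemma card_std {k P : ℕ} (hk : 0 < k) (q : ℕ) :
    Nat.card {τ : Fin (2 * k) × Fin (P + 1) → Fin q //
      ∀ t, ∃ v, (τ v : ℕ) < dm k P hk t v} ≤
      (2 * k) ^ (k * P + 1) * q ^ (2 * k * (P + 1) - (k * P + 1)) := by
  classical
  -- the options
  let opt : (Fin (k * P + 1) → Bool) → Fin (k * P + 1) → Fin (2 * k) × Fin (P + 1) :=
    fun c t => (di k P hk t, if h : c t = true ∧ 0 < t.1 % k then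
      ⟨t.1 / k + 1, by have := div_lt hk t h.2; omega⟩
      else ⟨t.1 / k, by have := div_le hk t; omega⟩)
  have hopt : ∀ c t, ((opt c t).2 : ℕ) = t.1 / k ∨
      (((opt c t).2 : ℕ) = t.1 / k + 1 ∧ 0 < t.1 % k) := by
    intro c t
    simp only [opt]
    split_ifs with h
    · right; exact ⟨rfl, h.2⟩
    · left; rfl
  have hinj : ∀ c, Function.Injective (opt c) := by
    intro c
    -- first a one-sided statement
    have key : ∀ t t' : Fin (k * P + 1), t.1 < t'.1 → opt c t ≠ opt c t' := by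
      intro t t' hlt h
      have h1 : (di k P hk t : Fin (2 * k)) = di k P hk t' := congrArg Prod.fst h
      have h2 : ((opt c t).2 : ℕ) = ((opt c t').2 : ℕ) :=
        congrArg (fun v : Fin (2 * k) × Fin (P + 1) => (v.2 : ℕ)) h
      have h3 : t.1 % (2 * k) = t'.1 % (2 * k) := congrArg Fin.val h1
      have h4 : t.1 + 2 * k ≤ t'.1 := by
        have e1 := Nat.div_add_mod t.1 (2 * k)
        have e2 := Nat.div_add_mod t'.1 (2 * k)
        have e3 : t.1 / (2 * k) < t'.1 / (2 * k) := by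
          by_contra hcon
          push Not at hcon
          have := Nat.mul_le_mul_left (2 * k) hcon
          omega
        have e4 : 2 * k * (t.1 / (2 * k) + 1) ≤ 2 * k * (t'.1 / (2 * k)) :=
          Nat.mul_le_mul_left _ e3
        rw [mul_add, mul_one] at e4
        omega
      have h5 : t.1 / k + 2 ≤ t'.1 / k := by
        have : (t.1 + 2 * k) / k ≤ t'.1 / k := Nat.div_le_div_right h4
        rwa [Nat.add_mul_div_right _ _ hk] at this
      rcases hopt c t with h6 | ⟨h6, -⟩ <;> rcases hopt c t' with h7 | ⟨h7, -⟩ <;> omega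
    intro t t' h
    by_contra hne
    rcases Nat.lt_or_gt_of_ne (fun h' => hne (Fin.ext h')) with h' | h'
    · exact key t t' h' h
    · exact key t' t h' h.symm
  -- choose the options
  have hchoice : ∀ τ : {τ : Fin (2 * k) × Fin (P + 1) → Fin q //
      ∀ t, ∃ v, (τ v : ℕ) < dm k P hk t v}, ∃ c : Fin (k * P + 1) → Bool,
      ∀ t, (τ.1 (opt c t) : ℕ) < k := by
    intro τ
    have h1 : ∀ t : Fin (k * P + 1), ∃ b : Bool, (τ.1 (di k P hk t,
        if h : b = true ∧ 0 < t.1 % k then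
          (⟨t.1 / k + 1, by have := div_lt hk t h.2; omega⟩ : Fin (P + 1))
        else ⟨t.1 / k, by have := div_le hk t; omega⟩) : ℕ) < k := by
      intro t
      obtain ⟨v, hv⟩ := τ.2 t
      unfold dm at hv
      rw [ex_bal (j := t.1 / k) (a := t.1 % k) (Nat.mod_lt _ hk).le _ _ (df_bal hk t)
        (df_sum hk t) v] at hv
      have hak : t.1 % k < k := Nat.mod_lt _ hk
      obtain ⟨v1, v2⟩ := v
      by_cases hv1 : v1 = di k P hk t
      · rw [if_pos hv1] at hv
        by_cases hv2 : (v2 : ℕ) = t.1 / k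
        · rw [if_pos hv2] at hv
          refine ⟨false, ?_⟩
          have : v2 = ⟨t.1 / k, by have := div_le hk t; omega⟩ := Fin.ext hv2
          subst hv1
          simp only [Bool.false_eq_true, false_and, dif_neg, not_false_eq_true]
          rw [← this]
          omega
        · rw [if_neg hv2] at hv
          by_cases hv3 : (v2 : ℕ) = t.1 / k + 1
          · rw [if_pos hv3] at hv
            have ha : 0 < t.1 % k := by omega
            refine ⟨true, ?_⟩
            have : v2 = ⟨t.1 / k + 1, by have := div_lt hk t ha; omega⟩ := Fin.ext hv3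
            subst hv1
            rw [dif_pos ⟨rfl, ha⟩, ← this]
            omega
          · rw [if_neg hv3] at hv
            omega
      · rw [if_neg hv1] at hv
        omega
    choose b hb using h1
    exact ⟨b, hb⟩
  choose ch hch using hchoice
  let Φ : {τ : Fin (2 * k) × Fin (P + 1) → Fin q // ∀ t, ∃ v, (τ v : ℕ) < dm k P hk t v} →
      (Σ c : Fin (k * P + 1) → Bool, {τ : Fin (2 * k) × Fin (P + 1) → Fin q //
        ∀ t, (τ (opt c t) : ℕ) < k}) :=
    fun τ => ⟨ch τ, ⟨τ.1, hch τ⟩⟩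
  have hΦ : Function.Injective Φ := by
    intro τ τ' h
    apply Subtype.ext
    have h2 : (Φ τ).2.1 = (Φ τ').2.1 := by rw [h]
    exact h2
  have h3 := Nat.card_le_card_of_injective Φ hΦ
  refine le_trans h3 ?_
  rw [Nat.card_sigma]
  have h4 : ∀ c : Fin (k * P + 1) → Bool, Nat.card {τ : Fin (2 * k) × Fin (P + 1) → Fin q //
        ∀ t, (τ (opt c t) : ℕ) < k} ≤
        k ^ (k * P + 1) * q ^ (2 * k * (P + 1) - (k * P + 1)) := by
    intro c
    have := card_box (opt c) (hinj c) k q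
    simpa using this
  refine le_trans (Finset.sum_le_sum (fun c _ => h4 c)) ?_
  rw [Finset.sum_const, Finset.card_univ, Fintype.card_fun, Fintype.card_bool, Fintype.card_fin,
    smul_eq_mul, mul_pow 2 k, ← mul_assoc]

/-- The number of solutions of a diagonal equation in `2k` variables. -/
theorem card_zset {F : Type*} [Field F] [Fintype F] {k P : ℕ} (hk : 0 < k)
    (hch : ∀ a, a ≤ k → ((k.choose a : ℕ) : F) ≠ 0)
    (c : Fin (2 * k) → F) (hc : ∀ i, c i ≠ 0) (m : F[X]) :
    Nat.card (zset k P c m) ≤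
      (2 * k) ^ (k * P + 1) * Fintype.card F ^ (2 * k * (P + 1) - (k * P + 1)) :=
  le_trans (footprint (zset k P c m) (wv k P) (wv_pos hk) (dm k P hk)
    (fun t => dm_mem_span hk hch c hc m t)) (card_std hk _)

end Pool.Agent.H598.FQ
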