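import Pool.Agent.H598.FQ.Weyl

/-!
# Divisor bounds and the count in Weyl's inequality
-/

namespace Pool.Agent.H598.FQ

open Finset Polynomial

variable {F : Type*} [Field F] [Fintype F]

/-- The divisors of a polynomial. -/
def Dv (b : F[X]) : Set F[X] := {v | v ∣ b}

/-- The number of divisors of a non-zero polynomial `b` is at most `q * 2 ^ deg b`. -/
lemma card_Dv (b : F[X]) (hb : b ≠ 0) :
    (Dv b).Finite ∧ (Dv b).ncard ≤ Fintype.card F * 2 ^ b.natDegree := by
  induction b using WfDvdMonoid.induction_on_irreducible with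
  | zero => exact absurd rfl hb
  | unit u hu =>
    have hsub : Dv u ⊆ (fun c : F => (C c : F[X])) '' Set.univ := by
      intro v hv
      have hvu : IsUnit v := isUnit_of_dvd_unit hv hu
      obtain ⟨c, _, rfl⟩ := Polynomial.isUnit_iff.1 hvu
      exact ⟨c, Set.mem_univ _, rfl⟩
    have hfin : ((fun c : F => (C c : F[X])) '' Set.univ).Finite :=
      (Set.toFinite (Set.univ : Set F)).image _
    refine ⟨hfin.subset hsub, ?_⟩
    have h1 := Set.ncard_le_ncard hsub hfin
    have h2 := Set.ncard_image_le (f := fun c : F => (C c : F[X])) (Set.toFinite (Set.univ : Set F))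
    rw [Set.ncard_univ, Nat.card_eq_fintype_card] at h2
    have h3 : 1 ≤ 2 ^ u.natDegree := Nat.one_le_two_pow
    calc (Dv u).ncard ≤ Fintype.card F := le_trans h1 h2
      _ = Fintype.card F * 1 := (mul_one _).symm
      _ ≤ _ := Nat.mul_le_mul_left _ h3
  | mul a i ha hi ih =>
    obtain ⟨hfin, hcard⟩ := ih ha
    have hsub : Dv (i * a) ⊆ Dv a ∪ (fun v => i * v) '' Dv a := by
      intro v hv
      by_cases hiv : i ∣ v
      · obtain ⟨w, rfl⟩ := hiv
        right
        refine ⟨w, ?_, rfl⟩
        exact (mul_dvd_mul_iff_left hi.ne_zero).1 hv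
      · left
        have hcop : IsCoprime i v := (EuclideanDomain.dvd_or_coprime i v hi).resolve_left hiv
        exact hcop.symm.dvd_of_dvd_mul_left hv
    have hfin2 : (Dv a ∪ (fun v => i * v) '' Dv a).Finite := hfin.union (hfin.image _)
    refine ⟨hfin2.subset hsub, ?_⟩
    have h1 := Set.ncard_le_ncard hsub hfin2
    have h2 := Set.ncard_union_le (Dv a) ((fun v => i * v) '' Dv a)
    have h3 := Set.ncard_image_le (f := fun v => i * v) hfin
    have h4 : (i * a).natDegree = i.natDegree + a.natDegree := natDegree_mul hi.ne_zero ha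
    have h5 : 1 ≤ i.natDegree := by
      have := hi.natDegree_pos
      omega
    have h6 : 2 ^ (a.natDegree + 1) ≤ 2 ^ (i * a).natDegree :=
      Nat.pow_le_pow_right (by norm_num) (by omega)
    calc (Dv (i * a)).ncard ≤ 2 * (Dv a).ncard := by omega
      _ ≤ 2 * (Fintype.card F * 2 ^ a.natDegree) := Nat.mul_le_mul_left _ hcard
      _ = Fintype.card F * 2 ^ (a.natDegree + 1) := by ring
      _ ≤ _ := Nat.mul_le_mul_left _ h6

open Classical in
/-- `cnt` as a count of tuples. -/
lemma cnt_eq (L : F[X] →ₗ[F] F) (n : ℕ) : ∀ (j : ℕ) (a : F[X]),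
    cnt L n j a = Nat.card {h : Fin j → degreeLT F n //
      ∀ x : degreeLT F n, L (a * (∏ i, (h i : F[X])) * x) = 0}
  | 0, a => by
      unfold cnt
      rw [Nat.card_eq_fintype_card, Fintype.card_subtype]
      by_cases h : ∀ x : degreeLT F n, L (a * x) = 0
      · rw [if_pos h]
        symm
        rw [Finset.card_eq_one]
        refine ⟨Fin.elim0, ?_⟩
        ext t
        simp only [Finset.mem_filter, Finset.mem_univ, true_and, Finset.mem_singleton]
        constructor
        · intro _; exact Subsingleton.elim _ _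
        · intro _ x; simpa using h x
      · rw [if_neg h]
        symm
        rw [Finset.card_eq_zero, Finset.filter_eq_empty_iff]
        intro t _ ht
        apply h
        intro x
        simpa using ht x
  | (j + 1), a => by
      rw [cnt]
      have h1 : ∀ v : degreeLT F n, cnt L n j (a * v)
          = Nat.card {h : Fin j → degreeLT F n //
            ∀ x : degreeLT F n, L (a * v * (∏ i, (h i : F[X])) * x) = 0} :=
        fun v => cnt_eq L n j (a * v)
      rw [Finset.sum_congr rfl (fun v _ => h1 v), ← Nat.card_sigma]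
      apply Nat.card_congr
      refine ⟨fun s => ⟨Fin.cons s.1 s.2.1, ?_⟩, fun h => ⟨h.1 0, ⟨Fin.tail h.1, ?_⟩⟩, ?_, ?_⟩
      · intro x
        rw [Fin.prod_univ_succ]
        simp only [Fin.cons_zero, Fin.cons_succ]
        rw [← mul_assoc]
        exact s.2.2 x
      · intro x
        have := h.2 x
        rw [Fin.prod_univ_succ, ← mul_assoc] at this
        exact this
      · rintro ⟨v, t, ht⟩
        rfl
      · rintro ⟨h, hh⟩
        apply Subtype.ext
        exact Fin.cons_self_tail h

/-- The number of tuples with vanishing product. -/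
lemma card_prod_zero (n J : ℕ) :
    Nat.card {h : Fin (J + 1) → degreeLT F n // ∏ i, (h i : F[X]) = 0} ≤
      (J + 1) * (Fintype.card F ^ n) ^ J := by
  classical
  have h1 : ∀ h : {h : Fin (J + 1) → degreeLT F n // ∏ i, (h i : F[X]) = 0},
      ∃ i, h.1 i = 0 := by
    intro h
    obtain ⟨i, _, hi⟩ := Finset.prod_eq_zero_iff.1 h.2
    exact ⟨i, by simpa using hi⟩
  choose z hz using h1
  let Φ : {h : Fin (J + 1) → degreeLT F n // ∏ i, (h i : F[X]) = 0} →
      Fin (J + 1) × (Fin J → degreeLT F n) :=
    fun h => (z h, fun i => h.1 ((z h).succAbove i))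
  have hΦ : Function.Injective Φ := by
    intro h h' hh
    have e1 : z h = z h' := congrArg Prod.fst hh
    have e2 : (fun i => h.1 ((z h).succAbove i)) = fun i => h'.1 ((z h').succAbove i) :=
      congrArg Prod.snd hh
    apply Subtype.ext
    funext i
    by_cases hi : i = z h
    · rw [hi, hz h, e1, hz h']
    · obtain ⟨l, rfl⟩ := Fin.exists_succAbove_eq hi
      have := congrFun e2 l
      rw [← e1] at this
      exact this
  have h2 := Nat.card_le_card_of_injective Φ hΦ
  rw [Nat.card_prod, Nat.card_fun] at h2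
  simpa [card_V, Nat.card_eq_fintype_card] using h2

/-- The number of tuples with a given non-zero product. -/
lemma card_prod_eq (n J : ℕ) (b : F[X]) (hb : b ≠ 0) :
    Nat.card {h : Fin (J + 1) → degreeLT F n // ∏ i, (h i : F[X]) = b} ≤
      (Fintype.card F * 2 ^ b.natDegree) ^ J := by
  classical
  obtain ⟨hfin, hcard⟩ := card_Dv b hb
  have := hfin.to_subtype
  let Φ : {h : Fin (J + 1) → degreeLT F n // ∏ i, (h i : F[X]) = b} → (Fin J → Dv b) :=
    fun h i => ⟨(h.1 i.succ : F[X]), by
      have : ((h.1 i.succ : degreeLT F n) : F[X]) ∣ ∏ i, (h.1 i : F[X]) :=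
        Finset.dvd_prod_of_mem (fun i => (h.1 i : F[X])) (Finset.mem_univ _)
      rw [h.2] at this
      exact this⟩
  have hΦ : Function.Injective Φ := by
    intro h h' hh
    have e1 : ∀ i : Fin J, (h.1 i.succ : F[X]) = (h'.1 i.succ : F[X]) := by
      intro i
      have := congrFun hh i
      exact congrArg (fun v : Dv b => (v : F[X])) this
    have e2 : (h.1 0 : F[X]) * ∏ i : Fin J, (h.1 i.succ : F[X]) = b := by
      rw [← Fin.prod_univ_succ (fun i => (h.1 i : F[X]))]; exact h.2
    have e3 : (h'.1 0 : F[X]) * ∏ i : Fin J, (h.1 i.succ : F[X]) = b := by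
      rw [Finset.prod_congr rfl (fun i _ => e1 i),
        ← Fin.prod_univ_succ (fun i => (h'.1 i : F[X]))]
      exact h'.2
    have e4 : ∏ i : Fin J, (h.1 i.succ : F[X]) ≠ 0 := by
      intro h0
      rw [h0, mul_zero] at e2
      exact hb e2.symm
    have e5 : (h.1 0 : F[X]) = (h'.1 0 : F[X]) := mul_right_cancel₀ e4 (e2.trans e3.symm)
    apply Subtype.ext
    funext i
    apply Subtype.ext
    refine Fin.cases e5 (fun i => e1 i) i
  have h2 := Nat.card_le_card_of_injective Φ hΦ
  rw [Nat.card_fun, Nat.card_eq_fintype_card (α := Fin J), Fintype.card_fin,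
    Nat.card_coe_set_eq] at h2
  refine le_trans h2 ?_
  exact Nat.pow_le_pow_left hcard J

end Pool.Agent.H598.FQ
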