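import Pool.Agent.H598.FQ.Level

/-!
# The number of representations as a sum of `2k+1` `k`-th powers
-/

namespace Pool.Agent.H598.FQ

open Finset Polynomial
open scoped Classical

/-- The numerical condition on the size of the field. -/
def Big (q k : ℕ) : Prop :=
  8 ≤ q ∧ ∀ d, 1 ≤ d → wc k (d - 1) * ((2 * k) ^ (k * d + 1) * 16 ^ d) ^ (2 ^ (k - 1)) ≤ q ^ d

lemma aux_two_mul_le (t : ℕ) (ht : 1 ≤ t) : 2 * t ≤ 2 ^ t := by
  induction t, ht using Nat.le_induction with
  | base => norm_num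
  | succ n hn ih =>
    rw [pow_succ]
    have : 1 ≤ 2 ^ n := Nat.one_le_two_pow
    omega

lemma aux_quad (t : ℕ) (ht : 1 ≤ t) : t * (t - 1) ≤ 2 ^ t := by
  induction t, ht using Nat.le_induction with
  | base => norm_num
  | succ n hn ih =>
    have h1 := aux_two_mul_le n hn
    have h2 : (n + 1) * (n + 1 - 1) = n * (n - 1) + 2 * n := by
      obtain ⟨e, rfl⟩ : ∃ e, n = e + 1 := ⟨n - 1, by omega⟩
      simp only [Nat.add_sub_cancel]
      ring
    rw [h2, pow_succ]
    omega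

lemma big_of_le {q k : ℕ} (hk : 2 ≤ k) (hq : (8 * k) ^ (k * 2 ^ k) ≤ q) : Big q k := by
  have hpos : 0 < 2 ^ (k - 1) := by positivity
  constructor
  · have h1 : 8 * k ≤ (8 * k) ^ (k * 2 ^ k) :=
      Nat.le_self_pow (by positivity) _
    omega
  · intro d hd
    set E := 2 ^ (k - 1) with hE
    have h2k : 2 ^ k = 2 * E := by
      rw [hE, ← pow_succ']
      congr 1
      omega
    have h1 : ((8 * k) ^ (2 * k * d)) ^ E ≤ q ^ d := by
      calc ((8 * k) ^ (2 * k * d)) ^ E = ((8 * k) ^ (k * 2 ^ k)) ^ d := by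
            rw [← pow_mul, ← pow_mul, h2k]
            congr 1
            ring
        _ ≤ q ^ d := Nat.pow_le_pow_left hq d
    have h2 : wc k (d - 1) ≤ (k * 2 ^ (d - 1)) ^ E := by
      unfold wc
      have h3 : (k - 1) * (k - 2) ≤ E := by
        have := aux_quad (k - 1) (by omega)
        have e : k - 1 - 1 = k - 2 := by omega
        rwa [e] at this
      have h4 : 2 ^ ((k - 1) * (k - 2) * (d - 1)) ≤ (2 ^ (d - 1)) ^ E := by
        rw [← pow_mul]
        apply Nat.pow_le_pow_right (by norm_num)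
        rw [mul_comm (d - 1) E]
        exact Nat.mul_le_mul_right _ h3
      have h5 : 1 ≤ (2 ^ (d - 1)) ^ E := Nat.one_le_pow _ _ (by positivity)
      calc (k - 1) + 2 ^ ((k - 1) * (k - 2) * (d - 1))
          ≤ (k - 1) * (2 ^ (d - 1)) ^ E + 1 * (2 ^ (d - 1)) ^ E := by
            have : k - 1 ≤ (k - 1) * (2 ^ (d - 1)) ^ E := Nat.le_mul_of_pos_right _ h5
            omega
        _ = k * (2 ^ (d - 1)) ^ E := by
            rw [← add_mul]; congr 1; omega
        _ ≤ k ^ E * (2 ^ (d - 1)) ^ E := by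
            apply Nat.mul_le_mul_right
            exact Nat.le_self_pow hpos.ne' _
        _ = (k * 2 ^ (d - 1)) ^ E := by rw [mul_pow]
    calc wc k (d - 1) * ((2 * k) ^ (k * d + 1) * 16 ^ d) ^ E
        ≤ (k * 2 ^ (d - 1)) ^ E * ((2 * k) ^ (k * d + 1) * 16 ^ d) ^ E :=
          Nat.mul_le_mul_right _ h2
      _ = ((k * 2 ^ (d - 1)) * ((2 * k) ^ (k * d + 1) * 16 ^ d)) ^ E := by rw [← mul_pow]
      _ ≤ ((8 * k) ^ (2 * k * d)) ^ E := by
          apply Nat.pow_le_pow_left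
          have e1 : (8 * k) ^ (2 * k * d) = (2 * k) ^ (k * d) * (2 * k) ^ (k * d) * 16 ^ (k * d)
              := by
            have : 8 * k = (2 * k) * 4 := by ring
            rw [this, mul_pow, ← pow_add, show (16 : ℕ) = 4 ^ 2 by norm_num, ← pow_mul]
            congr 2 <;> ring
          have hkd : 2 ≤ k * d := le_trans hk (Nat.le_mul_of_pos_right _ hd)
          have e2 : k * (2 * k) ≤ (2 * k) ^ (k * d) := by
            calc k * (2 * k) ≤ (2 * k) ^ 2 := by nlinarith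
              _ ≤ (2 * k) ^ (k * d) := Nat.pow_le_pow_right (by omega) hkd
          have e3 : 2 ^ (d - 1) * 16 ^ d ≤ 16 ^ (k * d) := by
            calc 2 ^ (d - 1) * 16 ^ d ≤ 16 ^ d * 16 ^ d := by
                  apply Nat.mul_le_mul_right
                  calc 2 ^ (d - 1) ≤ 2 ^ d := Nat.pow_le_pow_right (by norm_num) (by omega)
                    _ ≤ 16 ^ d := Nat.pow_le_pow_left (by norm_num) d
              _ = 16 ^ (2 * d) := by rw [← pow_add]; congr 1; ring
              _ ≤ 16 ^ (k * d) := Nat.pow_le_pow_right (by norm_num)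
                  (Nat.mul_le_mul_right _ hk)
          calc (k * 2 ^ (d - 1)) * ((2 * k) ^ (k * d + 1) * 16 ^ d)
              = (2 * k) ^ (k * d) * (k * (2 * k)) * (2 ^ (d - 1) * 16 ^ d) := by ring
            _ ≤ (2 * k) ^ (k * d) * (2 * k) ^ (k * d) * 16 ^ (k * d) :=
                Nat.mul_le_mul (Nat.mul_le_mul_left _ e2) e3
            _ = _ := e1.symm
      _ ≤ q ^ d := h1

variable {F : Type*} [Field F] [Fintype F]

section
variable {ψ : AddChar F ℂ} (hψ : ψ ≠ 1) {k : ℕ} (hk : 2 ≤ k)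
  (hch : ∀ i : ℕ, 1 ≤ i → i ≤ k → ((i : ℕ) : F) ≠ 0)
  (hbig : Big (Fintype.card F) k)

include hch in
omit [Fintype F] in
lemma choose_ne (a : ℕ) (ha : a ≤ k) : ((k.choose a : ℕ) : F) ≠ 0 := by
  intro h
  have h1 : ((k.factorial : ℕ) : F) = 0 := by
    rw [← Nat.choose_mul_factorial_mul_factorial ha]
    push_cast
    rw [h]
    ring
  have h2 : ∀ n : ℕ, n ≤ k → ((n.factorial : ℕ) : F) ≠ 0 := by
    intro n
    induction n with
    | zero => intro _; simp
    | succ n ih =>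
      intro hn
      rw [Nat.factorial_succ]
      push_cast
      apply mul_ne_zero
      · have := hch (n + 1) (by omega) hn
        exact_mod_cast this
      · exact ih (by omega)
  exact h2 k le_rfl h1

/-- The constant by which the exponential sums are smaller than trivial. -/
noncomputable def Ac (k d : ℕ) : ℝ := (2 * k : ℝ) ^ (k * d + 1) * 16 ^ d

include hψ hk hch hbig in
lemma sup_bound {d : ℕ} (hd : 1 ≤ d) {L : F[X] →ₗ[F] F} (hL : Mi L k (d - 1)) :
    ‖Cs ψ L k d‖ * Ac k d ≤ (Fintype.card F : ℝ) ^ d := by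
  have h1 := minor_bound hψ hk (fun i hi hi' => hch i (by omega) hi') L hL
  have e : d - 1 + 1 = d := by omega
  rw [e] at h1
  set q : ℝ := (Fintype.card F : ℝ) with hq
  have hq0 : 0 < q := by rw [hq]; exact_mod_cast Fintype.card_pos
  set E := 2 ^ (k - 1) with hE
  have hE0 : E ≠ 0 := by positivity
  have hA0 : 0 < Ac k d := by
    unfold Ac
    have : (0 : ℝ) < k := by exact_mod_cast (show 0 < k by omega)
    positivity
  have h2 : (wc k (d - 1) : ℝ) * (Ac k d) ^ E ≤ q ^ d := by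
    have := hbig.2 d hd
    unfold Ac
    rw [hq]
    exact_mod_cast this
  have hCs : ‖∑ x : degreeLT F d, ψ (L ((x : F[X]) ^ k))‖ = ‖Cs ψ L k d‖ := rfl
  rw [hCs] at h1
  have h3 : (‖Cs ψ L k d‖ * Ac k d) ^ E * q ^ d ≤ (q ^ d) ^ E * q ^ d := by
    calc (‖Cs ψ L k d‖ * Ac k d) ^ E * q ^ d
        = (‖Cs ψ L k d‖ ^ E * q ^ d) * (Ac k d) ^ E := by rw [mul_pow]; ring
      _ ≤ ((q ^ d) ^ E * (wc k (d - 1) : ℝ)) * (Ac k d) ^ E :=
          mul_le_mul_of_nonneg_right h1 (by positivity)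
      _ = (q ^ d) ^ E * ((wc k (d - 1) : ℝ) * (Ac k d) ^ E) := by ring
      _ ≤ (q ^ d) ^ E * q ^ d := mul_le_mul_of_nonneg_left h2 (by positivity)
  have h4 : (‖Cs ψ L k d‖ * Ac k d) ^ E ≤ (q ^ d) ^ E :=
    le_of_mul_le_mul_right h3 (by positivity)
  exact le_of_pow_le_pow_left₀ hE0 (by positivity) h4

omit [Field F] in
lemma JB_mul (k d : ℕ) :
    (Fintype.card F : ℝ) ^ (k * d + 1) * (JB F k d : ℝ)
      = (2 * k : ℝ) ^ (k * d + 1) * (Fintype.card F : ℝ) ^ (2 * k * (d + 1)) ∨ k = 0 := by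
  rcases Nat.eq_zero_or_pos k with h | h
  · right; exact h
  · left
    unfold JB
    push_cast
    have h1 : k * d + 1 ≤ 2 * k * (d + 1) := by nlinarith
    have h2 : (Fintype.card F : ℝ) ^ (2 * k * (d + 1))
        = (Fintype.card F : ℝ) ^ (k * d + 1)
          * (Fintype.card F : ℝ) ^ (2 * k * (d + 1) - (k * d + 1)) := by
      rw [← pow_add]; congr 1; omega
    rw [h2]; ring

include hψ hk hch hbig in
/-- The contribution of level `d ≥ 1`. -/
lemma level_bound {P d : ℕ} (hd : 1 ≤ d) (hdP : d ≤ P) {m : F[X]}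
    (hm : m ∈ degreeLT F (k * P + 1)) :
    ‖∑ α ∈ Dd F k P d, Ph ψ k P m α‖
      ≤ ((Xd k P ((k - 1) * P + d + 1) m).card : ℝ) * (Fintype.card F : ℝ) ^ (P - d) / 16 ^ d := by
  set q : ℝ := (Fintype.card F : ℝ) with hq
  have hq0 : 0 < q := by rw [hq]; exact_mod_cast Fintype.card_pos
  have hk0 : (0 : ℝ) < 2 * k := by
    have : (0 : ℝ) < k := by exact_mod_cast (show 0 < k by omega)
    positivity
  have hA0 : 0 < Ac k d := by unfold Ac; positivity
  set N : ℝ := ((Xd k P ((k - 1) * P + d + 1) m).card : ℝ) with hN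
  have hN0 : 0 ≤ N := by positivity
  rw [sum_Dd_avg hψ hm]
  refine le_trans (norm_sum_le _ _) ?_
  have h1 : ∀ α ∈ Dd F k P d,
      ‖∑ x ∈ Xd k P ((k - 1) * P + d + 1) m, ψ (lin α (Er k P m x))‖
      ≤ N * (1 / Ac k d) * (‖Cs ψ (lin α) k d‖ ^ (2 * k) / (q ^ d) ^ (2 * k)) := by
    intro α hα
    rw [Dd, Finset.mem_filter] at hα
    refine le_trans (inner_bound (by omega) hdP hα.2 m) ?_
    rw [mul_assoc]
    apply mul_le_mul_of_nonneg_left _ hN0
    rw [pow_succ, mul_comm, div_pow]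
    apply mul_le_mul_of_nonneg_right _ (by positivity)
    rw [div_le_div_iff₀ (by positivity) hA0, one_mul]
    exact sup_bound hψ hk hch hbig hd (isd_minor hk hd hα.2)
  refine le_trans (Finset.sum_le_sum h1) ?_
  rw [← Finset.mul_sum, ← Finset.sum_div]
  have h2 := mean_Dd hψ hk hd hdP (choose_ne hch) (P := P)
  rw [← hq] at h2
  have h3 : q ^ (k * d + 1) * (JB F k d : ℝ) = (2 * k : ℝ) ^ (k * d + 1) * q ^ (2 * k * (d + 1))
    := (JB_mul (F := F) k d).resolve_right (by omega)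
  rw [h3] at h2
  have h4 : ∑ α ∈ Dd F k P d, ‖Cs ψ (lin α) k d‖ ^ (2 * k)
      ≤ q ^ (P - d) * (2 * k : ℝ) ^ (k * d + 1) * (q ^ d) ^ (2 * k) := by
    have hq2 : 0 < q ^ (2 * k) := by positivity
    apply le_of_mul_le_mul_left _ hq2
    refine le_trans h2 (le_of_eq ?_)
    rw [← pow_mul]
    have : q ^ (2 * k * (d + 1)) = q ^ (2 * k) * q ^ (d * (2 * k)) := by
      rw [← pow_add]; congr 1; ring
    rw [this]; ring
  calc N * (1 / Ac k d) * ((∑ α ∈ Dd F k P d, ‖Cs ψ (lin α) k d‖ ^ (2 * k)) / (q ^ d) ^ (2 * k))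
      ≤ N * (1 / Ac k d) * ((q ^ (P - d) * (2 * k : ℝ) ^ (k * d + 1) * (q ^ d) ^ (2 * k))
        / (q ^ d) ^ (2 * k)) := by
        apply mul_le_mul_of_nonneg_left _ (by positivity)
        exact div_le_div_of_nonneg_right h4 (by positivity)
    _ = N * q ^ (P - d) / 16 ^ d := by
        unfold Ac
        have : (q ^ d) ^ (2 * k) ≠ 0 := by positivity
        have h5 : (2 * k : ℝ) ^ (k * d + 1) ≠ 0 := by positivity
        field_simp

include hψ hk hch hbig in
/-- The contribution of the minor functionals. -/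
lemma minor_total {P : ℕ} (m : F[X]) :
    ‖∑ α ∈ Ms F k P, Ph ψ k P m α‖
      ≤ 2 * ((Fintype.card F : ℝ) ^ (P + 1)) ^ (2 * k + 1) / 16 ^ (P + 1) := by
  set q : ℝ := (Fintype.card F : ℝ) with hq
  have hq0 : 0 < q := by rw [hq]; exact_mod_cast Fintype.card_pos
  have hk1 : (1 : ℝ) ≤ 2 * k := by
    have : (1 : ℝ) ≤ k := by exact_mod_cast (show 1 ≤ k by omega)
    linarith
  have hk0 : (0 : ℝ) < 2 * k := by linarith
  have hA0 : 0 < Ac k (P + 1) := by unfold Ac; positivity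
  have h1 := minor_sum hψ hk (choose_ne hch) m (P := P) (M := q ^ (P + 1) / Ac k (P + 1)) (by
    intro α hα
    rw [Ms, Finset.mem_filter] at hα
    rw [le_div_iff₀ hA0]
    exact sup_bound hψ hk hch hbig (by omega) (by
      have : P + 1 - 1 = P := by omega
      rw [this]; exact hα.2)) (by positivity)
  refine le_trans h1 ?_
  rw [← hq]
  have h3 : q ^ (k * P + 1) * (JB F k P : ℝ) = (2 * k : ℝ) ^ (k * P + 1) * q ^ (2 * k * (P + 1))
    := (JB_mul (F := F) k P).resolve_right (by omega)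
  rw [h3]
  have h4 : (2 * k : ℝ) ^ (k * P + 1) ≤ (2 * k : ℝ) ^ (k * (P + 1) + 1) := by
    apply pow_le_pow_right₀ hk1
    have : k * P ≤ k * (P + 1) := Nat.mul_le_mul_left _ (by omega)
    omega
  have h5 : q ^ (P + 1) / Ac k (P + 1) * (2 * ((2 * k : ℝ) ^ (k * P + 1) * q ^ (2 * k * (P + 1))))
      = (2 * (q ^ (P + 1)) ^ (2 * k + 1) / 16 ^ (P + 1)) *
        ((2 * k : ℝ) ^ (k * P + 1) / (2 * k : ℝ) ^ (k * (P + 1) + 1)) := by
    unfold Ac
    have e : q ^ (2 * k * (P + 1)) = (q ^ (P + 1)) ^ (2 * k) := by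
      rw [← pow_mul]; congr 1; ring
    rw [e, pow_succ (q ^ (P + 1)) (2 * k)]
    have h6 : (2 * k : ℝ) ^ (k * (P + 1) + 1) ≠ 0 := by positivity
    field_simp
  rw [h5]
  have h7 : (2 * k : ℝ) ^ (k * P + 1) / (2 * k : ℝ) ^ (k * (P + 1) + 1) ≤ 1 := by
    rw [div_le_one (by positivity)]; exact h4
  calc _ ≤ (2 * (q ^ (P + 1)) ^ (2 * k + 1) / 16 ^ (P + 1)) * 1 :=
        mul_le_mul_of_nonneg_left h7 (by positivity)
    _ = _ := mul_one _

/-- The number of representations with first entry of degree exactly `P`. -/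
noncomputable def Rn (k P : ℕ) (m : F[X]) : ℕ :=
  ((Xs F k P).filter (fun x => Er k P m x = 0)).card

include hψ hk hch hbig in
/-- The fundamental inequality. -/
lemma fundamental {P : ℕ} {m : F[X]} (hm : m ∈ degreeLT F (k * P + 1)) :
    (Fintype.card F : ℝ) ^ P * ((Xd k P ((k - 1) * P + 1) m).card : ℝ)
      ≤ (Fintype.card F : ℝ) ^ (k * P + 1) * (Rn k P m : ℝ)
        + ∑ d ∈ Finset.range P, ((Xd k P ((k - 1) * P + (d + 1) + 1) m).card : ℝ) *
          (Fintype.card F : ℝ) ^ (P - (d + 1)) / 16 ^ (d + 1)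
        + 2 * ((Fintype.card F : ℝ) ^ (P + 1)) ^ (2 * k + 1) / 16 ^ (P + 1) := by
  have h1 := sum_Ph hψ hm
  rw [sum_split, Finset.sum_range_succ', sum_Dd_zero hψ (by omega) hm] at h1
  set S1 := ∑ d ∈ Finset.range P, ∑ α ∈ Dd F k P (d + 1), Ph ψ k P m α with hS1
  set S2 := ∑ α ∈ Ms F k P, Ph ψ k P m α with hS2
  have h2 : ‖S1‖ ≤ ∑ d ∈ Finset.range P, ((Xd k P ((k - 1) * P + (d + 1) + 1) m).card : ℝ) *
          (Fintype.card F : ℝ) ^ (P - (d + 1)) / 16 ^ (d + 1) := by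
    refine le_trans (norm_sum_le _ _) ?_
    apply Finset.sum_le_sum
    intro d hd
    have := Finset.mem_range.1 hd
    exact level_bound hψ hk hch hbig (by omega) (by omega) hm
  have h3 := minor_total hψ hk hch hbig (P := P) m
  rw [← hS2] at h3
  have h4 : (((Fintype.card F : ℝ) ^ P * ((Xd k P ((k - 1) * P + 1) m).card : ℝ) : ℝ) : ℂ)
      = (((Fintype.card F : ℝ) ^ (k * P + 1) * (Rn k P m : ℝ) : ℝ) : ℂ) - S1 - S2 := by
    push_cast
    unfold Rn
    rw [← h1]
    ring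
  have h5 : (Fintype.card F : ℝ) ^ P * ((Xd k P ((k - 1) * P + 1) m).card : ℝ)
      = ‖(((Fintype.card F : ℝ) ^ P * ((Xd k P ((k - 1) * P + 1) m).card : ℝ) : ℝ) : ℂ)‖ := by
    rw [Complex.norm_real, Real.norm_of_nonneg (by positivity)]
  rw [h5, h4]
  refine le_trans (norm_sub_le _ _) ?_
  apply add_le_add _ h3
  refine le_trans (norm_sub_le _ _) ?_
  apply add_le_add _ h2
  rw [Complex.norm_real, Real.norm_of_nonneg (by positivity)]

end

end Pool.Agent.H598.FQ
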