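import Pool.Agent.H598.FQ.Final

/-!
# The number of representations as a sum of `2k+1` `k`-th powers, conclusion
-/

namespace Pool.Agent.H598.FQ

open Finset Polynomial
open scoped Classical

variable {F : Type*} [Field F] [Fintype F]

section
variable {ψ : AddChar F ℂ} (hψ : ψ ≠ 1) {k : ℕ} (hk : 2 ≤ k)
  (hch : ∀ i : ℕ, 1 ≤ i → i ≤ k → ((i : ℕ) : F) ≠ 0)
  (hbig : Big (Fintype.card F) k)

include hψ hk hch hbig in
/-- The case of constants. -/
lemma Rn_zero (m : F[X]) (hm : m ∈ degreeLT F (k * 0 + 1)) :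
    (3 / 4) * (Fintype.card F : ℝ) ^ (2 * k + 1) ≤ (Fintype.card F : ℝ) * (Rn k 0 m : ℝ) := by
  have h1 := fundamental hψ hk hch hbig hm
  set q : ℝ := (Fintype.card F : ℝ) with hq
  have hq8 : (8 : ℝ) ≤ q := by rw [hq]; exact_mod_cast hbig.1
  have hX : Xd k 0 ((k - 1) * 0 + 1) m = Xs F k 0 := by
    unfold Xd
    rw [Finset.filter_true_of_mem]
    intro x _
    have := Er_mem hm x
    simpa using this
  rw [hX] at h1
  have h2 := card_Xs_zero (F := F) k
  have h3 : q ^ (2 * k + 1) ≤ ((Xs F k 0).card : ℝ) + q ^ (2 * k) := by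
    rw [hq]; exact_mod_cast h2
  have h4 : q ^ (2 * k) ≤ q ^ (2 * k + 1) / 8 := by
    rw [pow_succ, le_div_iff₀ (by norm_num)]
    exact mul_le_mul_of_nonneg_left hq8 (by positivity)
  simp only [pow_zero, one_mul, Finset.range_zero, Finset.sum_empty, add_zero, mul_zero,
    zero_add, pow_one] at h1
  linarith

include hψ hk hch hbig in
/-- The lower bound for the number of representations. -/
theorem Rn_lower {P : ℕ} {m : F[X]} (hm : m ∈ degreeLT F (k * P + 1)) :
    (1 / 2) * ((Fintype.card F : ℝ) ^ (P + 1)) ^ (2 * k + 1)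
      ≤ (Fintype.card F : ℝ) ^ (k * P + 1) * (Rn k P m : ℝ) := by
  set q : ℝ := (Fintype.card F : ℝ) with hq
  have hq8 : (8 : ℝ) ≤ q := by rw [hq]; exact_mod_cast hbig.1
  have hq0 : 0 < q := by linarith
  rcases Nat.eq_zero_or_pos P with h0 | hpos
  · subst h0
    have h1 := Rn_zero hψ hk hch hbig m hm
    have h2 : 0 ≤ q ^ (2 * k + 1) := by positivity
    simp only [mul_zero, zero_add, pow_one]
    rw [← hq] at h1
    linarith
  · obtain ⟨p, rfl⟩ : ∃ p, P = p + 1 := ⟨P - 1, by omega⟩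
    have hkF : (k : F) ≠ 0 := hch k (by omega) le_rfl
    have h1 := fundamental hψ hk hch hbig hm
    rw [← hq] at h1
    set N0 : ℝ := ((Xd k (p + 1) ((k - 1) * (p + 1) + 1) m).card : ℝ) with hN0
    set Q : ℝ := (q ^ (p + 1 + 1)) ^ (2 * k + 1) with hQ
    have hQ0 : 0 ≤ Q := by positivity
    have hN00 : 0 ≤ N0 := by positivity
    -- the main term is large
    have hmain : (3 / 4) * Q ≤ q ^ (p + 1) * N0 := by
      have e1 := card_Xd_level (show 1 ≤ k by omega) hkF m p (P := p + 1) (by omega)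
      have e2 := card_Xd_top hm
      have e3 : (k - 1) * (p + 1) + p + 1 = k * (p + 1) := by
        obtain ⟨k', rfl⟩ : ∃ k', k = k' + 1 := ⟨k - 1, by omega⟩
        simp only [Nat.add_sub_cancel]
        ring
      rw [e3] at e1
      rw [e1] at e2
      have e4 := Rn_zero hψ hk hch hbig (C (m.coeff (k * (p + 1)))) (by
        rw [mem_V_succ_iff, natDegree_C]; omega)
      rw [← hq] at e4
      have e5 : (Rn k 0 (C (m.coeff (k * (p + 1)))) : ℝ) * (q ^ (p + 1)) ^ (2 * k + 1)
          ≤ N0 * q ^ p := by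
        unfold Rn
        rw [hN0, hq]
        exact_mod_cast e2
      calc (3 / 4) * Q = ((3 / 4) * q ^ (2 * k + 1)) * (q ^ (p + 1)) ^ (2 * k + 1) := by
            rw [hQ, pow_succ q (p + 1), mul_pow]; ring
        _ ≤ (q * (Rn k 0 (C (m.coeff (k * (p + 1)))) : ℝ)) * (q ^ (p + 1)) ^ (2 * k + 1) :=
            mul_le_mul_of_nonneg_right e4 (by positivity)
        _ = q * ((Rn k 0 (C (m.coeff (k * (p + 1)))) : ℝ) * (q ^ (p + 1)) ^ (2 * k + 1)) := by
            ring
        _ ≤ q * (N0 * q ^ p) := mul_le_mul_of_nonneg_left e5 hq0.le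
        _ = q ^ (p + 1) * N0 := by ring
    -- the sum over the levels
    rw [Finset.sum_range_succ] at h1
    have hsum : ∑ d ∈ Finset.range p, ((Xd k (p + 1) ((k - 1) * (p + 1) + (d + 1) + 1) m).card : ℝ)
        * q ^ (p + 1 - (d + 1)) / 16 ^ (d + 1) ≤ (q ^ (p + 1) * N0) * (1 / 15) := by
      have e1 : ∀ d ∈ Finset.range p,
          ((Xd k (p + 1) ((k - 1) * (p + 1) + (d + 1) + 1) m).card : ℝ)
          * q ^ (p + 1 - (d + 1)) / 16 ^ (d + 1) = (q ^ (p + 1) * N0) * (1 / 16) ^ (d + 1) := by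
        intro d hd
        have hd' := Finset.mem_range.1 hd
        have e2 := card_Xd_level (show 1 ≤ k by omega) hkF m (d + 1) (P := p + 1) (by omega)
        have e3 : ((Xd k (p + 1) ((k - 1) * (p + 1) + (d + 1) + 1) m).card : ℝ)
            = N0 * q ^ (d + 1) := by
          rw [e2, hN0, hq]; push_cast; rfl
        rw [e3]
        have e4 : q ^ (p + 1) = q ^ (d + 1) * q ^ (p + 1 - (d + 1)) := by
          rw [← pow_add]; congr 1; omega
        rw [e4, one_div, inv_pow]
        field_simp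
      rw [Finset.sum_congr rfl e1, ← Finset.mul_sum]
      apply mul_le_mul_of_nonneg_left _ (by positivity)
      have e5 : ∑ d ∈ Finset.range p, ((1 : ℝ) / 16) ^ (d + 1)
          = (1 / 15) * (1 - (1 / 16) ^ p) := by
        induction p with
        | zero => simp
        | succ n ih =>
          clear h1 hmain
          have : ∀ n : ℕ, ∑ d ∈ Finset.range n, ((1 : ℝ) / 16) ^ (d + 1)
              = (1 / 15) * (1 - (1 / 16) ^ n) := by
            intro n
            induction n with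
            | zero => simp
            | succ n ih => rw [Finset.sum_range_succ, ih]; ring
          exact this _
      rw [e5]
      have e6 : (0 : ℝ) ≤ (1 / 16) ^ p := by positivity
      linarith
    have hlast : ((Xd k (p + 1) ((k - 1) * (p + 1) + (p + 1) + 1) m).card : ℝ)
        * q ^ (p + 1 - (p + 1)) / 16 ^ (p + 1) ≤ Q * (1 / 16) := by
      have e1 : ((Xd k (p + 1) ((k - 1) * (p + 1) + (p + 1) + 1) m).card : ℝ) ≤ Q := by
        have e2 : (Xd k (p + 1) ((k - 1) * (p + 1) + (p + 1) + 1) m).card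
            ≤ Fintype.card (Fin (2 * k + 1) → degreeLT F (p + 1 + 1)) := Finset.card_le_univ _
        rw [Fintype.card_fun, card_V, Fintype.card_fin] at e2
        rw [hQ, hq]
        exact_mod_cast e2
      have e3 : (16 : ℝ) ≤ 16 ^ (p + 1) := by
        calc (16 : ℝ) = 16 ^ 1 := (pow_one _).symm
          _ ≤ 16 ^ (p + 1) := pow_le_pow_right₀ (by norm_num) (by omega)
      rw [Nat.sub_self, pow_zero, mul_one, div_le_iff₀ (by positivity)]
      calc ((Xd k (p + 1) ((k - 1) * (p + 1) + (p + 1) + 1) m).card : ℝ) ≤ Q := e1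
        _ = Q * (1 / 16) * 16 := by ring
        _ ≤ Q * (1 / 16) * 16 ^ (p + 1) := mul_le_mul_of_nonneg_left e3 (by positivity)
    have hmin : 2 * Q / 16 ^ (p + 1 + 1) ≤ Q * (1 / 128) := by
      have e3 : (256 : ℝ) ≤ 16 ^ (p + 1 + 1) := by
        calc (256 : ℝ) = 16 ^ 2 := by norm_num
          _ ≤ 16 ^ (p + 1 + 1) := pow_le_pow_right₀ (by norm_num) (by omega)
      rw [div_le_iff₀ (by positivity)]
      calc 2 * Q = Q * (1 / 128) * 256 := by ring
        _ ≤ Q * (1 / 128) * 16 ^ (p + 1 + 1) := mul_le_mul_of_nonneg_left e3 (by positivity)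
    linarith

end

/-- The field is large and of large characteristic: every polynomial of degree at most `kP` has
many representations as a sum of `2k+1` `k`-th powers of polynomials of degree at most `P`. -/
theorem many_reps {k : ℕ} (hk : 2 ≤ k) (hch : ∀ i : ℕ, 1 ≤ i → i ≤ k → ((i : ℕ) : F) ≠ 0)
    (hq : (8 * k) ^ (k * 2 ^ k) ≤ Fintype.card F) (P : ℕ) (m : F[X]) (hm : m.natDegree ≤ k * P) :
    (1 / 2) * ((Fintype.card F : ℝ) ^ (P + 1)) ^ (2 * k + 1)
      ≤ (Fintype.card F : ℝ) ^ (k * P + 1) *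
        (Nat.card {x : Fin (2 * k + 1) → degreeLT F (P + 1) // ∑ i, (x i : F[X]) ^ k = m} : ℝ)
      := by
  obtain ⟨ψ, hψ⟩ : ∃ ψ : AddChar F ℂ, ψ ≠ 1 := by
    obtain ⟨ψ, hψ⟩ := (AddChar.exists_apply_ne_zero (α := F) (a := 1)).2 one_ne_zero
    exact ⟨ψ, fun h => hψ (by rw [h]; rfl)⟩
  refine le_trans (Rn_lower hψ hk hch (big_of_le hk hq) (mem_V_succ_iff.2 hm)) ?_
  apply mul_le_mul_of_nonneg_left _ (by positivity)
  rw [Nat.card_eq_fintype_card, Fintype.card_subtype]
  unfold Rn
  have : (Xs F k P).filter (fun x => Er k P m x = 0) ⊆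
      Finset.univ.filter (fun x : Fin (2 * k + 1) → degreeLT F (P + 1) =>
        ∑ i, (x i : F[X]) ^ k = m) := by
    intro x hx
    rw [Finset.mem_filter] at *
    refine ⟨Finset.mem_univ _, ?_⟩
    have := hx.2
    unfold Er at this
    exact sub_eq_zero.1 this
  exact_mod_cast Finset.card_le_card this

/-- Existence of a strict representation. -/
theorem strict_rep {k : ℕ} (hk : 2 ≤ k) (hch : ∀ i : ℕ, 1 ≤ i → i ≤ k → ((i : ℕ) : F) ≠ 0)
    (hq : (8 * k) ^ (k * 2 ^ k) ≤ Fintype.card F) (m : F[X]) :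
    ∃ x : Fin (2 * k + 1) → F[X], (∀ i, k * (x i).natDegree < m.natDegree + k) ∧
      ∑ i, x i ^ k = m := by
  set P := (m.natDegree + k - 1) / k with hP
  have h1 : m.natDegree ≤ k * P := by
    have := Nat.div_add_mod (m.natDegree + k - 1) k
    have h2 := Nat.mod_lt (m.natDegree + k - 1) (show 0 < k by omega)
    rw [← hP] at this
    omega
  have h2 : k * P < m.natDegree + k := by
    have := Nat.mul_div_le (m.natDegree + k - 1) k
    rw [← hP] at this
    omega
  have h3 := many_reps hk hch hq P m h1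
  have h4 : 0 < Nat.card {x : Fin (2 * k + 1) → degreeLT F (P + 1) //
      ∑ i, (x i : F[X]) ^ k = m} := by
    rw [Nat.pos_iff_ne_zero]
    intro h0
    rw [h0] at h3
    have hq0 : (0 : ℝ) < Fintype.card F := by exact_mod_cast Fintype.card_pos
    have : (0 : ℝ) < (1 / 2) * ((Fintype.card F : ℝ) ^ (P + 1)) ^ (2 * k + 1) := by positivity
    simp only [Nat.cast_zero, mul_zero] at h3
    linarith
  obtain ⟨⟨x, hx⟩⟩ := (Nat.card_pos_iff.1 h4).1
  refine ⟨fun i => (x i : F[X]), ?_, hx⟩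
  intro i
  have h5 := mem_V_succ_iff.1 (x i).2
  calc k * (x i : F[X]).natDegree ≤ k * P := Nat.mul_le_mul_left _ h5
    _ < m.natDegree + k := h2

end Pool.Agent.H598.FQ
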