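import Mathlib

/-!
# The footprint bound for point counts

If `Z` is a set of points of `K ^ σ` (`K` a finite field) on which each of certain monomials is a
linear combination of monomials of smaller weight, then the number of points of `Z` is at most the
number of exponent vectors (with entries less than the cardinality of `K`) that are not
divisible by any of these monomials.
-/

namespace Pool.Agent.H598.FQ

open Finset

variable {σ : Type*} [Fintype σ] {K : Type*} [Field K]

/-- The monomial with exponent vector `e`, as a function on a set `Z` of points. -/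
def mon (Z : Set (σ → K)) (e : σ → ℕ) : Z → K := fun z => ∏ v, z.1 v ^ e v

/-- The weight of an exponent vector. -/
def wt (w : σ → ℕ) (e : σ → ℕ) : ℕ := ∑ v, w v * e v

lemma mon_add (Z : Set (σ → K)) (e f : σ → ℕ) : mon Z (e + f) = mon Z e * mon Z f := by
  funext z
  simp [mon, pow_add, Finset.prod_mul_distrib]

lemma wt_add (w : σ → ℕ) (e f : σ → ℕ) : wt w (e + f) = wt w e + wt w f := by
  simp [wt, mul_add, Finset.sum_add_distrib]

lemma pow_reduce [Fintype K] (x : K) {e : ℕ} (he : Fintype.card K ≤ e) :
    x ^ (e - (Fintype.card K - 1)) = x ^ e := by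
  have h1 : 1 ≤ Fintype.card K := Fintype.card_pos
  obtain ⟨r, rfl⟩ := Nat.exists_eq_add_of_le he
  have : Fintype.card K + r - (Fintype.card K - 1) = r + 1 := by omega
  rw [this, pow_add x (Fintype.card K) r, FiniteField.pow_card, pow_succ, mul_comm]

theorem mon_mem_span [Fintype K] (Z : Set (σ → K)) (w : σ → ℕ) (hw : ∀ v, 0 < w v)
    {μ : Type*} (M : μ → σ → ℕ)
    (hM : ∀ m, mon Z (M m) ∈ Submodule.span K (mon Z '' {e | wt w e < wt w (M m)}))
    (e : σ → ℕ) :
    mon Z e ∈ Submodule.span K (Set.range (fun t : {t : σ → Fin (Fintype.card K) //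
      ∀ m, ∃ v, (t v : ℕ) < M m v} => mon Z (fun v => (t.1 v : ℕ)))) := by
  classical
  induction' hn : wt w e using Nat.strong_induction_on with n ih generalizing e
  have h1 : 1 < Fintype.card K := Fintype.one_lt_card
  by_cases hA : ∃ v, Fintype.card K ≤ e v
  · obtain ⟨v, hv⟩ := hA
    set e' : σ → ℕ := Function.update e v (e v - (Fintype.card K - 1)) with he'
    have hmon : mon Z e = mon Z e' := by
      funext z
      unfold mon
      apply Finset.prod_congr rfl
      intro u _
      by_cases huv : u = v
      · subst huv
        rw [he', Function.update_self, pow_reduce _ hv]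
      · rw [he', Function.update_of_ne huv]
    have hwt : wt w e' < wt w e := by
      unfold wt
      apply Finset.sum_lt_sum
      · intro u _
        by_cases huv : u = v
        · subst huv
          rw [he', Function.update_self]
          exact Nat.mul_le_mul_left _ (Nat.sub_le _ _)
        · rw [he', Function.update_of_ne huv]
      · refine ⟨v, Finset.mem_univ _, ?_⟩
        rw [he', Function.update_self]
        apply Nat.mul_lt_mul_of_pos_left _ (hw v)
        omega
    rw [hmon]
    exact ih (wt w e') (hn ▸ hwt) e' rfl
  · by_cases hB : ∃ m, ∀ v, M m v ≤ e v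
    · obtain ⟨m, hm⟩ := hB
      have hsplit : e = (fun v => e v - M m v) + M m := by
        funext v
        simp [Nat.sub_add_cancel (hm v)]
      set r : σ → ℕ := fun v => e v - M m v with hr
      have hmul : ∀ x ∈ Submodule.span K (mon Z '' {e | wt w e < wt w (M m)}),
          mon Z r * x ∈ Submodule.span K (Set.range (fun t : {t : σ → Fin (Fintype.card K) //
            ∀ m, ∃ v, (t v : ℕ) < M m v} => mon Z (fun v => (t.1 v : ℕ)))) := by
        intro x hx
        induction hx using Submodule.span_induction with
        | mem x hx =>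
          obtain ⟨e', he', rfl⟩ := hx
          rw [← mon_add]
          apply ih (wt w (r + e')) _ _ rfl
          rw [← hn, hsplit, wt_add, wt_add]
          have : wt w e' < wt w (M m) := he'
          omega
        | zero => rw [mul_zero]; exact Submodule.zero_mem _
        | add x y _ _ hx hy => rw [mul_add]; exact Submodule.add_mem _ hx hy
        | smul a x _ hx => rw [mul_smul_comm]; exact Submodule.smul_mem _ _ hx
      rw [hsplit, mon_add]
      exact hmul _ (hM m)
    · push Not at hA hB
      apply Submodule.subset_span
      refine ⟨⟨fun v => ⟨e v, hA v⟩, ?_⟩, rfl⟩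
      intro m
      exact hB m

/-- The footprint bound. -/
theorem footprint [Fintype K] (Z : Set (σ → K)) (w : σ → ℕ) (hw : ∀ v, 0 < w v)
    {μ : Type*} (M : μ → σ → ℕ)
    (hM : ∀ m, mon Z (M m) ∈ Submodule.span K (mon Z '' {e | wt w e < wt w (M m)})) :
    Nat.card Z ≤ Nat.card {t : σ → Fin (Fintype.card K) // ∀ m, ∃ v, (t v : ℕ) < M m v} := by
  classical
  have hfin : Finite Z := inferInstance
  let _ : Fintype Z := Fintype.ofFinite Z
  let _ : Fintype {t : σ → Fin (Fintype.card K) // ∀ m, ∃ v, (t v : ℕ) < M m v} :=
    Fintype.ofFinite _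
  have htop : Submodule.span K (Set.range (fun t : {t : σ → Fin (Fintype.card K) //
      ∀ m, ∃ v, (t v : ℕ) < M m v} => mon Z (fun v => (t.1 v : ℕ)))) = ⊤ := by
    rw [eq_top_iff]
    intro f _
    let F : (σ → K) → K := fun x => if h : x ∈ Z then f ⟨x, h⟩ else 0
    have hF : F ∈ (MvPolynomial.restrictDegree σ K (Fintype.card K - 1)).map
        (MvPolynomial.evalₗ K σ) := by
      rw [MvPolynomial.map_restrict_dom_evalₗ]; trivial
    obtain ⟨p, -, hp⟩ := hF
    have hf : f = ∑ d ∈ p.support, p.coeff d • mon Z (fun v => d v) := by
      funext z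
      have h1 : F z.1 = f z := by simp [F]
      have h2 : F z.1 = MvPolynomial.eval z.1 p := by rw [← hp]; rfl
      rw [← h1, h2, MvPolynomial.eval_eq', Finset.sum_apply]
      rfl
    rw [hf]
    apply Submodule.sum_mem
    intro d _
    apply Submodule.smul_mem
    exact mon_mem_span Z w hw M hM _
  have h3 := finrank_range_le_card (R := K) (fun t : {t : σ → Fin (Fintype.card K) //
      ∀ m, ∃ v, (t v : ℕ) < M m v} => mon Z (fun v => (t.1 v : ℕ)))
  rw [Set.finrank, htop, finrank_top, Module.finrank_fintype_fun_eq_card] at h3
  rw [Nat.card_eq_fintype_card, Nat.card_eq_fintype_card]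
  exact h3

end Pool.Agent.H598.FQ
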