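import Pool.Agent.H598.FQ.Major4

/-!
# Counting at infinity
-/

namespace Pool.Agent.H598.FQ

open Finset Polynomial
open scoped Classical

variable {F : Type*} [Field F] [Fintype F]

omit [Fintype F] in
/-- The leading change when a lower coefficient is modified. -/
lemma coeff_change {k P j : ℕ} (hk : 1 ≤ k) (hj : j < P) {x : F[X]} (hx : x.natDegree ≤ P)
    (c : F) :
    ((x + C c * X ^ j) ^ k - x ^ k).coeff (j + (k - 1) * P)
      = (k : F) * x.coeff P ^ (k - 1) * c := by
  obtain ⟨k', rfl⟩ : ∃ k', k = k' + 1 := ⟨k - 1, by omega⟩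
  have hy : (x + C c * X ^ j).natDegree ≤ P :=
    natDegree_add_le_of_degree_le hx (le_trans (natDegree_C_mul_X_pow_le c j) (by omega))
  have hyc : (x + C c * X ^ j).coeff P = x.coeff P := by
    rw [coeff_add, coeff_C_mul, coeff_X_pow, if_neg (by omega), mul_zero, add_zero]
  rw [← (Commute.all (x + C c * X ^ j) x).mul_geom_sum₂ (k' + 1)]
  have h1 : x + C c * X ^ j - x = C c * X ^ j := by ring
  rw [h1, mul_assoc, coeff_C_mul, coeff_X_pow_mul', if_pos (by omega)]
  have e1 : j + (k' + 1 - 1) * P - j = (k' + 1 - 1) * P := by omega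
  rw [e1, finsetSum_coeff]
  have h2 : ∀ i ∈ Finset.range (k' + 1),
      ((x + C c * X ^ j) ^ i * x ^ (k' + 1 - 1 - i)).coeff ((k' + 1 - 1) * P)
        = x.coeff P ^ (k' + 1 - 1) := by
    intro i hi
    have hi' : i ≤ k' := by have := Finset.mem_range.1 hi; omega
    have e2 : (k' + 1 - 1) * P = i * P + (k' + 1 - 1 - i) * P := by
      rw [← add_mul]; congr 1; omega
    rw [e2, coeff_mul_add_eq_of_natDegree_le
      (le_trans natDegree_pow_le (Nat.mul_le_mul_left _ hy))
      (le_trans natDegree_pow_le (Nat.mul_le_mul_left _ hx)),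
      coeff_pow_of_natDegree_le hy, coeff_pow_of_natDegree_le hx, hyc, ← pow_add]
    congr 1
    omega
  rw [Finset.sum_congr rfl h2, Finset.sum_const, Finset.card_range, nsmul_eq_mul]
  ring

/-- Modify one coefficient of the first entry. -/
noncomputable def tr {s P : ℕ} (j : ℕ) (hj : j ≤ P) (c : F)
    (x : Fin (s + 1) → degreeLT F (P + 1)) : Fin (s + 1) → degreeLT F (P + 1) :=
  Function.update x 0 (x 0 + ⟨C c * X ^ j, by
    rw [mem_V_succ_iff]; exact le_trans (natDegree_C_mul_X_pow_le c j) hj⟩)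

omit [Fintype F] in
lemma tr_zero {s P : ℕ} (j : ℕ) (hj : j ≤ P) (c : F) (x : Fin (s + 1) → degreeLT F (P + 1)) :
    ((tr j hj c x 0 : degreeLT F (P + 1)) : F[X]) = (x 0 : F[X]) + C c * X ^ j := by
  unfold tr
  rw [Function.update_self]
  rfl

omit [Fintype F] in
lemma tr_succ {s P : ℕ} (j : ℕ) (hj : j ≤ P) (c : F) (x : Fin (s + 1) → degreeLT F (P + 1))
    (i : Fin s) : tr j hj c x i.succ = x i.succ := by
  unfold tr
  rw [Function.update_of_ne (Fin.succ_ne_zero i)]

omit [Fintype F] in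
lemma tr_tr {s P : ℕ} (j : ℕ) (hj : j ≤ P) (c c' : F) (x : Fin (s + 1) → degreeLT F (P + 1)) :
    tr j hj c (tr j hj c' x) = tr j hj (c' + c) x := by
  funext i
  refine Fin.cases ?_ (fun i => ?_) i
  · apply Subtype.ext
    rw [tr_zero, tr_zero, tr_zero, C_add]
    ring
  · rw [tr_succ, tr_succ, tr_succ]

omit [Fintype F] in
lemma tr_self {s P : ℕ} (j : ℕ) (hj : j ≤ P) (x : Fin (s + 1) → degreeLT F (P + 1)) :
    tr j hj 0 x = x := by
  funext i
  refine Fin.cases ?_ (fun i => ?_) i
  · apply Subtype.ext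
    rw [tr_zero]
    simp
  · rw [tr_succ]

omit [Fintype F] in
lemma Er_tr {k P : ℕ} (j : ℕ) (hj : j ≤ P) (c : F) (m : F[X])
    (x : Fin (2 * k + 1) → degreeLT F (P + 1)) :
    Er k P m (tr j hj c x) - Er k P m x
      = ((x 0 : F[X]) + C c * X ^ j) ^ k - (x 0 : F[X]) ^ k := by
  unfold Er
  rw [Fin.sum_univ_succ, Fin.sum_univ_succ, tr_zero]
  have : ∀ i : Fin (2 * k), ((tr j hj c x i.succ : degreeLT F (P + 1)) : F[X]) ^ k
      = (x i.succ : F[X]) ^ k := by
    intro i; rw [tr_succ]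
  rw [Finset.sum_congr rfl (fun i _ => this i)]
  ring

omit [Fintype F] in
lemma Er_tr_mem {k P : ℕ} (hk : 1 ≤ k) (j : ℕ) (hj : j ≤ P) (c : F) (m : F[X])
    (x : Fin (2 * k + 1) → degreeLT F (P + 1)) :
    Er k P m (tr j hj c x) - Er k P m x ∈ degreeLT F ((j + 1) + (k - 1) * P) := by
  apply Er_sub_mem hk
  intro i
  refine Fin.cases ?_ (fun i => ?_) i
  · rw [tr_zero, add_sub_cancel_left, mem_V_succ_iff]
    exact natDegree_C_mul_X_pow_le c j
  · rw [tr_succ, sub_self]
    exact Submodule.zero_mem _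

omit [Fintype F] in
lemma mem_V_of_succ {r : ℕ} {w : F[X]} (h : w ∈ degreeLT F (r + 1)) (h0 : w.coeff r = 0) :
    w ∈ degreeLT F r := by
  rw [mem_V_iff] at *
  intro j hj
  rcases Nat.eq_or_lt_of_le hj with h1 | h1
  · rw [← h1]; exact h0
  · exact h j h1

/-- Going up one level multiplies the count by `q`. -/
lemma card_Xd_succ {k P d : ℕ} (hk : 1 ≤ k) (hkF : (k : F) ≠ 0) (hd : d + 1 < P) (m : F[X]) :
    (Xd k P ((k - 1) * P + (d + 1) + 1) m).card
      = (Xd k P ((k - 1) * P + d + 1) m).card * Fintype.card F := by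
  have hj : d + 1 ≤ P := by omega
  set r := (k - 1) * P + d + 1 with hr
  have hr1 : (k - 1) * P + (d + 1) + 1 = r + 1 := by omega
  have hr2 : (d + 1) + (k - 1) * P = r := by omega
  have hr3 : (d + 1 + 1) + (k - 1) * P = r + 1 := by omega
  rw [hr1]
  -- the change of the coefficient
  have hcoeff : ∀ (c : F) (x : Fin (2 * k + 1) → degreeLT F (P + 1)),
      (Er k P m (tr (d + 1) hj c x)).coeff r
        = (Er k P m x).coeff r + (k : F) * ((x 0 : F[X]).coeff P) ^ (k - 1) * c := by
    intro c x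
    have h1 := coeff_change hk hd (mem_V_succ_iff.1 (x 0).2) c
    rw [← Er_tr (d + 1) hj c m x, hr2, coeff_sub] at h1
    rw [← h1]; ring
  have hP : ∀ (c : F) (x : Fin (2 * k + 1) → degreeLT F (P + 1)),
      ((tr (d + 1) hj c x 0 : degreeLT F (P + 1)) : F[X]).coeff P = (x 0 : F[X]).coeff P := by
    intro c x
    rw [tr_zero, coeff_add, coeff_C_mul, coeff_X_pow, if_neg (by omega), mul_zero, add_zero]
  have hmem : ∀ (c : F) (x : Fin (2 * k + 1) → degreeLT F (P + 1)),
      x ∈ Xd k P (r + 1) m → tr (d + 1) hj c x ∈ Xd k P (r + 1) m := by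
    intro c x hx
    rw [Xd, Finset.mem_filter, Xs, Finset.mem_filter] at *
    refine ⟨⟨Finset.mem_univ _, by rw [hP]; exact hx.1.2⟩, ?_⟩
    have h1 := Er_tr_mem hk (d + 1) hj c m x
    rw [hr3] at h1
    have := Submodule.add_mem _ h1 hx.2
    rwa [sub_add_cancel] at this
  let cf : (Fin (2 * k + 1) → degreeLT F (P + 1)) → F :=
    fun x => (Er k P m x).coeff r / ((k : F) * ((x 0 : F[X]).coeff P) ^ (k - 1))
  rw [← Finset.card_univ (α := F), ← Finset.card_product]
  symm
  refine Finset.card_bij' (fun xc _ => tr (d + 1) hj xc.2 xc.1)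
    (fun y _ => (tr (d + 1) hj (-cf y) y, cf y)) ?_ ?_ ?_ ?_
  · rintro ⟨x, c⟩ hx
    rw [Finset.mem_product] at hx
    apply hmem
    rw [Xd, Finset.mem_filter] at *
    exact ⟨hx.1.1, V_mono (Nat.le_succ _) hx.1.2⟩
  · intro y hy
    rw [Finset.mem_product]
    refine ⟨?_, Finset.mem_univ _⟩
    have h1 := hmem (-cf y) y hy
    rw [Xd, Finset.mem_filter] at h1 hy ⊢
    refine ⟨h1.1, ?_⟩
    apply mem_V_of_succ h1.2
    rw [hcoeff]
    have h2 : (k : F) * ((y 0 : F[X]).coeff P) ^ (k - 1) ≠ 0 := by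
      apply mul_ne_zero hkF
      apply pow_ne_zero
      have := hy.1
      rw [Xs, Finset.mem_filter] at this
      exact this.2
    have h3 : ∀ Z e : F, Z ≠ 0 → e + Z * (-(e / Z)) = 0 := by
      intro Z e hZ
      field_simp
      ring
    exact h3 _ _ h2
  · rintro ⟨x, c⟩ hx
    rw [Finset.mem_product] at hx
    have hx1 := hx.1
    rw [Xd, Finset.mem_filter] at hx1
    have h2 : (k : F) * ((x 0 : F[X]).coeff P) ^ (k - 1) ≠ 0 := by
      apply mul_ne_zero hkF
      apply pow_ne_zero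
      have := hx1.1
      rw [Xs, Finset.mem_filter] at this
      exact this.2
    have h3 : cf (tr (d + 1) hj c x) = c := by
      simp only [cf]
      rw [hcoeff, hP, mem_V_iff.1 hx1.2 r le_rfl, zero_add]
      rw [mul_comm, mul_div_assoc, div_self h2, mul_one]
    simp only
    rw [h3, tr_tr]
    simp [tr_self]
  · intro y _
    simp only
    rw [tr_tr]
    simp [tr_self]

/-- All levels below `P`. -/
lemma card_Xd_level {k P : ℕ} (hk : 1 ≤ k) (hkF : (k : F) ≠ 0) (m : F[X]) :
    ∀ d, d < P → (Xd k P ((k - 1) * P + d + 1) m).card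
      = (Xd k P ((k - 1) * P + 1) m).card * Fintype.card F ^ d
  | 0, _ => by simp
  | (d + 1), h => by
      rw [card_Xd_succ hk hkF h m, card_Xd_level hk hkF m d (by omega)]
      ring

/-- The top level, compared with the constant problem. -/
lemma card_Xd_top {k P : ℕ} {m : F[X]}
    (hm : m ∈ degreeLT F (k * P + 1)) :
    ((Xs F k 0).filter (fun y => Er k 0 (C (m.coeff (k * P))) y = 0)).card
      * (Fintype.card F ^ P) ^ (2 * k + 1) ≤ (Xd k P (k * P) m).card := by
  have h0 : (Fintype.card F ^ P) ^ (2 * k + 1)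
      = (Finset.univ : Finset (Fin (2 * k + 1) → degreeLT F P)).card := by
    rw [Finset.card_univ, Fintype.card_fun, card_V, Fintype.card_fin]
  rw [h0, ← Finset.card_product]
  have hdeg0 : ∀ y : degreeLT F (0 + 1), (y : F[X]) = C ((y : F[X]).coeff 0) := fun y =>
    eq_C_of_natDegree_eq_zero (Nat.le_zero.1 (mem_V_succ_iff.1 y.2))
  let mk : degreeLT F (0 + 1) → degreeLT F P → degreeLT F (P + 1) := fun y z =>
    ⟨(y : F[X]) * X ^ P + (z : F[X]), by
      apply Submodule.add_mem
      · rw [hdeg0 y, mem_V_succ_iff]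
        exact natDegree_C_mul_X_pow_le _ _
      · exact V_mono (by omega) z.2⟩
  have hmk : ∀ y z, ((mk y z : degreeLT F (P + 1)) : F[X]).coeff P = (y : F[X]).coeff 0 := by
    intro y z
    change ((y : F[X]) * X ^ P + (z : F[X])).coeff P = _
    rw [coeff_add, coeff_mul_X_pow', if_pos le_rfl, Nat.sub_self, mem_V_iff.1 z.2 P le_rfl,
      add_zero]
  apply Finset.card_le_card_of_injOn (fun yz i => mk (yz.1 i) (yz.2 i))
  · rintro ⟨y, z⟩ hyz
    rw [Finset.mem_coe, Finset.mem_product, Finset.mem_filter, Xs, Finset.mem_filter] at hyz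
    obtain ⟨⟨⟨-, hy1⟩, hy2⟩, -⟩ := hyz
    rw [Finset.mem_coe, Xd, Finset.mem_filter, Xs, Finset.mem_filter]
    refine ⟨⟨Finset.mem_univ _, ?_⟩, ?_⟩
    · simp only
      rw [hmk]; exact hy1
    · apply mem_V_of_succ (Er_mem hm _)
      have h2 : (Er k P m (fun i => mk (y i) (z i))).coeff (k * P)
          = ∑ i, ((y i : F[X]).coeff 0) ^ k - m.coeff (k * P) := by
        unfold Er
        rw [coeff_sub, finsetSum_coeff]
        congr 1
        apply Finset.sum_congr rfl
        intro i _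
        rw [coeff_pow_of_natDegree_le (mem_V_succ_iff.1 (mk (y i) (z i)).2), hmk]
      have h3 := congrArg (fun p => p.coeff 0) hy2
      simp only [Er, coeff_sub, finsetSum_coeff, coeff_zero, coeff_C_zero] at h3
      rw [h2, ← h3]
      congr 1
      apply Finset.sum_congr rfl
      intro i _
      have : ((y i : F[X]) ^ k).coeff 0 = ((y i : F[X]).coeff 0) ^ k := by
        simp only [coeff_zero_eq_eval_zero, eval_pow]
      rw [this]
  · rintro ⟨y, z⟩ _ ⟨y', z'⟩ _ h
    have h1 : ∀ i, mk (y i) (z i) = mk (y' i) (z' i) := fun i => congrFun h i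
    have h2 : ∀ i, (y i : F[X]) = (y' i : F[X]) := by
      intro i
      rw [hdeg0 (y i), hdeg0 (y' i), ← hmk (y i) (z i), ← hmk (y' i) (z' i), h1 i]
    have h3 : ∀ i, (z i : F[X]) = (z' i : F[X]) := by
      intro i
      have h4 : (y i : F[X]) * X ^ P + (z i : F[X]) = (y' i : F[X]) * X ^ P + (z' i : F[X]) :=
        congrArg Subtype.val (h1 i)
      rw [h2 i] at h4
      exact add_left_cancel h4
    refine Prod.ext ?_ ?_
    · funext i; exact Subtype.ext (h2 i)
    · funext i; exact Subtype.ext (h3 i)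

/-- Count of the tuples at scale zero. -/
lemma card_Xs_zero (k : ℕ) :
    Fintype.card F ^ (2 * k + 1) ≤ (Xs F k 0).card + Fintype.card F ^ (2 * k) := by
  have h1 : (Finset.univ.filter (fun x : Fin (2 * k + 1) → degreeLT F (0 + 1) =>
      (x 0 : F[X]).coeff 0 ≠ 0)).card
      + (Finset.univ.filter (fun x : Fin (2 * k + 1) → degreeLT F (0 + 1) =>
      ¬ (x 0 : F[X]).coeff 0 ≠ 0)).card
      = (Finset.univ : Finset (Fin (2 * k + 1) → degreeLT F (0 + 1))).card := by
    convert Finset.card_filter_add_card_filter_not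
      (s := (Finset.univ : Finset (Fin (2 * k + 1) → degreeLT F (0 + 1))))
      (fun x => (x 0 : F[X]).coeff 0 ≠ 0)
  have e1 : Fintype.card F ^ (0 + 1) = Fintype.card F := by simp
  rw [Finset.card_univ, Fintype.card_fun, card_V, Fintype.card_fin, e1] at h1
  have h2 : (Finset.univ.filter (fun x : Fin (2 * k + 1) → degreeLT F (0 + 1) =>
      ¬ (x 0 : F[X]).coeff 0 ≠ 0)).card ≤ Fintype.card F ^ (2 * k) := by
    have h3 : Fintype.card F ^ (2 * k)
        = (Finset.univ : Finset (Fin (2 * k) → degreeLT F (0 + 1))).card := by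
      rw [Finset.card_univ, Fintype.card_fun, card_V, Fintype.card_fin, zero_add, pow_one]
    rw [h3]
    apply Finset.card_le_card_of_injOn (fun x i => x i.succ)
    · intro x _; exact Finset.mem_coe.2 (Finset.mem_univ _)
    · intro x hx y hy h
      rw [Finset.mem_coe, Finset.mem_filter] at hx hy
      have h4 : ∀ v : degreeLT F (0 + 1), ¬ (v : F[X]).coeff 0 ≠ 0 → v = 0 := by
        intro v hv
        push Not at hv
        apply Subtype.ext
        rw [eq_C_of_natDegree_eq_zero (Nat.le_zero.1 (mem_V_succ_iff.1 v.2)), hv]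
        simp
      funext i
      refine Fin.cases ?_ (fun i => ?_) i
      · rw [h4 _ hx.2, h4 _ hy.2]
      · exact congrFun h i
  have h5 : Xs F k 0 = Finset.univ.filter (fun x : Fin (2 * k + 1) → degreeLT F (0 + 1) =>
      (x 0 : F[X]).coeff 0 ≠ 0) := rfl
  rw [h5]
  omega

end Pool.Agent.H598.FQ
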