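import Pool.Agent.H598.FQ.Basic
import Pool.Agent.H598.FQ.Count2

/-!
# The mean value estimate
-/

namespace Pool.Agent.H598.FQ

open Finset Polynomial

variable {F : Type*} [Field F]

lemma pol_coeff {P : ℕ} {x : F[X]} (hx : x ∈ degreeLT F (P + 1)) :
    pol (fun j : Fin (P + 1) => x.coeff (j : ℕ)) = x := by
  unfold pol
  rw [Fin.sum_univ_eq_sum_range (fun j => C (x.coeff j) * X ^ j) (P + 1)]
  have h := as_sum_range_C_mul_X_pow' x (n := P + 1) (by
    have := mem_V_succ_iff.1 hx
    omega)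
  exact h.symm

variable [Fintype F]

/-- The number of solutions of a diagonal equation in `2k` variables. -/
theorem count_V {k P : ℕ} (hk : 0 < k) (hch : ∀ a, a ≤ k → ((k.choose a : ℕ) : F) ≠ 0)
    (c : Fin (2 * k) → F) (hc : ∀ i, c i ≠ 0) (m : F[X]) :
    Nat.card {x : Fin (2 * k) → degreeLT F (P + 1) // ∑ i, C (c i) * (x i : F[X]) ^ k = m} ≤
      (2 * k) ^ (k * P + 1) * Fintype.card F ^ (2 * k * (P + 1) - (k * P + 1)) := by
  refine le_trans ?_ (card_zset (P := P) hk hch c hc m)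
  let Φ : {x : Fin (2 * k) → degreeLT F (P + 1) // ∑ i, C (c i) * (x i : F[X]) ^ k = m} →
      zset k P c m := fun x => ⟨fun v => (x.1 v.1 : F[X]).coeff (v.2 : ℕ), by
        change ∑ i, C (c i) * pol (fun j : Fin (P + 1) => (x.1 i : F[X]).coeff (j : ℕ)) ^ k = m
        refine Eq.trans ?_ x.2
        apply Finset.sum_congr rfl
        intro i _
        rw [pol_coeff (x.1 i).2]⟩
  have hΦ : Function.Injective Φ := by
    intro x y h
    apply Subtype.ext
    funext i
    apply Subtype.ext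
    rw [← pol_coeff (x.1 i).2, ← pol_coeff (y.1 i).2]
    congr 1
    funext j
    have := congrArg (fun z : zset k P c m => z.1 (i, j)) h
    exact this
  exact Nat.card_le_card_of_injective Φ hΦ

/-- The bound for the number of solutions. -/
noncomputable def JB (F : Type*) [Fintype F] (k P : ℕ) : ℕ :=
  (2 * k) ^ (k * P + 1) * Fintype.card F ^ (2 * k * (P + 1) - (k * P + 1))

omit [Fintype F] in
lemma pow_mem_V {k P : ℕ} {x : F[X]} (hx : x ∈ degreeLT F (P + 1)) :
    x ^ k ∈ degreeLT F (k * P + 1) := by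
  rw [mem_V_succ_iff] at *
  exact le_trans natDegree_pow_le (Nat.mul_le_mul_left _ hx)

lemma sum_prod_eq {s : ℕ} {V : Type*} [Fintype V] (f : Fin s → V → ℂ) :
    ∏ i, ∑ v, f i v = ∑ x : Fin s → V, ∏ i, f i (x i) := by
  classical
  rw [Finset.prod_univ_sum, Fintype.piFinset_univ]

/-- The mean value estimate, with weights. -/
theorem mean {ψ : AddChar F ℂ} (hψ : ψ ≠ 1) {k P : ℕ} (hk : 0 < k)
    (hch : ∀ a, a ≤ k → ((k.choose a : ℕ) : F) ≠ 0)
    (g : degreeLT F (P + 1) → ℂ) (hg : ∀ x, ‖g x‖ ≤ 1) :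
    ∑ α : Fin (k * P + 1) → F,
      ‖∑ x : degreeLT F (P + 1), g x * ψ (lin α ((x : F[X]) ^ k))‖ ^ (2 * k)
      ≤ (Fintype.card F : ℝ) ^ (k * P + 1) * (JB F k P : ℝ) := by
  classical
  set c : Fin (2 * k) → F := fun i => if (i : ℕ) < k then 1 else -1 with hc
  have hc0 : ∀ i, c i ≠ 0 := by
    intro i
    simp only [hc]
    split_ifs <;> simp
  set G : Fin (2 * k) → degreeLT F (P + 1) → ℂ :=
    fun i x => if (i : ℕ) < k then g x else (starRingEnd ℂ) (g x) with hG
  have hG1 : ∀ i x, ‖G i x‖ ≤ 1 := by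
    intro i x
    simp only [hG]
    split_ifs
    · exact hg x
    · rw [RCLike.norm_conj]; exact hg x
  have h1 : ∀ α : Fin (k * P + 1) → F,
      ((‖∑ x : degreeLT F (P + 1), g x * ψ (lin α ((x : F[X]) ^ k))‖ ^ (2 * k) : ℝ) : ℂ)
      = ∑ x : Fin (2 * k) → degreeLT F (P + 1), (∏ i, G i (x i))
        * ψ (lin α (∑ i, C (c i) * (x i : F[X]) ^ k)) := by
    intro α
    set z := ∑ x : degreeLT F (P + 1), g x * ψ (lin α ((x : F[X]) ^ k)) with hz
    have e1 : ((‖z‖ ^ (2 * k) : ℝ) : ℂ) = ∏ i : Fin (2 * k), (if (i : ℕ) < k then z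
        else (starRingEnd ℂ) z) := by
      have e2 : ((‖z‖ ^ (2 * k) : ℝ) : ℂ) = z ^ k * ((starRingEnd ℂ) z) ^ k := by
        rw [← mul_pow, Complex.mul_conj, pow_mul, Complex.normSq_eq_norm_sq]
        push_cast
        rfl
      rw [e2, Fin.prod_univ_eq_prod_range (fun i => if i < k then z else (starRingEnd ℂ) z) (2 * k),
        two_mul, Finset.prod_range_add]
      congr 1
      · rw [Finset.prod_congr rfl (g := fun _ => z)]
        · simp
        · intro i hi
          rw [if_pos (Finset.mem_range.1 hi)]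
      · rw [Finset.prod_congr rfl (g := fun _ => (starRingEnd ℂ) z)]
        · simp
        · intro i _
          rw [if_neg (by omega)]
    have e3 : ∀ i : Fin (2 * k), (if (i : ℕ) < k then z else (starRingEnd ℂ) z)
        = ∑ x : degreeLT F (P + 1), G i x * ψ (lin α (C (c i) * (x : F[X]) ^ k)) := by
      intro i
      have e4 : ∀ x : degreeLT F (P + 1), lin α (C (c i) * (x : F[X]) ^ k)
          = c i * lin α ((x : F[X]) ^ k) := by
        intro x
        rw [← smul_eq_C_mul, map_smul, smul_eq_mul]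
      by_cases hi : (i : ℕ) < k
      · rw [if_pos hi, hz]
        apply Finset.sum_congr rfl
        intro x _
        rw [e4]
        simp only [hG, hc, if_pos hi, one_mul]
      · rw [if_neg hi, hz, map_sum]
        apply Finset.sum_congr rfl
        intro x _
        rw [e4]
        simp only [hG, hc, if_neg hi, neg_mul, one_mul, map_mul]
        rw [AddChar.map_neg_eq_conj]
    rw [e1, Finset.prod_congr rfl (fun i _ => e3 i), sum_prod_eq]
    apply Finset.sum_congr rfl
    intro x _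
    rw [Finset.prod_mul_distrib, map_sum, char_sum]
  have h2 : ((∑ α : Fin (k * P + 1) → F,
      ‖∑ x : degreeLT F (P + 1), g x * ψ (lin α ((x : F[X]) ^ k))‖ ^ (2 * k) : ℝ) : ℂ)
      = ∑ x : Fin (2 * k) → degreeLT F (P + 1), (∏ i, G i (x i)) *
        (if ∑ i, C (c i) * (x i : F[X]) ^ k = 0 then (Fintype.card F : ℂ) ^ (k * P + 1) else 0)
      := by
    push_cast
    have h3 : ∀ α : Fin (k * P + 1) → F,
      ((‖∑ x : degreeLT F (P + 1), g x * ψ (lin α ((x : F[X]) ^ k))‖ : ℂ)) ^ (2 * k)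
      = ∑ x : Fin (2 * k) → degreeLT F (P + 1), (∏ i, G i (x i))
        * ψ (lin α (∑ i, C (c i) * (x i : F[X]) ^ k)) := by
      intro α
      rw [← h1 α]
      push_cast
      rfl
    rw [Finset.sum_congr rfl (fun α _ => h3 α), Finset.sum_comm]
    apply Finset.sum_congr rfl
    intro x _
    rw [← Finset.mul_sum]
    congr 1
    apply sum_lin hψ
    apply Submodule.sum_mem
    intro i _
    rw [← smul_eq_C_mul]
    exact Submodule.smul_mem _ _ (pow_mem_V (x i).2)
  have h4 : ∑ α : Fin (k * P + 1) → F,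
      ‖∑ x : degreeLT F (P + 1), g x * ψ (lin α ((x : F[X]) ^ k))‖ ^ (2 * k)
      = ‖((∑ α : Fin (k * P + 1) → F,
      ‖∑ x : degreeLT F (P + 1), g x * ψ (lin α ((x : F[X]) ^ k))‖ ^ (2 * k) : ℝ) : ℂ)‖ := by
    rw [Complex.norm_real, Real.norm_of_nonneg]
    exact Finset.sum_nonneg (fun _ _ => by positivity)
  rw [h4, h2]
  refine le_trans (norm_sum_le _ _) ?_
  have h5 : ∀ x : Fin (2 * k) → degreeLT F (P + 1), ‖(∏ i, G i (x i)) *
        (if ∑ i, C (c i) * (x i : F[X]) ^ k = 0 then (Fintype.card F : ℂ) ^ (k * P + 1) else 0)‖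
      ≤ if ∑ i, C (c i) * (x i : F[X]) ^ k = 0 then (Fintype.card F : ℝ) ^ (k * P + 1) else 0 := by
    intro x
    have h6 : ‖∏ i, G i (x i)‖ ≤ 1 := by
      rw [norm_prod]
      exact Finset.prod_le_one (fun i _ => norm_nonneg _) (fun i _ => hG1 i (x i))
    rw [norm_mul]
    split_ifs
    · rw [norm_pow, Complex.norm_natCast]
      have : (0 : ℝ) ≤ (Fintype.card F : ℝ) ^ (k * P + 1) := by positivity
      calc _ ≤ 1 * (Fintype.card F : ℝ) ^ (k * P + 1) := mul_le_mul_of_nonneg_right h6 this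
        _ = _ := one_mul _
    · simp
  refine le_trans (Finset.sum_le_sum (fun x _ => h5 x)) ?_
  rw [← Finset.sum_filter, Finset.sum_const, nsmul_eq_mul, mul_comm]
  apply mul_le_mul_of_nonneg_left _ (by positivity)
  have h7 := count_V (P := P) hk hch c hc0 0
  rw [Nat.card_eq_fintype_card, Fintype.card_subtype] at h7
  unfold JB
  exact_mod_cast h7

end Pool.Agent.H598.FQ
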