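import Pool.Agent.H598.FQ.Minor
import Pool.Agent.H598.FQ.Mean

/-!
# The major arcs
-/

namespace Pool.Agent.H598.FQ

open Finset Polynomial

variable {F : Type*} [Field F]

lemma V_mono {m n : ℕ} (h : m ≤ n) {w : F[X]} (hw : w ∈ degreeLT F m) : w ∈ degreeLT F n :=
  degreeLT_mono h hw

lemma mul_mem_V {m n : ℕ} {a b : F[X]} (ha : a ∈ degreeLT F m) (hb : b ∈ degreeLT F (n + 1)) :
    a * b ∈ degreeLT F (m + n) := by
  by_cases h0 : a = 0
  · rw [h0, zero_mul]; exact Submodule.zero_mem _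
  · have hm : m ≠ 0 := by
      rintro rfl
      rw [mem_degreeLT, degree_eq_natDegree h0] at ha
      exact absurd ha (not_lt.mpr (by exact_mod_cast Nat.zero_le _))
    obtain ⟨m', rfl⟩ := Nat.exists_eq_succ_of_ne_zero hm
    have h1 : a.natDegree ≤ m' := mem_V_succ_iff.1 ha
    have h2 : b.natDegree ≤ n := mem_V_succ_iff.1 hb
    have : m'.succ + n = (m' + n) + 1 := by omega
    rw [this, mem_V_succ_iff]
    exact le_trans natDegree_mul_le (by omega)

/-- The functional kills `h * V`. -/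
def Kc (L : F[X] →ₗ[F] F) (k P : ℕ) (h : F[X]) : Prop :=
  ∀ y ∈ degreeLT F ((k - 1) * P + 1), L (h * y) = 0

/-- The least degree of a killing polynomial is `d`. -/
def isd (L : F[X] →ₗ[F] F) (k P d : ℕ) : Prop :=
  (∃ h : F[X], h.Monic ∧ h.natDegree = d ∧ Kc L k P h) ∧
    ∀ h : F[X], h ≠ 0 → h.natDegree < d → ¬ Kc L k P h

lemma Kc_smul {L : F[X] →ₗ[F] F} {k P : ℕ} {h : F[X]} (c : F) (hh : Kc L k P h) :
    Kc L k P (C c * h) := by
  intro y hy
  rw [mul_assoc, ← smul_eq_C_mul, map_smul, hh y hy, smul_zero]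

lemma exists_monic {L : F[X] →ₗ[F] F} {k P : ℕ} {h : F[X]} (h0 : h ≠ 0) (hh : Kc L k P h) :
    ∃ g : F[X], g.Monic ∧ g.natDegree = h.natDegree ∧ Kc L k P g := by
  have hc : h.leadingCoeff⁻¹ ≠ 0 := inv_ne_zero (leadingCoeff_ne_zero.2 h0)
  refine ⟨C h.leadingCoeff⁻¹ * h, ?_, ?_, Kc_smul _ hh⟩
  · rw [Monic, leadingCoeff_mul, leadingCoeff_C, inv_mul_cancel₀ (leadingCoeff_ne_zero.2 h0)]
  · rw [natDegree_C_mul hc]

/-- Reduction modulo the killing polynomial. -/
lemma red {L : F[X] →ₗ[F] F} {k P d : ℕ} {g : F[X]} (hg : g.Monic) (hd : g.natDegree = d)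
    (hK : Kc L k P g) {w : F[X]} (hw : w ∈ degreeLT F ((k - 1) * P + d + 1)) :
    L w = L (w %ₘ g) := by
  have h1 := modByMonic_add_div w g
  have h2 : w /ₘ g ∈ degreeLT F ((k - 1) * P + 1) := by
    rw [mem_V_succ_iff] at *
    rw [natDegree_divByMonic w hg]
    omega
  conv_lhs => rw [← h1]
  rw [map_add, hK _ h2, add_zero]

lemma mod_mem {g : F[X]} {d : ℕ} (hg : g.Monic) (hd : g.natDegree = d) (w : F[X]) :
    w %ₘ g ∈ degreeLT F d := by
  rw [mem_degreeLT, ← hd, ← degree_eq_natDegree hg.ne_zero]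
  exact degree_modByMonic_lt w hg

lemma mod_eq_self {g : F[X]} {d : ℕ} (hg : g.Monic) (hd : g.natDegree = d) {w : F[X]}
    (hw : w ∈ degreeLT F d) : w %ₘ g = w := by
  rw [modByMonic_eq_self_iff hg, degree_eq_natDegree hg.ne_zero, hd]
  exact mem_degreeLT.1 hw

/-- Minor at the smaller scale. -/
lemma isd_minor {L : F[X] →ₗ[F] F} {k P d : ℕ} (hk : 2 ≤ k) (hd : 1 ≤ d) (h : isd L k P d) :
    Mi L k (d - 1) := by
  obtain ⟨⟨g, hg, hgd, hK⟩, hmin⟩ := h
  intro h h0 hdeg
  by_contra hcon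
  push Not at hcon
  apply hmin h h0 (by omega)
  intro y hy
  have h1 := modByMonic_add_div y g
  have h2 : h * y = h * (y %ₘ g) + g * (h * (y /ₘ g)) := by
    conv_lhs => rw [← h1]
    ring
  rw [h2, map_add]
  have h3 : L (h * (y %ₘ g)) = 0 := by
    apply hcon
    apply V_mono _ (mod_mem hg hgd y)
    have : (d - 1) * 1 ≤ (k - 1) * (d - 1) := by
      rw [mul_comm]; exact Nat.mul_le_mul_right _ (by omega)
    omega
  have h4 : L (g * (h * (y /ₘ g))) = 0 := by
    apply hK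
    by_cases hq : y /ₘ g = 0
    · rw [hq, mul_zero]; exact Submodule.zero_mem _
    · have h5 : ¬ y.degree < g.degree := by
        intro hlt
        exact hq ((divByMonic_eq_zero_iff hg).2 hlt)
      rw [mem_V_succ_iff] at *
      refine le_trans natDegree_mul_le ?_
      rw [natDegree_divByMonic y hg]
      have h6 : g.natDegree ≤ y.natDegree := by
        push Not at h5
        exact natDegree_le_natDegree h5
      omega
  rw [h3, h4, add_zero]

lemma pow_mod {g : F[X]} (hg : g.Monic) (a : F[X]) (k : ℕ) :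
    (a ^ k) %ₘ g = ((a %ₘ g) ^ k) %ₘ g := by
  apply modByMonic_eq_of_dvd_sub hg
  have h1 : g ∣ a - a %ₘ g := by
    have := modByMonic_add_div a g
    exact ⟨a /ₘ g, by linear_combination (-1 : F[X]) * this⟩
  exact dvd_trans h1 (sub_dvd_pow_sub_pow _ _ _)

/-- The value of the functional at a `k`-th power only depends on the residue class. -/
lemma pow_red {L : F[X] →ₗ[F] F} {k P d : ℕ} (hk : 1 ≤ k) {g : F[X]} (hg : g.Monic)
    (hd : g.natDegree = d) (hdP : d ≤ P) (hK : Kc L k P g) (a : F[X]) :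
    L ((a ^ k) %ₘ g) = L ((a %ₘ g) ^ k) := by
  rw [pow_mod hg]
  symm
  apply red hg hd hK
  rcases Nat.eq_zero_or_pos d with h0 | hpos
  · subst h0
    have h1 := mod_mem hg hd a
    have h2 : a %ₘ g = 0 := by
      rw [mem_V_iff] at h1
      ext j
      rw [h1 j (Nat.zero_le _), coeff_zero]
    rw [h2, zero_pow (by omega)]
    exact Submodule.zero_mem _
  · obtain ⟨e, rfl⟩ : ∃ e, d = e + 1 := ⟨d - 1, by omega⟩
    have h1 := mod_mem hg hd a
    rw [mem_V_succ_iff] at h1
    rw [mem_V_succ_iff]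
    refine le_trans natDegree_pow_le ?_
    have h2 : k * (a %ₘ g).natDegree ≤ k * e := Nat.mul_le_mul_left _ h1
    obtain ⟨k', rfl⟩ : ∃ k', k = k' + 1 := ⟨k - 1, by omega⟩
    have h3 : (k' + 1 - 1) * P = k' * P := by simp
    rw [h3]
    have h4 : k' * e ≤ k' * P := Nat.mul_le_mul_left _ (by omega)
    have h5 : (k' + 1) * e = k' * e + e := by ring
    omega

section
variable [Fintype F]

/-- Sum over residues with one more coefficient. -/
lemma sum_succ_mod {g : F[X]} {d : ℕ} (hg : g.Monic) (hd : g.natDegree = d) (f : F[X] → ℂ) :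
    ∑ x : degreeLT F (d + 1), f (x %ₘ g) = (Fintype.card F : ℂ) * ∑ z : degreeLT F d, f z := by
  classical
  let e : F × degreeLT F d → degreeLT F (d + 1) := fun cz =>
    ⟨C cz.1 * g + (cz.2 : F[X]), by
      apply Submodule.add_mem
      · rw [← smul_eq_C_mul]
        apply Submodule.smul_mem
        rw [mem_V_succ_iff, hd]
      · exact V_mono (by omega) cz.2.2⟩
  have hmod : ∀ cz : F × degreeLT F d, ((e cz : degreeLT F (d + 1)) : F[X]) %ₘ g = cz.2 := by
    intro cz
    change (C cz.1 * g + (cz.2 : F[X])) %ₘ g = cz.2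
    rw [add_modByMonic, mod_eq_self hg hd cz.2.2]
    have : (C cz.1 * g) %ₘ g = 0 := by
      rw [modByMonic_eq_zero_iff_dvd hg]
      exact dvd_mul_left _ _
    rw [this, zero_add]
  have hinj : Function.Injective e := by
    intro a b hab
    have h1 : a.2 = b.2 := by
      apply Subtype.ext
      rw [← hmod a, ← hmod b, hab]
    have h2 : C a.1 * g + (a.2 : F[X]) = C b.1 * g + (b.2 : F[X]) := congrArg Subtype.val hab
    rw [h1] at h2
    have h3 : C a.1 * g = C b.1 * g := add_right_cancel h2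
    have h4 : a.1 = b.1 := C_injective (mul_right_cancel₀ hg.ne_zero h3)
    exact Prod.ext h4 h1
  have hbij : Function.Bijective e := by
    rw [Fintype.bijective_iff_injective_and_card]
    refine ⟨hinj, ?_⟩
    rw [Fintype.card_prod, card_V, card_V, pow_succ, mul_comm]
  rw [← Function.Bijective.sum_comp hbij (fun x => f ((x : F[X]) %ₘ g)), Fintype.sum_prod_type]
  simp only [hmod]
  rw [Finset.sum_const, Finset.card_univ, nsmul_eq_mul]

/-- Complete sums. -/
noncomputable def Cs (ψ : AddChar F ℂ) (L : F[X] →ₗ[F] F) (k d : ℕ) : ℂ :=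
  ∑ z : degreeLT F d, ψ (L ((z : F[X]) ^ k))

lemma Cs_succ (ψ : AddChar F ℂ) {L : F[X] →ₗ[F] F} {k P d : ℕ} (hk : 1 ≤ k) (hdP : d ≤ P)
    (h : isd L k P d) : Cs ψ L k (d + 1) = (Fintype.card F : ℂ) * Cs ψ L k d := by
  obtain ⟨⟨g, hg, hgd, hK⟩, -⟩ := h
  unfold Cs
  rw [← sum_succ_mod hg hgd (fun z => ψ (L (z ^ k)))]
  apply Finset.sum_congr rfl
  intro x _
  congr 1
  rw [← pow_red hk hg hgd hdP hK]
  apply red hg hgd hK
  have h1 := mem_V_succ_iff.1 x.2
  rw [mem_V_succ_iff]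
  refine le_trans natDegree_pow_le ?_
  have h2 : k * (x : F[X]).natDegree ≤ k * d := Nat.mul_le_mul_left _ h1
  obtain ⟨k', rfl⟩ : ∃ k', k = k' + 1 := ⟨k - 1, by omega⟩
  have h3 : (k' + 1 - 1) * P = k' * P := by simp
  rw [h3]
  have h4 : k' * d ≤ k' * P := Nat.mul_le_mul_left _ hdP
  have h5 : (k' + 1) * d = k' * d + d := by ring
  omega

end

end Pool.Agent.H598.FQ
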