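import Pool.Agent.H598.FQ.Major

/-!
# The major arcs, continued
-/

namespace Pool.Agent.H598.FQ

open Finset Polynomial
open scoped Classical

variable {F : Type*} [Field F] [Fintype F]

/-- Number of variables is `2k+1`. The error polynomial. -/
noncomputable def Er (k P : ℕ) (m : F[X]) (x : Fin (2 * k + 1) → degreeLT F (P + 1)) : F[X] :=
  ∑ i, (x i : F[X]) ^ k - m

/-- The tuples whose first entry has degree exactly `P`. -/
noncomputable def Xs (F : Type*) [Field F] [Fintype F] (k P : ℕ) :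
    Finset (Fin (2 * k + 1) → degreeLT F (P + 1)) :=
  Finset.univ.filter (fun x => (x 0 : F[X]).coeff P ≠ 0)

/-- The tuples for which the error polynomial is in `V r`. -/
noncomputable def Xd (k P r : ℕ) (m : F[X]) :
    Finset (Fin (2 * k + 1) → degreeLT F (P + 1)) :=
  (Xs F k P).filter (fun x => Er k P m x ∈ degreeLT F r)

/-- The generating sum. -/
noncomputable def Ph (ψ : AddChar F ℂ) (k P : ℕ) (m : F[X]) (α : Fin (k * P + 1) → F) : ℂ :=
  ∑ x ∈ Xs F k P, ψ (lin α (Er k P m x))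

/-- The functionals of level `d`. -/
noncomputable def Dd (F : Type*) [Field F] [Fintype F] (k P d : ℕ) :
    Finset (Fin (k * P + 1) → F) :=
  Finset.univ.filter (fun α => isd (lin α) k P d)

omit [Fintype F] in
lemma Er_mem {k P : ℕ} {m : F[X]} (hm : m ∈ degreeLT F (k * P + 1))
    (x : Fin (2 * k + 1) → degreeLT F (P + 1)) : Er k P m x ∈ degreeLT F (k * P + 1) := by
  unfold Er
  apply Submodule.sub_mem _ _ hm
  apply Submodule.sum_mem
  intro i _
  exact pow_mem_V (x i).2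

omit [Fintype F] in
/-- Translation changes the error polynomial only in low degrees. -/
lemma Er_sub_mem {k P d : ℕ} (hk : 1 ≤ k) {m : F[X]}
    (x y : Fin (2 * k + 1) → degreeLT F (P + 1))
    (hxy : ∀ i, ((x i : F[X]) - y i) ∈ degreeLT F d) :
    Er k P m x - Er k P m y ∈ degreeLT F (d + (k - 1) * P) := by
  unfold Er
  have h1 : (∑ i, (x i : F[X]) ^ k - m) - (∑ i, (y i : F[X]) ^ k - m)
      = ∑ i, ((x i : F[X]) ^ k - (y i : F[X]) ^ k) := by
    rw [Finset.sum_sub_distrib]; ring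
  rw [h1]
  apply Submodule.sum_mem
  intro i _
  obtain ⟨k', rfl⟩ : ∃ k', k = k' + 1 := ⟨k - 1, by omega⟩
  rw [← (Commute.all (x i : F[X]) (y i : F[X])).mul_geom_sum₂ (k' + 1)]
  apply mul_mem_V (hxy i)
  apply Submodule.sum_mem
  intro j hj
  have hj' : j ≤ k' := by have := Finset.mem_range.1 hj; omega
  rw [mem_V_succ_iff]
  refine le_trans natDegree_mul_le ?_
  have h2 : ((x i : F[X]) ^ j).natDegree ≤ j * P :=
    le_trans natDegree_pow_le (Nat.mul_le_mul_left _ (mem_V_succ_iff.1 (x i).2))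
  have h3 : ((y i : F[X]) ^ (k' + 1 - 1 - j)).natDegree ≤ (k' + 1 - 1 - j) * P :=
    le_trans natDegree_pow_le (Nat.mul_le_mul_left _ (mem_V_succ_iff.1 (y i).2))
  have h4 : j * P + (k' + 1 - 1 - j) * P = (k' + 1 - 1) * P := by
    rw [← add_mul]; congr 1; omega
  omega

/-- Full count by orthogonality. -/
lemma sum_Ph {ψ : AddChar F ℂ} (hψ : ψ ≠ 1) {k P : ℕ} {m : F[X]}
    (hm : m ∈ degreeLT F (k * P + 1)) :
    ∑ α, Ph ψ k P m α = (Fintype.card F : ℂ) ^ (k * P + 1) *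
      (((Xs F k P).filter (fun x => Er k P m x = 0)).card : ℂ) := by
  unfold Ph
  rw [Finset.sum_comm]
  have h1 : ∀ x ∈ Xs F k P, ∑ α : Fin (k * P + 1) → F, ψ (lin α (Er k P m x))
      = if Er k P m x = 0 then (Fintype.card F : ℂ) ^ (k * P + 1) else 0 :=
    fun x _ => sum_lin hψ (Er_mem hm x)
  rw [Finset.sum_congr rfl h1, ← Finset.sum_filter, Finset.sum_const, nsmul_eq_mul, mul_comm]

lemma lin_zero_of_mem_Bs {n r : ℕ} {β : Fin n → F} (hβ : β ∈ Bs F n r) {w : F[X]}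
    (hw : w ∈ degreeLT F r) : lin β w = 0 := by
  rw [lin_apply]
  apply Finset.sum_eq_zero
  intro j _
  by_cases hj : (j : ℕ) < r
  · rw [mem_Bs.1 hβ j hj, zero_mul]
  · rw [mem_V_iff.1 hw _ (by omega), mul_zero]

lemma mem_Bs_of_lin {n r : ℕ} {β : Fin n → F}
    (h : ∀ w ∈ degreeLT F r, lin β w = 0) : β ∈ Bs F n r := by
  rw [mem_Bs]
  intro j hj
  have h1 : (X ^ (j : ℕ) : F[X]) ∈ degreeLT F r := by
    rw [mem_V_iff]
    intro i hi
    rw [coeff_X_pow, if_neg (by omega)]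
  have h2 := h _ h1
  rw [lin_apply, Finset.sum_eq_single j] at h2
  · simpa using h2
  · intro i _ hij
    rw [coeff_X_pow, if_neg (fun h' => hij (Fin.ext h')), mul_zero]
  · intro h'; exact absurd (Finset.mem_univ _) h'

/-- The level-zero functionals. -/
lemma Dd_zero (k P : ℕ) : Dd F k P 0 = Bs F (k * P + 1) ((k - 1) * P + 1) := by
  ext α
  constructor
  · intro hα
    rw [Dd, Finset.mem_filter] at hα
    obtain ⟨-, ⟨h, hm, hd, hK⟩, -⟩ := hα
    have h1 : h = 1 := by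
      rw [eq_C_of_natDegree_eq_zero hd] at hm ⊢
      rw [Monic, leadingCoeff_C] at hm
      rw [hm, C_1]
    apply mem_Bs_of_lin
    intro w hw
    have := hK w hw
    rwa [h1, one_mul] at this
  · intro hα
    rw [Dd, Finset.mem_filter]
    refine ⟨Finset.mem_univ _, ⟨1, monic_one, natDegree_one, ?_⟩, ?_⟩
    · intro y hy
      rw [one_mul]
      exact lin_zero_of_mem_Bs hα hy
    · intro h _ hlt
      omega

/-- The main term. -/
lemma sum_Dd_zero {ψ : AddChar F ℂ} (hψ : ψ ≠ 1) {k P : ℕ} (hk : 1 ≤ k) {m : F[X]}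
    (hm : m ∈ degreeLT F (k * P + 1)) :
    ∑ α ∈ Dd F k P 0, Ph ψ k P m α = (Fintype.card F : ℂ) ^ P *
      ((Xd k P ((k - 1) * P + 1) m).card : ℂ) := by
  rw [Dd_zero k P]
  unfold Ph
  rw [Finset.sum_comm]
  have h0 : k * P + 1 - ((k - 1) * P + 1) = P := by
    obtain ⟨k', rfl⟩ : ∃ k', k = k' + 1 := ⟨k - 1, by omega⟩
    have : (k' + 1) * P = k' * P + P := by ring
    have h3 : (k' + 1 - 1) * P = k' * P := by simp
    omega
  have h1 : ∀ x ∈ Xs F k P, ∑ α ∈ Bs F (k * P + 1) ((k - 1) * P + 1), ψ (lin α (Er k P m x))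
      = if Er k P m x ∈ degreeLT F ((k - 1) * P + 1) then (Fintype.card F : ℂ) ^ P else 0 := by
    intro x _
    rw [sum_Bs hψ (Er_mem hm x), h0]
  rw [Finset.sum_congr rfl h1, ← Finset.sum_filter, Finset.sum_const, nsmul_eq_mul, mul_comm]
  rfl

lemma Kc_add_iff {k P d : ℕ} {α β : Fin (k * P + 1) → F}
    (hβ : β ∈ Bs F (k * P + 1) ((k - 1) * P + d + 1)) {h : F[X]} (hd : h.natDegree ≤ d) :
    Kc (lin (α + β)) k P h ↔ Kc (lin α) k P h := by
  unfold Kc
  apply forall_congr'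
  intro y
  apply forall_congr'
  intro hy
  rw [lin_add]
  have h1 : h * y ∈ degreeLT F ((k - 1) * P + d + 1) := by
    have h2 : h ∈ degreeLT F (d + 1) := mem_V_succ_iff.2 hd
    have := mul_mem_V h2 hy
    have e : d + 1 + (k - 1) * P = (k - 1) * P + d + 1 := by ring
    rwa [e] at this
  rw [lin_zero_of_mem_Bs hβ h1, add_zero]

lemma isd_add_iff {k P d : ℕ} {α β : Fin (k * P + 1) → F}
    (hβ : β ∈ Bs F (k * P + 1) ((k - 1) * P + d + 1)) :
    isd (lin (α + β)) k P d ↔ isd (lin α) k P d := by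
  unfold isd
  constructor
  · rintro ⟨⟨h, h1, h2, h3⟩, h4⟩
    refine ⟨⟨h, h1, h2, (Kc_add_iff hβ (by omega)).1 h3⟩, ?_⟩
    intro h' h5 h6 h7
    exact h4 h' h5 h6 ((Kc_add_iff hβ (by omega)).2 h7)
  · rintro ⟨⟨h, h1, h2, h3⟩, h4⟩
    refine ⟨⟨h, h1, h2, (Kc_add_iff hβ (by omega)).2 h3⟩, ?_⟩
    intro h' h5 h6 h7
    exact h4 h' h5 h6 ((Kc_add_iff hβ (by omega)).1 h7)

lemma Bs_neg {n r : ℕ} {β : Fin n → F} (hβ : β ∈ Bs F n r) : -β ∈ Bs F n r := by
  rw [mem_Bs] at *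
  intro j hj
  rw [Pi.neg_apply, hβ j hj, neg_zero]

/-- Averaging over the translations by `Bs`. -/
lemma sum_Dd_avg {ψ : AddChar F ℂ} (hψ : ψ ≠ 1) {k P d : ℕ} {m : F[X]}
    (hm : m ∈ degreeLT F (k * P + 1)) :
    ∑ α ∈ Dd F k P d, Ph ψ k P m α
      = ∑ α ∈ Dd F k P d, ∑ x ∈ Xd k P ((k - 1) * P + d + 1) m, ψ (lin α (Er k P m x)) := by
  set B := Bs F (k * P + 1) ((k - 1) * P + d + 1) with hB
  have hBcard : (B.card : ℂ) ≠ 0 := by
    rw [hB, card_Bs]
    have : Fintype.card F ≠ 0 := Fintype.card_ne_zero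
    exact_mod_cast pow_ne_zero _ this
  -- translation invariance
  have h1 : ∀ β ∈ B, ∑ α ∈ Dd F k P d, Ph ψ k P m α
      = ∑ α ∈ Dd F k P d, Ph ψ k P m (α + β) := by
    intro β hβ
    symm
    apply Finset.sum_bij' (fun α _ => α + β) (fun α _ => α + -β)
    · intro α hα
      rw [Dd, Finset.mem_filter] at *
      exact ⟨Finset.mem_univ _, (isd_add_iff hβ).2 hα.2⟩
    · intro α hα
      rw [Dd, Finset.mem_filter] at *
      exact ⟨Finset.mem_univ _, (isd_add_iff (Bs_neg hβ)).2 hα.2⟩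
    · intro α _; simp
    · intro α _; simp
    · intro α _; rfl
  have h2 : (B.card : ℂ) * ∑ α ∈ Dd F k P d, Ph ψ k P m α
      = (B.card : ℂ) * ∑ α ∈ Dd F k P d,
        ∑ x ∈ Xd k P ((k - 1) * P + d + 1) m, ψ (lin α (Er k P m x)) := by
    rw [← nsmul_eq_mul, ← Finset.sum_const, Finset.sum_congr rfl h1, Finset.sum_comm,
      Finset.mul_sum]
    apply Finset.sum_congr rfl
    intro α _
    unfold Ph
    rw [Finset.sum_comm]
    have h3 : ∀ x ∈ Xs F k P, ∑ β ∈ B, ψ (lin (α + β) (Er k P m x))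
        = if Er k P m x ∈ degreeLT F ((k - 1) * P + d + 1)
          then (B.card : ℂ) * ψ (lin α (Er k P m x)) else 0 := by
      intro x _
      have h4 : ∀ β ∈ B, ψ (lin (α + β) (Er k P m x))
          = ψ (lin α (Er k P m x)) * ψ (lin β (Er k P m x)) := by
        intro β _
        rw [lin_add, AddChar.map_add_eq_mul]
      rw [Finset.sum_congr rfl h4, ← Finset.mul_sum, hB, sum_Bs hψ (Er_mem hm x), card_Bs]
      split_ifs
      · push_cast; ring
      · ring
    rw [Finset.sum_congr rfl h3, ← Finset.sum_filter, ← Finset.mul_sum]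
    rfl
  exact mul_left_cancel₀ hBcard h2

end Pool.Agent.H598.FQ
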