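import Pool.Agent.H598.FQ.Major2

/-!
# The major arcs, evaluation and bound
-/

namespace Pool.Agent.H598.FQ

open Finset Polynomial
open scoped Classical

variable {F : Type*} [Field F] [Fintype F]

/-- Translation of a tuple by polynomials of small degree. -/
noncomputable def shift {s P d : ℕ} (hdP : d ≤ P + 1) (x : Fin s → degreeLT F (P + 1))
    (z : Fin s → degreeLT F d) : Fin s → degreeLT F (P + 1) :=
  fun i => x i + ⟨(z i : F[X]), V_mono hdP (z i).2⟩

omit [Fintype F] in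
lemma shift_coe {s P d : ℕ} (hdP : d ≤ P + 1) (x : Fin s → degreeLT F (P + 1))
    (z : Fin s → degreeLT F d) (i : Fin s) :
    ((shift hdP x z i : degreeLT F (P + 1)) : F[X]) = (x i : F[X]) + (z i : F[X]) := rfl

lemma shift_mem {k P d : ℕ} (hk : 1 ≤ k) (hdP : d ≤ P) {m : F[X]}
    {x : Fin (2 * k + 1) → degreeLT F (P + 1)} (hx : x ∈ Xd k P ((k - 1) * P + d + 1) m)
    (z : Fin (2 * k + 1) → degreeLT F d) :
    shift (by omega : d ≤ P + 1) x z ∈ Xd k P ((k - 1) * P + d + 1) m := by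
  rw [Xd, Finset.mem_filter, Xs, Finset.mem_filter] at *
  obtain ⟨⟨-, h1⟩, h2⟩ := hx
  refine ⟨⟨Finset.mem_univ _, ?_⟩, ?_⟩
  · rw [shift_coe, coeff_add, mem_V_iff.1 (z 0).2 P hdP, add_zero]
    exact h1
  · have h3 : Er k P m (shift (by omega : d ≤ P + 1) x z) - Er k P m x
        ∈ degreeLT F (d + (k - 1) * P) := by
      apply Er_sub_mem hk
      intro i
      rw [shift_coe, add_sub_cancel_left]
      exact (z i).2
    have h4 := V_mono (show d + (k - 1) * P ≤ (k - 1) * P + d + 1 by omega) h3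
    have h5 := Submodule.add_mem _ h4 h2
    rwa [sub_add_cancel] at h5

omit [Fintype F] in
/-- The value of the functional at the error polynomial. -/
lemma lin_Er {L : F[X] →ₗ[F] F} {k P d : ℕ} (hk : 1 ≤ k) {g : F[X]} (hg : g.Monic)
    (hd : g.natDegree = d) (hdP : d ≤ P) (hK : Kc L k P g) {m : F[X]}
    {x : Fin (2 * k + 1) → degreeLT F (P + 1)}
    (hx : Er k P m x ∈ degreeLT F ((k - 1) * P + d + 1)) :
    L (Er k P m x) = ∑ i, L (((x i : F[X]) %ₘ g) ^ k) - L (m %ₘ g) := by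
  rw [red hg hd hK hx]
  unfold Er
  have h1 : (∑ i, (x i : F[X]) ^ k - m) %ₘ g = ∑ i, ((x i : F[X]) ^ k) %ₘ g - m %ₘ g := by
    have := map_sub (modByMonicHom g) (∑ i, (x i : F[X]) ^ k) m
    rw [map_sum] at this
    simpa only [modByMonicHom_apply] using this
  rw [h1, map_sub, map_sum]
  congr 1
  apply Finset.sum_congr rfl
  intro i _
  exact pow_red hk hg hd hdP hK _

lemma sum_shift {ψ : AddChar F ℂ} {L : F[X] →ₗ[F] F} {k P d : ℕ} (hk : 1 ≤ k)
    {g : F[X]} (hg : g.Monic) (hd : g.natDegree = d) (hdP : d ≤ P) (hK : Kc L k P g) {m : F[X]}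
    {x : Fin (2 * k + 1) → degreeLT F (P + 1)} (hx : x ∈ Xd k P ((k - 1) * P + d + 1) m) :
    ‖∑ z : Fin (2 * k + 1) → degreeLT F d,
      ψ (L (Er k P m (shift (by omega : d ≤ P + 1) x z)))‖ = ‖Cs ψ L k d‖ ^ (2 * k + 1) := by
  have h1 : ∀ z : Fin (2 * k + 1) → degreeLT F d,
      ψ (L (Er k P m (shift (by omega : d ≤ P + 1) x z)))
      = ψ (-L (m %ₘ g)) * ∏ i, ψ (L (((x i : F[X]) %ₘ g + z i) ^ k)) := by
    intro z
    have h2 := shift_mem hk hdP hx z
    rw [Xd, Finset.mem_filter] at h2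
    rw [lin_Er hk hg hd hdP hK h2.2, sub_eq_neg_add, AddChar.map_add_eq_mul, char_sum]
    congr 1
    apply Finset.prod_congr rfl
    intro i _
    rw [shift_coe, add_modByMonic, mod_eq_self hg hd (z i).2]
  rw [Finset.sum_congr rfl (fun z _ => h1 z), ← Finset.mul_sum,
    ← sum_prod_eq (fun i (v : degreeLT F d) => ψ (L (((x i : F[X]) %ₘ g + v) ^ k)))]
  have h3 : ∀ i, ∑ v : degreeLT F d, ψ (L (((x i : F[X]) %ₘ g + v) ^ k)) = Cs ψ L k d := by
    intro i
    let t : degreeLT F d := ⟨(x i : F[X]) %ₘ g, mod_mem hg hd _⟩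
    exact Equiv.sum_comp (Equiv.addLeft t) (fun z : degreeLT F d => ψ (L ((z : F[X]) ^ k)))
  rw [Finset.prod_congr rfl (fun i _ => h3 i), norm_mul, AddChar.norm_apply, one_mul, norm_prod]
  simp

/-- Bound for the inner sum. -/
lemma inner_bound {ψ : AddChar F ℂ} {L : F[X] →ₗ[F] F} {k P d : ℕ} (hk : 1 ≤ k)
    (hdP : d ≤ P) (hL : isd L k P d) (m : F[X]) :
    ‖∑ x ∈ Xd k P ((k - 1) * P + d + 1) m, ψ (L (Er k P m x))‖
      ≤ ((Xd k P ((k - 1) * P + d + 1) m).card : ℝ) *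
        (‖Cs ψ L k d‖ / (Fintype.card F : ℝ) ^ d) ^ (2 * k + 1) := by
  obtain ⟨⟨g, hg, hd, hK⟩, -⟩ := hL
  set Y := Xd k P ((k - 1) * P + d + 1) m with hY
  set q : ℝ := (Fintype.card F : ℝ) with hq
  have hq0 : 0 < q := by rw [hq]; exact_mod_cast Fintype.card_pos
  have h1 : ∀ z : Fin (2 * k + 1) → degreeLT F d, ∑ x ∈ Y, ψ (L (Er k P m x))
      = ∑ x ∈ Y, ψ (L (Er k P m (shift (by omega : d ≤ P + 1) x z))) := by
    intro z
    symm
    refine Finset.sum_bij' (fun x _ => shift (by omega : d ≤ P + 1) x z)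
      (fun x _ => shift (by omega : d ≤ P + 1) x (-z)) ?_ ?_ ?_ ?_ ?_
    · intro x hx; exact shift_mem hk hdP hx z
    · intro x hx; exact shift_mem hk hdP hx (-z)
    · intro x _
      funext i
      apply Subtype.ext
      rw [shift_coe, shift_coe]
      simp
    · intro x _
      funext i
      apply Subtype.ext
      rw [shift_coe, shift_coe]
      simp
    · intro x _; rfl
  have h2 : ((q ^ d) ^ (2 * k + 1) : ℝ) * ‖∑ x ∈ Y, ψ (L (Er k P m x))‖
      = ‖∑ x ∈ Y, ∑ z : Fin (2 * k + 1) → degreeLT F d,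
        ψ (L (Er k P m (shift (by omega : d ≤ P + 1) x z)))‖ := by
    rw [Finset.sum_comm, Finset.sum_congr rfl (fun z _ => (h1 z).symm), Finset.sum_const,
      nsmul_eq_mul, norm_mul, Complex.norm_natCast, Finset.card_univ, Fintype.card_fun, card_V,
      Fintype.card_fin]
    push_cast
    rfl
  have h3 : ‖∑ x ∈ Y, ∑ z : Fin (2 * k + 1) → degreeLT F d,
        ψ (L (Er k P m (shift (by omega : d ≤ P + 1) x z)))‖
      ≤ (Y.card : ℝ) * ‖Cs ψ L k d‖ ^ (2 * k + 1) := by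
    refine le_trans (norm_sum_le _ _) ?_
    rw [← nsmul_eq_mul, ← Finset.sum_const]
    apply Finset.sum_le_sum
    intro x hx
    exact le_of_eq (sum_shift hk hg hd hdP hK hx)
  have hpos : 0 < (q ^ d) ^ (2 * k + 1) := by positivity
  rw [div_pow, ← mul_div_assoc, le_div_iff₀ hpos, mul_comm, h2]
  exact h3

/-- The restriction of a vector to its first entries. -/
def rst {n n' : ℕ} (h : n' ≤ n) (α : Fin n → F) : Fin n' → F := fun j => α (Fin.castLE h j)

omit [Fintype F] in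
lemma lin_rst {n n' : ℕ} (h : n' ≤ n) (α : Fin n → F) {w : F[X]} (hw : w ∈ degreeLT F n') :
    lin (rst h α) w = lin α w := by
  rw [lin_apply, lin_apply]
  unfold rst
  have h1 : ∀ j : Fin n, α j * w.coeff (j : ℕ) ≠ 0 → (j : ℕ) < n' := by
    intro j hj
    by_contra hcon
    apply hj
    rw [mem_V_iff.1 hw _ (by omega), mul_zero]
  have h2 := Finset.sum_map Finset.univ (Fin.castLEEmb h) (fun j : Fin n => α j * w.coeff (j : ℕ))
  refine Eq.trans h2.symm ?_
  apply Finset.sum_subset (Finset.subset_univ _)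
  intro j _ hj
  by_contra hne
  apply hj
  rw [Finset.mem_map]
  exact ⟨⟨j, h1 j hne⟩, Finset.mem_univ _, rfl⟩

end Pool.Agent.H598.FQ
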