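import Pool.Agent.H598.FQ.Major3

/-!
# Mean value over the functionals of level `d`, and the minor arcs
-/

namespace Pool.Agent.H598.FQ

open Finset Polynomial
open scoped Classical

variable {F : Type*} [Field F] [Fintype F]

omit [Fintype F] in
lemma arith1 {k P d : ℕ} (hk : 1 ≤ k) (hdP : d ≤ P) : k * d + 1 ≤ (k - 1) * P + d + 1 := by
  obtain ⟨k', rfl⟩ : ∃ k', k = k' + 1 := ⟨k - 1, by omega⟩
  have h3 : (k' + 1 - 1) * P = k' * P := by simp
  rw [h3]
  have h4 : k' * d ≤ k' * P := Nat.mul_le_mul_left _ hdP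
  have h5 : (k' + 1) * d = k' * d + d := by ring
  omega

omit [Fintype F] in
lemma arith2 {k P d : ℕ} (hk : 1 ≤ k) (hdP : d ≤ P) :
    k * P + 1 - ((k - 1) * P + d + 1) = P - d := by
  obtain ⟨k', rfl⟩ : ∃ k', k = k' + 1 := ⟨k - 1, by omega⟩
  have h3 : (k' + 1 - 1) * P = k' * P := by simp
  rw [h3]
  have h5 : (k' + 1) * P = k' * P + P := by ring
  omega

omit [Fintype F] in
lemma arith3 {k P d : ℕ} (hdP : d ≤ P) : k * d + 1 ≤ k * P + 1 := by
  have := Nat.mul_le_mul_left k hdP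
  omega

omit [Fintype F] in
/-- Two functionals of level `d` with the same restriction agree far out. -/
lemma agree {k P d : ℕ} (hk : 2 ≤ k) (hd : 1 ≤ d) (hdP : d ≤ P)
    {L L₀ : F[X] →ₗ[F] F} (h : isd L k P d) (h₀ : isd L₀ k P d)
    (hr : ∀ w ∈ degreeLT F (k * d + 1), L w = L₀ w) :
    ∀ w ∈ degreeLT F ((k - 1) * P + d + 1), L w = L₀ w := by
  have hmin := isd_minor hk hd h
  obtain ⟨⟨g, hg, hgd, hK⟩, -⟩ := h
  obtain ⟨⟨g₀, hg₀, hgd₀, hK₀⟩, -⟩ := h₀
  have hgg : g = g₀ := by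
    by_contra hne
    have h1 : g - g₀ ≠ 0 := sub_ne_zero.2 hne
    have h2 : (g - g₀).degree < g.degree := by
      apply degree_sub_lt_left _ hg.ne_zero
      · rw [hg.leadingCoeff, hg₀.leadingCoeff]
      · rw [degree_eq_natDegree hg.ne_zero, degree_eq_natDegree hg₀.ne_zero, hgd, hgd₀]
    have h3 : (g - g₀).natDegree < d := by
      rw [← hgd]
      exact natDegree_lt_natDegree h1 h2
    obtain ⟨y, hy, hLy⟩ := hmin (g - g₀) h1 (by omega)
    apply hLy
    have hy1 : y ∈ degreeLT F ((k - 1) * P + 1) := by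
      apply V_mono _ hy
      have := Nat.mul_le_mul_left (k - 1) (show d - 1 ≤ P by omega)
      omega
    have h4 : g₀ * y ∈ degreeLT F (k * d + 1) := by
      rw [mem_V_succ_iff] at *
      refine le_trans natDegree_mul_le ?_
      obtain ⟨k', rfl⟩ : ∃ k', k = k' + 1 := ⟨k - 1, by omega⟩
      have e1 : (k' + 1 - 1) * (d - 1) ≤ k' * d := by
        have : (k' + 1 - 1) = k' := by omega
        rw [this]
        exact Nat.mul_le_mul_left _ (by omega)
      have e2 : (k' + 1) * d = k' * d + d := by ring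
      omega
    rw [sub_mul, map_sub, hK y hy1, hr _ h4, hK₀ y hy1, sub_zero]
  intro w hw
  have h5 : w %ₘ g ∈ degreeLT F (k * d + 1) := by
    apply V_mono _ (mod_mem hg hgd w)
    have := Nat.mul_le_mul_right d (show 1 ≤ k by omega)
    omega
  rw [red hg hgd hK hw, hr _ h5, red hg₀ hgd₀ hK₀ hw, hgg]

lemma card_fiber {k P d : ℕ} (hk : 2 ≤ k) (hd : 1 ≤ d) (hdP : d ≤ P)
    (α' : Fin (k * d + 1) → F) :
    ((Dd F k P d).filter (fun α => rst (arith3 hdP) α = α')).card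
      ≤ Fintype.card F ^ (P - d) := by
  rcases Finset.eq_empty_or_nonempty
    ((Dd F k P d).filter (fun α => rst (arith3 hdP) α = α')) with h | ⟨α₀, h₀⟩
  · rw [h]; simp
  · rw [← arith2 (show 1 ≤ k by omega) hdP, ← card_Bs]
    apply Finset.card_le_card_of_injOn (fun α => α - α₀)
    · intro α hα
      rw [Finset.mem_coe, Finset.mem_filter, Dd, Finset.mem_filter] at hα
      rw [Finset.mem_filter, Dd, Finset.mem_filter] at h₀
      apply mem_Bs_of_lin
      intro w hw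
      have h1 : lin (α - α₀) w = lin α w - lin α₀ w := by
        have := lin_add (α - α₀) α₀ w
        rw [sub_add_cancel] at this
        rw [this]; ring
      rw [h1, agree hk hd hdP hα.1.2 h₀.1.2 _ w hw, sub_self]
      intro w hw
      rw [← lin_rst (arith3 hdP) α hw, ← lin_rst (arith3 hdP) α₀ hw, hα.2, h₀.2]
    · intro a _ b _ hab
      exact sub_left_injective hab

/-- The mean value over the functionals of level `d`. -/
lemma mean_Dd {ψ : AddChar F ℂ} (hψ : ψ ≠ 1) {k P d : ℕ} (hk : 2 ≤ k) (hd : 1 ≤ d)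
    (hdP : d ≤ P) (hch : ∀ a, a ≤ k → ((k.choose a : ℕ) : F) ≠ 0) :
    (Fintype.card F : ℝ) ^ (2 * k) * ∑ α ∈ Dd F k P d, ‖Cs ψ (lin α) k d‖ ^ (2 * k)
      ≤ (Fintype.card F : ℝ) ^ (P - d) *
        ((Fintype.card F : ℝ) ^ (k * d + 1) * (JB F k d : ℝ)) := by
  have h1 : ∀ α ∈ Dd F k P d, (Fintype.card F : ℝ) ^ (2 * k) * ‖Cs ψ (lin α) k d‖ ^ (2 * k)
      = ‖Cs ψ (lin (rst (arith3 hdP) α)) k (d + 1)‖ ^ (2 * k) := by
    intro α hα
    rw [Dd, Finset.mem_filter] at hα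
    have h2 : Cs ψ (lin (rst (arith3 hdP) α)) k (d + 1) = Cs ψ (lin α) k (d + 1) := by
      unfold Cs
      apply Finset.sum_congr rfl
      intro x _
      rw [lin_rst (arith3 hdP) α (pow_mem_V x.2)]
    rw [h2, Cs_succ ψ (by omega) hdP hα.2, norm_mul, mul_pow, Complex.norm_natCast]
  rw [Finset.mul_sum, Finset.sum_congr rfl h1]
  have h3 := Finset.sum_fiberwise (Dd F k P d) (fun α => rst (arith3 hdP) α)
    (fun α => ‖Cs ψ (lin (rst (arith3 hdP) α)) k (d + 1)‖ ^ (2 * k))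
  rw [← h3]
  have h4 : ∀ α' : Fin (k * d + 1) → F,
      ∑ α ∈ (Dd F k P d).filter (fun α => rst (arith3 hdP) α = α'),
        ‖Cs ψ (lin (rst (arith3 hdP) α)) k (d + 1)‖ ^ (2 * k)
      ≤ (Fintype.card F : ℝ) ^ (P - d) * ‖Cs ψ (lin α') k (d + 1)‖ ^ (2 * k) := by
    intro α'
    have h5 : ∀ α ∈ (Dd F k P d).filter (fun α => rst (arith3 hdP) α = α'),
        ‖Cs ψ (lin (rst (arith3 hdP) α)) k (d + 1)‖ ^ (2 * k)
        = ‖Cs ψ (lin α') k (d + 1)‖ ^ (2 * k) := by
      intro α hα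
      rw [Finset.mem_filter] at hα
      rw [hα.2]
    rw [Finset.sum_congr rfl h5, Finset.sum_const, nsmul_eq_mul]
    apply mul_le_mul_of_nonneg_right _ (by positivity)
    exact_mod_cast card_fiber hk hd hdP α'
  refine le_trans (Finset.sum_le_sum (fun α' _ => h4 α')) ?_
  rw [← Finset.mul_sum]
  apply mul_le_mul_of_nonneg_left _ (by positivity)
  have h6 := mean (P := d) hψ (show 0 < k by omega) hch (fun _ => 1) (fun _ => by simp)
  simp only [one_mul] at h6
  exact h6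

/-- The minor functionals. -/
noncomputable def Ms (F : Type*) [Field F] [Fintype F] (k P : ℕ) :
    Finset (Fin (k * P + 1) → F) :=
  Finset.univ.filter (fun α => Mi (lin α) k P)

/-- The restricted exponential sum. -/
noncomputable def Ss (ψ : AddChar F ℂ) (L : F[X] →ₗ[F] F) (k P : ℕ) : ℂ :=
  ∑ x : degreeLT F (P + 1), (if (x : F[X]).coeff P ≠ 0 then 1 else 0) * ψ (L ((x : F[X]) ^ k))

lemma norm_Ph (ψ : AddChar F ℂ) (k P : ℕ) (m : F[X]) (α : Fin (k * P + 1) → F) :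
    ‖Ph ψ k P m α‖ = ‖Ss ψ (lin α) k P‖ * ‖Cs ψ (lin α) k (P + 1)‖ ^ (2 * k) := by
  have h1 : Ph ψ k P m α = ψ (-lin α m) * ∏ i : Fin (2 * k + 1),
      ∑ v : degreeLT F (P + 1), (if i = 0 then (if (v : F[X]).coeff P ≠ 0 then 1 else 0) else 1) *
        ψ (lin α ((v : F[X]) ^ k)) := by
    rw [sum_prod_eq, Finset.mul_sum]
    unfold Ph Xs
    rw [Finset.sum_filter]
    apply Finset.sum_congr rfl
    intro x _
    rw [Finset.prod_mul_distrib, ← char_sum]
    have h2 : ∏ i : Fin (2 * k + 1),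
        (if i = 0 then (if (x i : F[X]).coeff P ≠ 0 then (1 : ℂ) else 0) else 1)
        = if (x 0 : F[X]).coeff P ≠ 0 then 1 else 0 := by
      rw [Finset.prod_eq_single 0]
      · simp
      · intro i _ hi
        rw [if_neg hi]
      · intro h; exact absurd (Finset.mem_univ _) h
    rw [h2]
    by_cases h3 : (x 0 : F[X]).coeff P ≠ 0
    · rw [if_pos h3, if_pos h3, one_mul, ← AddChar.map_add_eq_mul]
      unfold Er
      rw [map_sub, map_sum]
      congr 1
      ring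
    · rw [if_neg h3, if_neg h3, zero_mul, mul_zero]
  rw [h1, norm_mul, AddChar.norm_apply, one_mul, Fin.prod_univ_succ, norm_mul, norm_prod]
  congr 1
  have h4 : ∀ i : Fin (2 * k), ‖∑ v : degreeLT F (P + 1),
      (if i.succ = 0 then (if (v : F[X]).coeff P ≠ 0 then (1 : ℂ) else 0) else 1) *
        ψ (lin α ((v : F[X]) ^ k))‖ = ‖Cs ψ (lin α) k (P + 1)‖ := by
    intro i
    congr 1
    unfold Cs
    apply Finset.sum_congr rfl
    intro v _
    rw [if_neg (Fin.succ_ne_zero i), one_mul]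
  rw [Finset.prod_congr rfl (fun i _ => h4 i)]
  simp

/-- The contribution of the minor functionals. -/
lemma minor_sum {ψ : AddChar F ℂ} (hψ : ψ ≠ 1) {k P : ℕ} (hk : 2 ≤ k)
    (hch : ∀ a, a ≤ k → ((k.choose a : ℕ) : F) ≠ 0) (m : F[X]) {M : ℝ}
    (hM : ∀ α ∈ Ms F k P, ‖Cs ψ (lin α) k (P + 1)‖ ≤ M) (hM0 : 0 ≤ M) :
    ‖∑ α ∈ Ms F k P, Ph ψ k P m α‖
      ≤ M * (2 * ((Fintype.card F : ℝ) ^ (k * P + 1) * (JB F k P : ℝ))) := by
  refine le_trans (norm_sum_le _ _) ?_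
  have h1 : ∀ α ∈ Ms F k P, ‖Ph ψ k P m α‖
      ≤ M * (‖Ss ψ (lin α) k P‖ ^ (2 * k) + ‖Cs ψ (lin α) k (P + 1)‖ ^ (2 * k)) := by
    intro α hα
    rw [norm_Ph]
    set a := ‖Ss ψ (lin α) k P‖ with ha
    set b := ‖Cs ψ (lin α) k (P + 1)‖ with hb
    have ha0 : 0 ≤ a := norm_nonneg _
    have hb0 : 0 ≤ b := norm_nonneg _
    have hbM : b ≤ M := hM α hα
    obtain ⟨e, he⟩ : ∃ e, 2 * k = e + 1 := ⟨2 * k - 1, by omega⟩
    rw [he]
    have h2 : a * b ^ e ≤ a ^ (e + 1) + b ^ (e + 1) := by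
      rcases le_total a b with h | h
      · have : a * b ^ e ≤ b * b ^ e := mul_le_mul_of_nonneg_right h (by positivity)
        have h3 : b * b ^ e = b ^ (e + 1) := by ring
        have h4 : 0 ≤ a ^ (e + 1) := by positivity
        linarith
      · have : a * b ^ e ≤ a * a ^ e :=
          mul_le_mul_of_nonneg_left (pow_le_pow_left₀ hb0 h e) ha0
        have h3 : a * a ^ e = a ^ (e + 1) := by ring
        have h4 : 0 ≤ b ^ (e + 1) := by positivity
        linarith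
    calc a * b ^ (e + 1) = b * (a * b ^ e) := by ring
      _ ≤ M * (a * b ^ e) := mul_le_mul_of_nonneg_right hbM (by positivity)
      _ ≤ M * (a ^ (e + 1) + b ^ (e + 1)) := mul_le_mul_of_nonneg_left h2 hM0
  refine le_trans (Finset.sum_le_sum h1) ?_
  rw [← Finset.mul_sum]
  apply mul_le_mul_of_nonneg_left _ hM0
  have h5 : ∑ α ∈ Ms F k P, (‖Ss ψ (lin α) k P‖ ^ (2 * k) + ‖Cs ψ (lin α) k (P + 1)‖ ^ (2 * k))
      ≤ ∑ α : Fin (k * P + 1) → F,
        (‖Ss ψ (lin α) k P‖ ^ (2 * k) + ‖Cs ψ (lin α) k (P + 1)‖ ^ (2 * k)) := by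
    apply Finset.sum_le_sum_of_subset_of_nonneg (Finset.subset_univ _)
    intro α _ _
    positivity
  refine le_trans h5 ?_
  rw [Finset.sum_add_distrib, two_mul ((Fintype.card F : ℝ) ^ (k * P + 1) * (JB F k P : ℝ))]
  apply add_le_add
  · exact mean (P := P) hψ (show 0 < k by omega) hch
      (fun x : degreeLT F (P + 1) => if (x : F[X]).coeff P ≠ 0 then 1 else 0)
      (fun x => by split_ifs <;> simp)
  · have h6 := mean (P := P) hψ (show 0 < k by omega) hch (fun _ => 1) (fun _ => by simp)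
    simp only [one_mul] at h6
    exact h6

omit [Fintype F] in
lemma isd_unique {L : F[X] →ₗ[F] F} {k P d d' : ℕ} (h : isd L k P d) (h' : isd L k P d') :
    d = d' := by
  obtain ⟨⟨g, hg, hgd, hK⟩, hm⟩ := h
  obtain ⟨⟨g', hg', hgd', hK'⟩, hm'⟩ := h'
  by_contra hne
  rcases Nat.lt_or_gt_of_ne hne with hlt | hlt
  · exact hm' g hg.ne_zero (by omega) hK
  · exact hm g' hg'.ne_zero (by omega) hK'

omit [Fintype F] in
lemma isd_or_Mi (L : F[X] →ₗ[F] F) (k P : ℕ) : (∃ d, d ≤ P ∧ isd L k P d) ∨ Mi L k P := by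
  by_cases h : ∃ d, d ≤ P ∧ ∃ h : F[X], h ≠ 0 ∧ h.natDegree = d ∧ Kc L k P h
  · left
    have h1 : ∃ d, ∃ h : F[X], h ≠ 0 ∧ h.natDegree = d ∧ Kc L k P h := by
      obtain ⟨d, _, hd⟩ := h
      exact ⟨d, hd⟩
    refine ⟨Nat.find h1, ?_, ?_⟩
    · obtain ⟨d, hdP, hd⟩ := h
      exact le_trans (Nat.find_min' h1 hd) hdP
    · obtain ⟨f, hf0, hfd, hfK⟩ := Nat.find_spec h1
      obtain ⟨g, hg, hgd, hK⟩ := exists_monic hf0 hfK
      refine ⟨⟨g, hg, by rw [hgd, hfd], hK⟩, ?_⟩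
      intro h' h0 hlt hK'
      exact Nat.find_min h1 hlt ⟨h', h0, rfl, hK'⟩
  · right
    push Not at h
    intro f hf0 hfP
    have := h f.natDegree hfP f hf0 rfl
    unfold Kc at this
    push Not at this
    exact this

omit [Fintype F] in
lemma not_isd_of_Mi {L : F[X] →ₗ[F] F} {k P d : ℕ} (hdP : d ≤ P) (h : Mi L k P) :
    ¬ isd L k P d := by
  rintro ⟨⟨g, hg, hgd, hK⟩, -⟩
  obtain ⟨y, hy, hL⟩ := h g hg.ne_zero (by omega)
  exact hL (hK y hy)

/-- The decomposition of the sum over all functionals. -/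
lemma sum_split (k P : ℕ) (f : (Fin (k * P + 1) → F) → ℂ) :
    ∑ α, f α = ∑ d ∈ Finset.range (P + 1), ∑ α ∈ Dd F k P d, f α + ∑ α ∈ Ms F k P, f α := by
  rw [← Finset.sum_biUnion, ← Finset.sum_union]
  · apply Finset.sum_congr _ (fun _ _ => rfl)
    ext α
    simp only [Finset.mem_univ, Finset.mem_union, Finset.mem_biUnion, Finset.mem_range, Dd, Ms,
      Finset.mem_filter, true_and, true_iff]
    rcases isd_or_Mi (lin α) k P with ⟨d, hd, h⟩ | h
    · left; exact ⟨d, by omega, h⟩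
    · right; exact h
  · rw [Finset.disjoint_left]
    intro α hα hα'
    simp only [Finset.mem_biUnion, Finset.mem_range, Dd, Ms, Finset.mem_filter, Finset.mem_univ,
      true_and] at hα hα'
    obtain ⟨d, hd, h⟩ := hα
    exact not_isd_of_Mi (by omega) hα' h
  · intro d _ d' _ hne
    rw [Function.onFun, Finset.disjoint_left]
    intro α hα hα'
    rw [Dd, Finset.mem_filter] at hα hα'
    exact hne (isd_unique hα.2 hα'.2)

end Pool.Agent.H598.FQ
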