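import Pool.Agent.H598.FQ.Spheres

/-!
# Many points on `k`-spheres of small dimension
-/

namespace Pool.Agent.H598.FQ

open Finset Polynomial

variable {F : Type*} [Field F] [Fintype F]

lemma NS_pair {k : ℕ} {z : F} (hz : z ^ k = -1) (d n : ℕ) (m : F[X]) :
    Fintype.card F ^ n * NS F k d n m ≤ NS F k (d + 2) n m := by
  classical
  rw [NS_add]
  let e : degreeLT F n → (Fin 2 → degreeLT F n) := fun y => ![y, z • y]
  have he : Function.Injective e := by
    intro y y' h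
    have := congrFun h 0
    simpa [e] using this
  have h1 : ∀ y : degreeLT F n, NS F k d n (m - ∑ i, ((e y i : degreeLT F n) : F[X]) ^ k)
      = NS F k d n m := by
    intro y
    congr 1
    have h2 : ∑ i, ((e y i : degreeLT F n) : F[X]) ^ k = 0 := by
      rw [Fin.sum_univ_two]
      simp only [e, Matrix.cons_val_zero, Matrix.cons_val_one]
      rw [Submodule.coe_smul, smul_eq_C_mul, mul_pow, ← C_pow, hz]
      simp
    rw [h2, sub_zero]
  calc Fintype.card F ^ n * NS F k d n m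
      = ∑ y : degreeLT F n, NS F k d n (m - ∑ i, ((e y i : degreeLT F n) : F[X]) ^ k) := by
        rw [Finset.sum_congr rfl (fun y _ => h1 y), Finset.sum_const, Finset.card_univ, card_V,
          smul_eq_mul]
    _ = ∑ y ∈ Finset.univ.map ⟨e, he⟩, NS F k d n (m - ∑ i, (y i : F[X]) ^ k) := by
        rw [Finset.sum_map]
        rfl
    _ ≤ _ := Finset.sum_le_sum_of_subset (Finset.subset_univ _)

lemma NS_mono {k : ℕ} (hk : k ≠ 0) (d n : ℕ) (m : F[X]) : NS F k d n m ≤ NS F k (d + 1) n m := by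
  classical
  rw [NS_add]
  have h := Finset.single_le_sum (f := fun y : Fin 1 → degreeLT F n =>
    NS F k d n (m - ∑ i, (y i : F[X]) ^ k)) (fun _ _ => Nat.zero_le _) (Finset.mem_univ 0)
  refine le_trans (le_of_eq ?_) h
  simp [hk]

lemma NS_one {k : ℕ} (P : ℕ) : 1 ≤ NS F k 1 (P + 1) (X ^ (k * P)) := by
  unfold NS
  rw [Nat.one_le_iff_ne_zero, ← Nat.pos_iff_ne_zero, Nat.card_pos_iff]
  refine ⟨⟨⟨fun _ => ⟨X ^ P, ?_⟩, ?_⟩⟩, inferInstance⟩
  · rw [mem_V_succ_iff, natDegree_X_pow]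
  · simp only [Fin.sum_univ_one]
    rw [← pow_mul, mul_comm]

lemma NS_odd {k : ℕ} {z : F} (hz : z ^ k = -1) (P : ℕ) : ∀ t : ℕ,
    (Fintype.card F ^ (P + 1)) ^ t ≤ NS F k (2 * t + 1) (P + 1) (X ^ (k * P))
  | 0 => by simpa using NS_one (F := F) (k := k) P
  | (t + 1) => by
      have h1 := NS_odd hz P t
      have h2 := NS_pair hz (2 * t + 1) (P + 1) (X ^ (k * P))
      have e : 2 * (t + 1) + 1 = 2 * t + 1 + 2 := by ring
      rw [e, pow_succ, mul_comm]
      exact le_trans (Nat.mul_le_mul_left _ h1) h2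

/-- Lower bound for the number of points in every dimension. -/
lemma NS_many {k : ℕ} (hk : k ≠ 0) {z : F} (hz : z ^ k = -1) (P : ℕ) {d : ℕ} (hd : 1 ≤ d) :
    (Fintype.card F ^ (P + 1)) ^ ((d - 1) / 2) ≤ NS F k d (P + 1) (X ^ (k * P)) := by
  have h1 := NS_odd hz P ((d - 1) / 2)
  rcases Nat.mod_two_eq_zero_or_one (d - 1) with h | h
  · have e : 2 * ((d - 1) / 2) + 1 = d := by omega
    rwa [e] at h1
  · have e : 2 * ((d - 1) / 2) + 1 + 1 = d := by omega
    have h2 := NS_mono hk (2 * ((d - 1) / 2) + 1) (P + 1) ((X : F[X]) ^ (k * P))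
    rw [e] at h2
    exact le_trans h1 h2

/-- In dimension at most `2k - 3` the number of points is not of the expected order. -/
theorem not_order {k : ℕ} (hk : k ≠ 0) {z : F} (hz : z ^ k = -1) {d : ℕ} (hd : 1 ≤ d)
    (hdk : d + 3 ≤ 2 * k) (C : ℝ) :
    ∃ P : ℕ, C * (Fintype.card F : ℝ) ^ (d * P) <
      (Fintype.card F : ℝ) ^ (k * P) * (NS F k d (P + 1) (X ^ (k * P)) : ℝ) := by
  set q : ℝ := (Fintype.card F : ℝ) with hq
  have hq1 : 1 < q := by
    rw [hq]; exact_mod_cast Fintype.one_lt_card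
  obtain ⟨P, hP⟩ := pow_unbounded_of_one_lt C hq1
  refine ⟨P, ?_⟩
  set t := (d - 1) / 2 with ht
  have h1 := NS_many hk hz P hd
  rw [← ht] at h1
  have h2 : (q ^ (P + 1)) ^ t ≤ (NS F k d (P + 1) (X ^ (k * P)) : ℝ) := by
    rw [hq]; exact_mod_cast h1
  have h3 : d + 1 ≤ k + t := by omega
  calc C * q ^ (d * P) < q ^ P * q ^ (d * P) :=
        mul_lt_mul_of_pos_right hP (by positivity)
    _ = q ^ (P * (d + 1)) := by rw [← pow_add]; congr 1; ring
    _ ≤ q ^ (k * P + (P + 1) * t) := by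
        apply pow_le_pow_right₀ hq1.le
        have := Nat.mul_le_mul_left P h3
        nlinarith
    _ = q ^ (k * P) * (q ^ (P + 1)) ^ t := by rw [pow_add, pow_mul q (P + 1) t]
    _ ≤ q ^ (k * P) * (NS F k d (P + 1) (X ^ (k * P)) : ℝ) :=
        mul_le_mul_of_nonneg_left h2 (by positivity)

/-- The counting function, in terms of polynomials. -/
lemma NS_eq (k d P : ℕ) (m : F[X]) :
    NS F k d (P + 1) m = Nat.card {x : Fin d → F[X] //
      (∀ i, (x i).natDegree ≤ P) ∧ ∑ i, x i ^ k = m} := by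
  unfold NS
  apply Nat.card_congr
  refine ⟨fun x => ⟨fun i => (x.1 i : F[X]), fun i => mem_V_succ_iff.1 (x.1 i).2, x.2⟩,
    fun x => ⟨fun i => ⟨x.1 i, mem_V_succ_iff.2 (x.2.1 i)⟩, x.2.2⟩, ?_, ?_⟩
  · intro x; rfl
  · intro x; rfl

end Pool.Agent.H598.FQ
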