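import Pool.Agent.H598.FQ.Divs

/-!
# The minor arc bound
-/

namespace Pool.Agent.H598.FQ

open Finset Polynomial

variable {F : Type*} [Field F] [Fintype F]

/-- The functional `L` is *minor* at scale `P`: it kills no `h * V` with `h ≠ 0` of degree at most
`P`. -/
def Mi (L : F[X] →ₗ[F] F) (k P : ℕ) : Prop :=
  ∀ h : F[X], h ≠ 0 → h.natDegree ≤ P → ∃ y ∈ degreeLT F ((k - 1) * P + 1), L (h * y) ≠ 0

/-- The number of `b` for which `L (b * x)` vanishes for all `x`, in the minor case. -/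
lemma card_H (L : F[X] →ₗ[F] F) {J P : ℕ} (hmin : Mi L (J + 2) P) :
    Nat.card {b : degreeLT F ((J + 1) * P + 1) // ∀ a : degreeLT F (P + 1),
      L ((a : F[X]) * b) = 0} = Fintype.card F ^ (J * P) := by
  have h1 := dual_count L (P + 1) ((J + 1) * P + 1)
  have h2 : Nat.card {a : degreeLT F (P + 1) // ∀ b : degreeLT F ((J + 1) * P + 1),
      L ((a : F[X]) * b) = 0} = 1 := by
    rw [Nat.card_eq_one_iff_unique]
    constructor
    · constructor
      rintro ⟨a, ha⟩ ⟨b, hb⟩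
      have key : ∀ c : degreeLT F (P + 1), (∀ b : degreeLT F ((J + 1) * P + 1),
          L ((c : F[X]) * b) = 0) → c = 0 := by
        intro c hc
        by_contra hne
        have hc0 : (c : F[X]) ≠ 0 := by simpa using hne
        obtain ⟨y, hy, hLy⟩ := hmin c hc0 (mem_V_succ_iff.1 c.2)
        have e : (J + 2 - 1) * P + 1 = (J + 1) * P + 1 := by
          have : J + 2 - 1 = J + 1 := by omega
          rw [this]
        rw [e] at hy
        exact hLy (hc ⟨y, hy⟩)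
      exact Subtype.ext ((key a ha).trans (key b hb).symm)
    · exact ⟨⟨0, fun b => by simp⟩⟩
  rw [h2, mul_one] at h1
  have h3 : (J + 1) * P + 1 = (P + 1) + J * P := by ring
  have hq : 0 < Fintype.card F ^ (P + 1) := pow_pos Fintype.card_pos _
  apply Nat.eq_of_mul_eq_mul_left hq
  rw [h1, ← pow_add, h3]

omit [Fintype F] in
lemma prod_mem {J P : ℕ} (h : Fin (J + 1) → degreeLT F (P + 1)) :
    ∏ i, (h i : F[X]) ∈ degreeLT F ((J + 1) * P + 1) := by
  rw [mem_V_succ_iff]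
  refine le_trans (natDegree_prod_le _ _) ?_
  calc ∑ i, ((h i : F[X])).natDegree ≤ ∑ _i : Fin (J + 1), P :=
        Finset.sum_le_sum (fun i _ => mem_V_succ_iff.1 (h i).2)
    _ = (J + 1) * P := by simp

lemma card_good_tuples (L : F[X] →ₗ[F] F) {J P : ℕ} (hmin : Mi L (J + 2) P) :
    Nat.card {h : Fin (J + 1) → degreeLT F (P + 1) //
      ∀ x : degreeLT F (P + 1), L (1 * (∏ i, (h i : F[X])) * x) = 0}
      ≤ (J + 1) * (Fintype.card F ^ (P + 1)) ^ J +
        Fintype.card F ^ (J * P) * (Fintype.card F * 2 ^ ((J + 1) * P)) ^ J := by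
  classical
  set H := {b : degreeLT F ((J + 1) * P + 1) // ∀ a : degreeLT F (P + 1),
      L ((a : F[X]) * b) = 0} with hH
  let Φ : {h : Fin (J + 1) → degreeLT F (P + 1) //
      ∀ x : degreeLT F (P + 1), L (1 * (∏ i, (h i : F[X])) * x) = 0} →
      {h : Fin (J + 1) → degreeLT F (P + 1) // ∏ i, (h i : F[X]) = 0} ⊕
      (Σ b : {b : H // (b.1 : F[X]) ≠ 0}, {h : Fin (J + 1) → degreeLT F (P + 1) //
        ∏ i, (h i : F[X]) = (b.1.1 : F[X])}) := fun h =>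
    if h0 : ∏ i, (h.1 i : F[X]) = 0 then Sum.inl ⟨h.1, h0⟩
    else Sum.inr ⟨⟨⟨⟨∏ i, (h.1 i : F[X]), prod_mem h.1⟩, fun a => by
      have := h.2 a
      rw [one_mul, mul_comm] at this
      exact this⟩, h0⟩, ⟨h.1, rfl⟩⟩
  let Ψ : {h : Fin (J + 1) → degreeLT F (P + 1) // ∏ i, (h i : F[X]) = 0} ⊕
      (Σ b : {b : H // (b.1 : F[X]) ≠ 0}, {h : Fin (J + 1) → degreeLT F (P + 1) //
        ∏ i, (h i : F[X]) = (b.1.1 : F[X])}) → (Fin (J + 1) → degreeLT F (P + 1)) :=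
    fun s => Sum.elim (fun h => h.1) (fun h => h.2.1) s
  have hΨ : ∀ h, Ψ (Φ h) = h.1 := by
    intro h
    simp only [Φ]
    split_ifs <;> rfl
  have hΦ : Function.Injective Φ := by
    intro h h' hh
    apply Subtype.ext
    rw [← hΨ h, ← hΨ h', hh]
  have h2 := Nat.card_le_card_of_injective Φ hΦ
  refine le_trans h2 ?_
  rw [Nat.card_sum, Nat.card_sigma]
  apply Nat.add_le_add
  · exact card_prod_zero (P + 1) J
  · have h3 : ∀ b : {b : H // (b.1 : F[X]) ≠ 0}, Nat.card {h : Fin (J + 1) → degreeLT F (P + 1) //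
        ∏ i, (h i : F[X]) = (b.1.1 : F[X])} ≤ (Fintype.card F * 2 ^ ((J + 1) * P)) ^ J := by
      intro b
      refine le_trans (card_prod_eq (P + 1) J _ b.2) ?_
      apply Nat.pow_le_pow_left
      apply Nat.mul_le_mul_left
      exact Nat.pow_le_pow_right (by norm_num) (mem_V_succ_iff.1 b.1.1.2)
    refine le_trans (Finset.sum_le_sum (fun b _ => h3 b)) ?_
    rw [Finset.sum_const, Finset.card_univ, smul_eq_mul]
    apply Nat.mul_le_mul_right
    rw [← card_H L hmin, Nat.card_eq_fintype_card]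
    exact Fintype.card_subtype_le _

/-- The constant in the minor arc bound. -/
def wc (k P : ℕ) : ℕ := (k - 1) + 2 ^ ((k - 1) * (k - 2) * P)

/-- The minor arc bound. -/
theorem minor_bound {ψ : AddChar F ℂ} (hψ : ψ ≠ 1) {k : ℕ} (hk : 2 ≤ k)
    (hch : ∀ i : ℕ, 2 ≤ i → i ≤ k → ((i : ℕ) : F) ≠ 0) (L : F[X] →ₗ[F] F) {P : ℕ}
    (hmin : Mi L k P) :
    ‖∑ x : degreeLT F (P + 1), ψ (L ((x : F[X]) ^ k))‖ ^ (2 ^ (k - 1))
      * (Fintype.card F : ℝ) ^ (P + 1)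
      ≤ ((Fintype.card F : ℝ) ^ (P + 1)) ^ (2 ^ (k - 1)) * (wc k P : ℝ) := by
  obtain ⟨J, rfl⟩ : ∃ J, k = J + 2 := ⟨k - 2, by omega⟩
  have h1 := weyl ψ hψ L (P + 1) (J + 1) 1 (fun x => x ^ (J + 2))
    (fun i hi hi' => hch i hi hi') (by simpa using PL_pow (F := F) (J + 2) (J + 2) le_rfl)
  rw [cnt_eq] at h1
  have h2 := card_good_tuples L hmin
  set q : ℝ := (Fintype.card F : ℝ) with hq
  have hq0 : 0 < q := by rw [hq]; exact_mod_cast Fintype.card_pos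
  have h3 : ((Nat.card {h : Fin (J + 1) → degreeLT F (P + 1) //
      ∀ x : degreeLT F (P + 1), L (1 * (∏ i, (h i : F[X])) * x) = 0} : ℕ) : ℝ)
      ≤ (q ^ (P + 1)) ^ J * (wc (J + 2) P : ℝ) := by
    have h4 : ((Nat.card {h : Fin (J + 1) → degreeLT F (P + 1) //
      ∀ x : degreeLT F (P + 1), L (1 * (∏ i, (h i : F[X])) * x) = 0} : ℕ) : ℝ)
      ≤ ((J + 1) * (Fintype.card F ^ (P + 1)) ^ J +
        Fintype.card F ^ (J * P) * (Fintype.card F * 2 ^ ((J + 1) * P)) ^ J : ℕ) := by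
      exact_mod_cast h2
    refine le_trans h4 (le_of_eq ?_)
    unfold wc
    have e1 : J + 2 - 1 = J + 1 := by omega
    have e2 : J + 2 - 2 = J := by omega
    rw [e1, e2]
    push_cast
    rw [← hq]
    ring
  have e1 : J + 2 - 1 = J + 1 := by omega
  rw [e1]
  have h5 : ‖∑ x : degreeLT F (P + 1), ψ (L ((x : F[X]) ^ (J + 2)))‖ ^ (2 ^ (J + 1))
      * (q ^ (P + 1)) ^ (J + 1)
      ≤ (q ^ (P + 1)) ^ (2 ^ (J + 1)) * ((q ^ (P + 1)) ^ J * (wc (J + 2) P : ℝ)) :=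
    le_trans h1 (mul_le_mul_of_nonneg_left h3 (by positivity))
  have hN : 0 < (q ^ (P + 1)) ^ J := by positivity
  apply le_of_mul_le_mul_right _ hN
  calc ‖∑ x : degreeLT F (P + 1), ψ (L ((x : F[X]) ^ (J + 2)))‖ ^ (2 ^ (J + 1))
      * q ^ (P + 1) * (q ^ (P + 1)) ^ J
      = ‖∑ x : degreeLT F (P + 1), ψ (L ((x : F[X]) ^ (J + 2)))‖ ^ (2 ^ (J + 1))
      * (q ^ (P + 1)) ^ (J + 1) := by ring
    _ ≤ (q ^ (P + 1)) ^ (2 ^ (J + 1)) * ((q ^ (P + 1)) ^ J * (wc (J + 2) P : ℝ)) := h5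
    _ = (q ^ (P + 1)) ^ (2 ^ (J + 1)) * (wc (J + 2) P : ℝ) * (q ^ (P + 1)) ^ J := by ring

end Pool.Agent.H598.FQ
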