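import Pool.Agent.H598.FQ.Upper

/-!
# Counting points on `k`-spheres over a polynomial ring
-/

namespace Pool.Agent.H598.FQ

open Finset Polynomial
open scoped Classical

variable {F : Type*} [Field F] [Fintype F]

/-- The number of representations in `d` variables of degree less than `n`. -/
noncomputable def NS (F : Type*) [Field F] [Fintype F] (k d n : ℕ) (m : F[X]) : ℕ :=
  Nat.card {x : Fin d → degreeLT F n // ∑ i, (x i : F[X]) ^ k = m}

lemma NS_add (k a b n : ℕ) (m : F[X]) :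
    NS F k (a + b) n m = ∑ y : Fin b → degreeLT F n, NS F k a n (m - ∑ i, (y i : F[X]) ^ k) := by
  unfold NS
  rw [← Nat.card_sigma]
  apply Nat.card_congr
  refine ⟨fun x => ⟨fun i => x.1 (Fin.natAdd a i), ⟨fun i => x.1 (Fin.castAdd b i), ?_⟩⟩,
    fun z => ⟨Fin.append z.2.1 z.1, ?_⟩, ?_, ?_⟩
  · have h := x.2
    rw [Fin.sum_univ_add] at h
    exact eq_sub_of_add_eq h
  · rw [Fin.sum_univ_add]
    simp only [Fin.append_left, Fin.append_right]
    have h := z.2.2
    rw [h]
    ring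
  · rintro ⟨x, hx⟩
    apply Subtype.ext
    funext i
    refine Fin.addCases (fun i => ?_) (fun i => ?_) i
    · simp
    · simp
  · rintro ⟨y, ⟨z, hz⟩⟩
    apply Sigma.subtype_ext
    · funext i; simp
    · funext i; simp

lemma Rn_eq (k P : ℕ) (m : F[X]) :
    Rn k P m = Nat.card {x : Fin (2 * k + 1) → degreeLT F (P + 1) //
      (x 0 : F[X]).coeff P ≠ 0 ∧ ∑ j, (x j : F[X]) ^ k = m} := by
  rw [Nat.card_eq_fintype_card, Fintype.card_subtype]
  unfold Rn Xs
  rw [Finset.filter_filter]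
  congr 1
  apply Finset.filter_congr
  intro x _
  unfold Er
  rw [sub_eq_zero]

/-- The number of tuples whose `i`-th entry has degree exactly `P`. -/
lemma card_exact (k P : ℕ) (m : F[X]) (i : Fin (2 * k + 1)) :
    Nat.card {x : Fin (2 * k + 1) → degreeLT F (P + 1) //
      (x i : F[X]).coeff P ≠ 0 ∧ ∑ j, (x j : F[X]) ^ k = m} = Rn k P m := by
  rw [Rn_eq]
  apply Nat.card_congr
  refine ⟨fun x => ⟨fun j => x.1 (Equiv.swap 0 i j), ?_, ?_⟩,
    fun x => ⟨fun j => x.1 (Equiv.swap 0 i j), ?_, ?_⟩, ?_, ?_⟩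
  · simp only [Equiv.swap_apply_left]
    exact x.2.1
  · rw [Equiv.sum_comp (Equiv.swap 0 i) (fun j => (x.1 j : F[X]) ^ k)]
    exact x.2.2
  · simp only [Equiv.swap_apply_right]
    exact x.2.1
  · rw [Equiv.sum_comp (Equiv.swap 0 i) (fun j => (x.1 j : F[X]) ^ k)]
    exact x.2.2
  · intro x
    apply Subtype.ext
    funext j
    simp
  · intro x
    apply Subtype.ext
    funext j
    simp

/-- The tuples with `i`-th entry of degree exactly `P`. -/
def TE (F : Type*) [Field F] (k P : ℕ) (m : F[X]) (i : Fin (2 * k + 1)) : Type _ :=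
  {x : Fin (2 * k + 1) → degreeLT F (P + 1) //
      (x i : F[X]).coeff P ≠ 0 ∧ ∑ j, (x j : F[X]) ^ k = m}

/-- All tuples. -/
def TA (F : Type*) [Field F] (k n : ℕ) (m : F[X]) : Type _ :=
  {x : Fin (2 * k + 1) → degreeLT F n // ∑ i, (x i : F[X]) ^ k = m}

instance (k P : ℕ) (m : F[X]) (i : Fin (2 * k + 1)) : Finite (TE F k P m i) := by
  unfold TE; infer_instance

instance (k n : ℕ) (m : F[X]) : Finite (TA F k n m) := by
  unfold TA; infer_instance

/-- The underlying tuple of polynomials. -/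
def TT (F : Type*) [Field F] (k P : ℕ) (m : F[X])
    (z : (Σ i : Fin (2 * k + 1), TE F k P m i) ⊕ TA F k P m) : Fin (2 * k + 1) → F[X] :=
  Sum.elim (fun w => fun i => ((w.2.1 i : degreeLT F (P + 1)) : F[X]))
        (fun w => fun i => ((w.1 i : degreeLT F P) : F[X])) z

omit [Fintype F] in
lemma TT_left (k P : ℕ) (m : F[X]) (x : TA F k (P + 1) m) (i : Fin (2 * k + 1))
    (hi : (x.1 i : F[X]).coeff P ≠ 0) :
    ∃ z, TT F k P m z = fun i => ((x.1 i : degreeLT F (P + 1)) : F[X]) :=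
  ⟨Sum.inl ⟨i, ⟨x.1, hi, x.2⟩⟩, rfl⟩

omit [Fintype F] in
lemma TT_right (k P : ℕ) (m : F[X]) (x : TA F k (P + 1) m)
    (h : ∀ i, (x.1 i : F[X]).coeff P = 0) :
    ∃ z, TT F k P m z = fun i => ((x.1 i : degreeLT F (P + 1)) : F[X]) := by
  have hy : ∃ y : Fin (2 * k + 1) → degreeLT F P,
      (fun i => (y i : F[X])) = fun i => (x.1 i : F[X]) :=
    ⟨fun i => ⟨(x.1 i : F[X]), mem_V_of_succ (x.1 i).2 (h i)⟩, rfl⟩
  obtain ⟨y, hy⟩ := hy
  refine ⟨Sum.inr ⟨y, ?_⟩, hy⟩
  have h2 : ∀ i, (y i : F[X]) = x.1 i := fun i => congrFun hy i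
  rw [Finset.sum_congr rfl (fun i _ => by rw [h2 i])]
  exact x.2

omit [Fintype F] in
lemma TT_all (k P : ℕ) (m : F[X]) (x : TA F k (P + 1) m) :
    ∃ z, TT F k P m z = fun i => ((x.1 i : degreeLT F (P + 1)) : F[X]) := by
  by_cases h : ∀ i, (x.1 i : F[X]).coeff P = 0
  · exact TT_right k P m x h
  · rw [not_forall] at h
    obtain ⟨i, hi⟩ := h
    exact TT_left k P m x i hi

omit [Fintype F] in
lemma TA_ext (k n : ℕ) (m : F[X]) (x y : TA F k n m)
    (h : (fun i => ((x.1 i : degreeLT F n) : F[X])) = fun i => ((y.1 i : degreeLT F n) : F[X])) :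
    x = y := by
  apply Subtype.ext
  funext i
  apply Subtype.ext
  exact congrFun h i

omit [Fintype F] in
lemma TA_inj (k P : ℕ) (m : F[X]) :
    ∃ Φ : TA F k (P + 1) m → (Σ i : Fin (2 * k + 1), TE F k P m i) ⊕ TA F k P m,
      Function.Injective Φ := by
  choose Φ hΦ using TT_all (F := F) k P m
  refine ⟨Φ, ?_⟩
  intro x y h
  apply TA_ext
  rw [← hΦ x, ← hΦ y, h]

lemma card_TE (k P : ℕ) (m : F[X]) (i : Fin (2 * k + 1)) :
    Nat.card (TE F k P m i) = Rn k P m := card_exact k P m i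

lemma NS_TA (k n : ℕ) (m : F[X]) : NS F k (2 * k + 1) n m = Nat.card (TA F k n m) := rfl

lemma NS_succ_le (k P : ℕ) (m : F[X]) :
    NS F k (2 * k + 1) (P + 1) m ≤ (2 * k + 1) * Rn k P m + NS F k (2 * k + 1) P m := by
  obtain ⟨Φ, hΦ⟩ := TA_inj k P m
  have h2 := Nat.card_le_card_of_injective Φ hΦ
  rw [Nat.card_sum, Nat.card_sigma, Finset.sum_congr rfl (fun i _ => card_TE k P m i),
    Finset.sum_const, Finset.card_univ, Fintype.card_fin, smul_eq_mul, ← NS_TA, ← NS_TA] at h2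
  exact h2

lemma NS_zero (k d : ℕ) (m : F[X]) : NS F k d 0 m ≤ 1 := by
  unfold NS
  have : Subsingleton (degreeLT F 0) := by
    constructor
    intro a b
    apply Subtype.ext
    have h : ∀ c : degreeLT F 0, (c : F[X]) = 0 := by
      intro c
      ext j
      rw [mem_V_iff.1 c.2 j (Nat.zero_le _), coeff_zero]
    rw [h a, h b]
  have hs : Subsingleton {x : Fin d → degreeLT F 0 // ∑ i, (x i : F[X]) ^ k = m} := by
    constructor
    intro a b
    apply Subtype.ext
    funext i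
    exact Subsingleton.elim _ _
  exact Finite.card_le_one_iff_subsingleton.2 hs

section
variable {ψ : AddChar F ℂ} (hψ : ψ ≠ 1) {k : ℕ} (hk : 2 ≤ k)
  (hch : ∀ i : ℕ, 1 ≤ i → i ≤ k → ((i : ℕ) : F) ≠ 0)
  (hbig : Big (Fintype.card F) k)

include hψ hk hch hbig in
/-- The upper bound in `2k+1` variables. -/
lemma NS_upper : ∀ (P : ℕ) (m : F[X]),
    (Fintype.card F : ℝ) ^ (k * P + 1) * (NS F k (2 * k + 1) (P + 1) m : ℝ)
      ≤ (4 * k + 4) * ((Fintype.card F : ℝ) ^ (P + 1)) ^ (2 * k + 1)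
  | 0, m => by
      set q : ℝ := (Fintype.card F : ℝ) with hq
      have hq8 : (8 : ℝ) ≤ q := by rw [hq]; exact_mod_cast hbig.1
      have hq1 : (1 : ℝ) ≤ q := by linarith
      by_cases hm : m ∈ degreeLT F (k * 0 + 1)
      · have h1 := Rn_upper hψ hk hch hbig hm
        have h2 : (NS F k (2 * k + 1) (0 + 1) m : ℝ) ≤ (2 * k + 1) * (Rn k 0 m : ℝ) + 1 := by
          have := le_trans (NS_succ_le k 0 m) (Nat.add_le_add_left (NS_zero k (2 * k + 1) m) _)
          exact_mod_cast this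
        rw [← hq] at h1
        have h3 : q ^ (k * 0 + 1) ≤ (q ^ (0 + 1)) ^ (2 * k + 1) := by
          rw [← pow_mul]
          apply pow_le_pow_right₀ hq1
          omega
        calc q ^ (k * 0 + 1) * (NS F k (2 * k + 1) (0 + 1) m : ℝ)
            ≤ q ^ (k * 0 + 1) * ((2 * k + 1) * (Rn k 0 m : ℝ) + 1) :=
              mul_le_mul_of_nonneg_left h2 (by positivity)
          _ = (2 * k + 1) * (q ^ (k * 0 + 1) * (Rn k 0 m : ℝ)) + q ^ (k * 0 + 1) := by ring
          _ ≤ (2 * k + 1) * (2 * (q ^ (0 + 1)) ^ (2 * k + 1)) + (q ^ (0 + 1)) ^ (2 * k + 1) :=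
              add_le_add (mul_le_mul_of_nonneg_left h1 (by positivity)) h3
          _ ≤ (4 * k + 4) * (q ^ (0 + 1)) ^ (2 * k + 1) := by
              have : 0 ≤ (q ^ (0 + 1)) ^ (2 * k + 1) := by positivity
              linarith
      · have h0 : NS F k (2 * k + 1) (0 + 1) m = 0 := by
          unfold NS
          rw [Nat.card_eq_zero]
          left
          constructor
          rintro ⟨x, hx⟩
          apply hm
          rw [← hx]
          exact Submodule.sum_mem _ (fun i _ => pow_mem_V (x i).2)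
        rw [h0]
        simp only [Nat.cast_zero, mul_zero]
        positivity
  | (p + 1), m => by
      set q : ℝ := (Fintype.card F : ℝ) with hq
      have hq8 : (8 : ℝ) ≤ q := by rw [hq]; exact_mod_cast hbig.1
      have hq1 : (1 : ℝ) ≤ q := by linarith
      by_cases hm : m ∈ degreeLT F (k * (p + 1) + 1)
      · have h1 := Rn_upper hψ hk hch hbig hm
        have ih := NS_upper p m
        rw [← hq] at h1 ih
        have h2 : (NS F k (2 * k + 1) (p + 1 + 1) m : ℝ)
            ≤ (2 * k + 1) * (Rn k (p + 1) m : ℝ) + (NS F k (2 * k + 1) (p + 1) m : ℝ) := by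
          exact_mod_cast NS_succ_le k (p + 1) m
        set Q : ℝ := (q ^ (p + 1 + 1)) ^ (2 * k + 1) with hQ
        have hkR : (0 : ℝ) ≤ k := Nat.cast_nonneg k
        have hQ' : q ^ k * (q ^ (p + 1)) ^ (2 * k + 1) * (4 * k + 4) ≤ Q := by
          have e1 : Q = q ^ k * (q ^ (p + 1)) ^ (2 * k + 1) * q ^ (k + 1) := by
            rw [hQ, ← pow_mul, ← pow_mul, ← pow_add, ← pow_add]
            congr 1
            ring
          rw [e1]
          apply mul_le_mul_of_nonneg_left _ (by positivity)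
          have e3 : 4 * k + 4 ≤ 8 ^ (k + 1) := by
            have : k + 1 ≤ 2 ^ (k + 1) := Nat.lt_two_pow_self.le
            calc 4 * k + 4 = 4 * (k + 1) := by ring
              _ ≤ 4 ^ (k + 1) * 2 ^ (k + 1) :=
                Nat.mul_le_mul (Nat.le_self_pow (by omega) 4) this
              _ = 8 ^ (k + 1) := by rw [← Nat.mul_pow]
          have e4 : (4 * k + 4 : ℝ) ≤ 8 ^ (k + 1) := by exact_mod_cast e3
          exact le_trans e4 (pow_le_pow_left₀ (by norm_num) hq8 _)
        have e2 : q ^ (k * (p + 1) + 1) = q ^ k * q ^ (k * p + 1) := by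
          rw [← pow_add]; congr 1; ring
        have h3 : q ^ (k * (p + 1) + 1) * (NS F k (2 * k + 1) (p + 1) m : ℝ)
            ≤ Q := by
          rw [e2, mul_assoc]
          calc q ^ k * (q ^ (k * p + 1) * (NS F k (2 * k + 1) (p + 1) m : ℝ))
              ≤ q ^ k * ((4 * k + 4) * (q ^ (p + 1)) ^ (2 * k + 1)) :=
                mul_le_mul_of_nonneg_left ih (by positivity)
            _ = q ^ k * (q ^ (p + 1)) ^ (2 * k + 1) * (4 * k + 4) := by ring
            _ ≤ Q := hQ'
        have hQ0 : 0 ≤ Q := by positivity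
        calc q ^ (k * (p + 1) + 1) * (NS F k (2 * k + 1) (p + 1 + 1) m : ℝ)
            ≤ q ^ (k * (p + 1) + 1) * ((2 * k + 1) * (Rn k (p + 1) m : ℝ)
              + (NS F k (2 * k + 1) (p + 1) m : ℝ)) :=
              mul_le_mul_of_nonneg_left h2 (by positivity)
          _ = (2 * k + 1) * (q ^ (k * (p + 1) + 1) * (Rn k (p + 1) m : ℝ))
              + q ^ (k * (p + 1) + 1) * (NS F k (2 * k + 1) (p + 1) m : ℝ) := by ring
          _ ≤ (2 * k + 1) * (2 * Q) + Q :=
              add_le_add (mul_le_mul_of_nonneg_left h1 (by positivity)) h3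
          _ ≤ (4 * k + 4) * Q := by linarith
      · have h0 : NS F k (2 * k + 1) (p + 1 + 1) m = 0 := by
          unfold NS
          rw [Nat.card_eq_zero]
          left
          constructor
          rintro ⟨x, hx⟩
          apply hm
          rw [← hx]
          exact Submodule.sum_mem _ (fun i _ => pow_mem_V (x i).2)
        rw [h0]
        simp only [Nat.cast_zero, mul_zero]
        positivity

include hk hch in
/-- The lower bound in `2k+1` variables. -/
lemma NS_lower (hq : (8 * k) ^ (k * 2 ^ k) ≤ Fintype.card F) (P : ℕ) (m : F[X])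
    (hm : m ∈ degreeLT F (k * P + 1)) :
    (1 / 2) * ((Fintype.card F : ℝ) ^ (P + 1)) ^ (2 * k + 1)
      ≤ (Fintype.card F : ℝ) ^ (k * P + 1) * (NS F k (2 * k + 1) (P + 1) m : ℝ) :=
  many_reps hk hch hq P m (mem_V_succ_iff.1 hm)

end

/-- Two-sided bounds in any number of variables at least `2k+1`. -/
theorem NS_bounds {k : ℕ} (hk : 2 ≤ k) (hch : ∀ i : ℕ, 1 ≤ i → i ≤ k → ((i : ℕ) : F) ≠ 0)
    (hq : (8 * k) ^ (k * 2 ^ k) ≤ Fintype.card F) (b P : ℕ) (m : F[X])
    (hm : m ∈ degreeLT F (k * P + 1)) :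
    (1 / 2) * ((Fintype.card F : ℝ) ^ (P + 1)) ^ (2 * k + 1 + b)
      ≤ (Fintype.card F : ℝ) ^ (k * P + 1) * (NS F k (2 * k + 1 + b) (P + 1) m : ℝ) ∧
    (Fintype.card F : ℝ) ^ (k * P + 1) * (NS F k (2 * k + 1 + b) (P + 1) m : ℝ)
      ≤ (4 * k + 4) * ((Fintype.card F : ℝ) ^ (P + 1)) ^ (2 * k + 1 + b) := by
  obtain ⟨ψ, hψ⟩ : ∃ ψ : AddChar F ℂ, ψ ≠ 1 := by
    obtain ⟨ψ, hψ⟩ := (AddChar.exists_apply_ne_zero (α := F) (a := 1)).2 one_ne_zero
    exact ⟨ψ, fun h => hψ (by rw [h]; rfl)⟩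
  set q : ℝ := (Fintype.card F : ℝ) with hqq
  have hcard : ((Finset.univ : Finset (Fin b → degreeLT F (P + 1))).card : ℝ)
      = (q ^ (P + 1)) ^ b := by
    rw [Finset.card_univ, Fintype.card_fun, card_V, Fintype.card_fin]
    push_cast
    rfl
  have hsum : q ^ (k * P + 1) * (NS F k (2 * k + 1 + b) (P + 1) m : ℝ)
      = ∑ y : Fin b → degreeLT F (P + 1), q ^ (k * P + 1) *
        (NS F k (2 * k + 1) (P + 1) (m - ∑ i, (y i : F[X]) ^ k) : ℝ) := by
    rw [NS_add]
    push_cast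
    rw [Finset.mul_sum]
  rw [hsum]
  constructor
  · calc (1 / 2) * (q ^ (P + 1)) ^ (2 * k + 1 + b)
        = ∑ _y : Fin b → degreeLT F (P + 1), (1 / 2) * (q ^ (P + 1)) ^ (2 * k + 1) := by
          rw [Finset.sum_const, nsmul_eq_mul, hcard, pow_add (q ^ (P + 1)) (2 * k + 1) b]
          ring
      _ ≤ _ := by
          apply Finset.sum_le_sum
          intro y _
          apply NS_lower hk hch hq
          apply Submodule.sub_mem _ hm
          exact Submodule.sum_mem _ (fun i _ => pow_mem_V (y i).2)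
  · calc _ ≤ ∑ _y : Fin b → degreeLT F (P + 1), (4 * k + 4) * (q ^ (P + 1)) ^ (2 * k + 1) := by
          apply Finset.sum_le_sum
          intro y _
          exact NS_upper hψ hk hch (big_of_le hk hq) P _
      _ = (4 * k + 4) * (q ^ (P + 1)) ^ (2 * k + 1 + b) := by
          rw [Finset.sum_const, nsmul_eq_mul, hcard, pow_add (q ^ (P + 1)) (2 * k + 1) b]
          ring

end Pool.Agent.H598.FQ
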