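import Pool.Agent.H598.FQ.Final2

/-!
# Upper bounds for the number of representations
-/

namespace Pool.Agent.H598.FQ

open Finset Polynomial
open scoped Classical

variable {F : Type*} [Field F] [Fintype F]

/-- The top level is bounded by the constant problem. -/
lemma card_Xd_top_le {k P : ℕ} {m : F[X]} :
    (Xd k P (k * P) m).card ≤
      ((Xs F k 0).filter (fun y => Er k 0 (C (m.coeff (k * P))) y = 0)).card
      * (Fintype.card F ^ P) ^ (2 * k + 1) := by
  have h0 : (Fintype.card F ^ P) ^ (2 * k + 1)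
      = (Finset.univ : Finset (Fin (2 * k + 1) → degreeLT F P)).card := by
    rw [Finset.card_univ, Fintype.card_fun, card_V, Fintype.card_fin]
  rw [h0, ← Finset.card_product]
  let tp : degreeLT F (P + 1) → degreeLT F (0 + 1) := fun x =>
    ⟨C ((x : F[X]).coeff P), by rw [mem_V_succ_iff, natDegree_C]⟩
  let lw : degreeLT F (P + 1) → degreeLT F P := fun x =>
    ⟨(x : F[X]) - C ((x : F[X]).coeff P) * X ^ P, by
      apply mem_V_of_succ
      · apply Submodule.sub_mem _ x.2
        rw [mem_V_succ_iff]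
        exact natDegree_C_mul_X_pow_le _ _
      · rw [coeff_sub, coeff_C_mul, coeff_X_pow, if_pos rfl, mul_one, sub_self]⟩
  have hx : ∀ x : degreeLT F (P + 1), (x : F[X]) = (tp x : F[X]) * X ^ P + (lw x : F[X]) := by
    intro x
    change (x : F[X]) = C ((x : F[X]).coeff P) * X ^ P + ((x : F[X]) - C ((x : F[X]).coeff P) * X ^ P)
    ring
  apply Finset.card_le_card_of_injOn (fun x => (fun i => tp (x i), fun i => lw (x i)))
  · intro x hxX
    rw [Finset.mem_coe, Xd, Finset.mem_filter, Xs, Finset.mem_filter] at hxX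
    obtain ⟨⟨-, h1⟩, h2⟩ := hxX
    rw [Finset.mem_coe, Finset.mem_product, Finset.mem_filter, Xs, Finset.mem_filter]
    refine ⟨⟨⟨Finset.mem_univ _, ?_⟩, ?_⟩, Finset.mem_univ _⟩
    · change (C ((x 0 : F[X]).coeff P)).coeff 0 ≠ 0
      rw [coeff_C_zero]
      exact h1
    · have h3 : (Er k P m x).coeff (k * P) = 0 := mem_V_iff.1 h2 _ le_rfl
      unfold Er at h3 ⊢
      rw [coeff_sub, finsetSum_coeff, sub_eq_zero] at h3
      rw [sub_eq_zero, ← h3, map_sum]
      apply Finset.sum_congr rfl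
      intro i _
      change C ((x i : F[X]).coeff P) ^ k = _
      rw [← C_pow, coeff_pow_of_natDegree_le (mem_V_succ_iff.1 (x i).2)]
  · intro x _ y _ h
    have h1 : (fun i => tp (x i)) = fun i => tp (y i) := congrArg Prod.fst h
    have h2 : (fun i => lw (x i)) = fun i => lw (y i) := congrArg Prod.snd h
    funext i
    apply Subtype.ext
    rw [hx (x i), hx (y i)]
    have h3 : tp (x i) = tp (y i) := congrFun h1 i
    have h4 : lw (x i) = lw (y i) := congrFun h2 i
    rw [h3, h4]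

section
variable {ψ : AddChar F ℂ} (hψ : ψ ≠ 1) {k : ℕ} (hk : 2 ≤ k)
  (hch : ∀ i : ℕ, 1 ≤ i → i ≤ k → ((i : ℕ) : F) ≠ 0)
  (hbig : Big (Fintype.card F) k)

include hψ hk hch hbig in
/-- The fundamental inequality, from above. -/
lemma fundamental_le {P : ℕ} {m : F[X]} (hm : m ∈ degreeLT F (k * P + 1)) :
    (Fintype.card F : ℝ) ^ (k * P + 1) * (Rn k P m : ℝ)
      ≤ (Fintype.card F : ℝ) ^ P * ((Xd k P ((k - 1) * P + 1) m).card : ℝ)
        + ∑ d ∈ Finset.range P, ((Xd k P ((k - 1) * P + (d + 1) + 1) m).card : ℝ) *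
          (Fintype.card F : ℝ) ^ (P - (d + 1)) / 16 ^ (d + 1)
        + 2 * ((Fintype.card F : ℝ) ^ (P + 1)) ^ (2 * k + 1) / 16 ^ (P + 1) := by
  have h1 := sum_Ph hψ hm
  rw [sum_split, Finset.sum_range_succ', sum_Dd_zero hψ (by omega) hm] at h1
  set S1 := ∑ d ∈ Finset.range P, ∑ α ∈ Dd F k P (d + 1), Ph ψ k P m α with hS1
  set S2 := ∑ α ∈ Ms F k P, Ph ψ k P m α with hS2
  have h2 : ‖S1‖ ≤ ∑ d ∈ Finset.range P, ((Xd k P ((k - 1) * P + (d + 1) + 1) m).card : ℝ) *
          (Fintype.card F : ℝ) ^ (P - (d + 1)) / 16 ^ (d + 1) := by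
    refine le_trans (norm_sum_le _ _) ?_
    apply Finset.sum_le_sum
    intro d hd
    have := Finset.mem_range.1 hd
    exact level_bound hψ hk hch hbig (by omega) (by omega) hm
  have h3 := minor_total hψ hk hch hbig (P := P) m
  rw [← hS2] at h3
  have h4 : (((Fintype.card F : ℝ) ^ (k * P + 1) * (Rn k P m : ℝ) : ℝ) : ℂ)
      = (((Fintype.card F : ℝ) ^ P * ((Xd k P ((k - 1) * P + 1) m).card : ℝ) : ℝ) : ℂ)
        + S1 + S2 := by
    push_cast
    unfold Rn
    rw [← h1]
    ring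
  have h50 : 0 ≤ (Fintype.card F : ℝ) ^ (k * P + 1) * (Rn k P m : ℝ) :=
    mul_nonneg (pow_nonneg (Nat.cast_nonneg _) _) (Nat.cast_nonneg _)
  have h5 : (Fintype.card F : ℝ) ^ (k * P + 1) * (Rn k P m : ℝ)
      = ‖(((Fintype.card F : ℝ) ^ (k * P + 1) * (Rn k P m : ℝ) : ℝ) : ℂ)‖ := by
    rw [Complex.norm_real, Real.norm_of_nonneg h50]
  rw [h5, h4]
  refine le_trans (norm_add_le _ _) ?_
  apply add_le_add _ h3
  refine le_trans (norm_add_le _ _) ?_
  apply add_le_add _ h2
  rw [Complex.norm_real, Real.norm_of_nonneg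
    (mul_nonneg (pow_nonneg (Nat.cast_nonneg _) _) (Nat.cast_nonneg _))]

include hψ hk hch hbig in
/-- The case of constants, from above. -/
lemma Rn_zero_le (m : F[X]) (hm : m ∈ degreeLT F (k * 0 + 1)) :
    (Fintype.card F : ℝ) * (Rn k 0 m : ℝ) ≤ (5 / 4) * (Fintype.card F : ℝ) ^ (2 * k + 1) := by
  have h1 := fundamental_le hψ hk hch hbig hm
  set q : ℝ := (Fintype.card F : ℝ) with hq
  have hX : ((Xd k 0 ((k - 1) * 0 + 1) m).card : ℝ) ≤ q ^ (2 * k + 1) := by
    have e2 : (Xd k 0 ((k - 1) * 0 + 1) m).card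
        ≤ Fintype.card (Fin (2 * k + 1) → degreeLT F (0 + 1)) := Finset.card_le_univ _
    rw [Fintype.card_fun, card_V, Fintype.card_fin] at e2
    have e3 : (Fintype.card F ^ (0 + 1)) ^ (2 * k + 1) = Fintype.card F ^ (2 * k + 1) := by simp
    rw [hq]
    exact_mod_cast le_trans e2 (le_of_eq e3)
  have h2 : 0 ≤ q ^ (2 * k + 1) := by positivity
  simp only [pow_zero, one_mul, Finset.range_zero, Finset.sum_empty, add_zero, mul_zero,
    zero_add, pow_one] at h1
  simp only [mul_zero, zero_add] at hX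
  linarith

include hψ hk hch hbig in
/-- The upper bound for the number of representations with first entry of degree exactly `P`. -/
theorem Rn_upper {P : ℕ} {m : F[X]} (hm : m ∈ degreeLT F (k * P + 1)) :
    (Fintype.card F : ℝ) ^ (k * P + 1) * (Rn k P m : ℝ) ≤
      2 * ((Fintype.card F : ℝ) ^ (P + 1)) ^ (2 * k + 1) := by
  set q : ℝ := (Fintype.card F : ℝ) with hq
  have hq8 : (8 : ℝ) ≤ q := by rw [hq]; exact_mod_cast hbig.1
  have hq0 : 0 < q := by linarith
  rcases Nat.eq_zero_or_pos P with h0 | hpos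
  · subst h0
    have h1 := Rn_zero_le hψ hk hch hbig m hm
    have h2 : 0 ≤ q ^ (2 * k + 1) := by positivity
    simp only [mul_zero, zero_add, pow_one]
    rw [← hq] at h1
    linarith
  · obtain ⟨p, rfl⟩ : ∃ p, P = p + 1 := ⟨P - 1, by omega⟩
    have hkF : (k : F) ≠ 0 := hch k (by omega) le_rfl
    have h1 := fundamental_le hψ hk hch hbig hm
    rw [← hq] at h1
    set N0 : ℝ := ((Xd k (p + 1) ((k - 1) * (p + 1) + 1) m).card : ℝ) with hN0
    set Q : ℝ := (q ^ (p + 1 + 1)) ^ (2 * k + 1) with hQ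
    have hQ0 : 0 ≤ Q := by positivity
    have hN00 : 0 ≤ N0 := by positivity
    have hmain : q ^ (p + 1) * N0 ≤ (5 / 4) * Q := by
      have e1 := card_Xd_level (show 1 ≤ k by omega) hkF m p (P := p + 1) (by omega)
      have e2 := card_Xd_top_le (k := k) (P := p + 1) (m := m)
      have e3 : (k - 1) * (p + 1) + p + 1 = k * (p + 1) := by
        obtain ⟨k', rfl⟩ : ∃ k', k = k' + 1 := ⟨k - 1, by omega⟩
        simp only [Nat.add_sub_cancel]
        ring
      rw [e3] at e1
      rw [e1] at e2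
      have e4 := Rn_zero_le hψ hk hch hbig (C (m.coeff (k * (p + 1)))) (by
        rw [mem_V_succ_iff, natDegree_C]; omega)
      rw [← hq] at e4
      have e5 : N0 * q ^ p ≤ (Rn k 0 (C (m.coeff (k * (p + 1)))) : ℝ) * (q ^ (p + 1)) ^ (2 * k + 1)
          := by
        unfold Rn
        rw [hN0, hq]
        exact_mod_cast e2
      calc q ^ (p + 1) * N0 = q * (N0 * q ^ p) := by ring
        _ ≤ q * ((Rn k 0 (C (m.coeff (k * (p + 1)))) : ℝ) * (q ^ (p + 1)) ^ (2 * k + 1)) :=
            mul_le_mul_of_nonneg_left e5 hq0.le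
        _ = (q * (Rn k 0 (C (m.coeff (k * (p + 1)))) : ℝ)) * (q ^ (p + 1)) ^ (2 * k + 1) := by
            ring
        _ ≤ ((5 / 4) * q ^ (2 * k + 1)) * (q ^ (p + 1)) ^ (2 * k + 1) :=
            mul_le_mul_of_nonneg_right e4 (by positivity)
        _ = (5 / 4) * Q := by
            rw [hQ, pow_succ q (p + 1), mul_pow]; ring
    rw [Finset.sum_range_succ] at h1
    have hsum : ∑ d ∈ Finset.range p, ((Xd k (p + 1) ((k - 1) * (p + 1) + (d + 1) + 1) m).card : ℝ)
        * q ^ (p + 1 - (d + 1)) / 16 ^ (d + 1) ≤ (q ^ (p + 1) * N0) * (1 / 15) := by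
      have e1 : ∀ d ∈ Finset.range p,
          ((Xd k (p + 1) ((k - 1) * (p + 1) + (d + 1) + 1) m).card : ℝ)
          * q ^ (p + 1 - (d + 1)) / 16 ^ (d + 1) = (q ^ (p + 1) * N0) * (1 / 16) ^ (d + 1) := by
        intro d hd
        have hd' := Finset.mem_range.1 hd
        have e2 := card_Xd_level (show 1 ≤ k by omega) hkF m (d + 1) (P := p + 1) (by omega)
        have e3 : ((Xd k (p + 1) ((k - 1) * (p + 1) + (d + 1) + 1) m).card : ℝ)
            = N0 * q ^ (d + 1) := by
          rw [e2, hN0, hq]; push_cast; rfl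
        rw [e3]
        have e4 : q ^ (p + 1) = q ^ (d + 1) * q ^ (p + 1 - (d + 1)) := by
          rw [← pow_add]; congr 1; omega
        rw [e4, one_div, inv_pow]
        field_simp
      rw [Finset.sum_congr rfl e1, ← Finset.mul_sum]
      apply mul_le_mul_of_nonneg_left _ (by positivity)
      have e5 : ∀ n : ℕ, ∑ d ∈ Finset.range n, ((1 : ℝ) / 16) ^ (d + 1)
          = (1 / 15) * (1 - (1 / 16) ^ n) := by
        intro n
        induction n with
        | zero => simp
        | succ n ih => rw [Finset.sum_range_succ, ih]; ring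
      rw [e5]
      have e6 : (0 : ℝ) ≤ (1 / 16) ^ p := by positivity
      linarith
    have hlast : ((Xd k (p + 1) ((k - 1) * (p + 1) + (p + 1) + 1) m).card : ℝ)
        * q ^ (p + 1 - (p + 1)) / 16 ^ (p + 1) ≤ Q * (1 / 16) := by
      have e1 : ((Xd k (p + 1) ((k - 1) * (p + 1) + (p + 1) + 1) m).card : ℝ) ≤ Q := by
        have e2 : (Xd k (p + 1) ((k - 1) * (p + 1) + (p + 1) + 1) m).card
            ≤ Fintype.card (Fin (2 * k + 1) → degreeLT F (p + 1 + 1)) := Finset.card_le_univ _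
        rw [Fintype.card_fun, card_V, Fintype.card_fin] at e2
        rw [hQ, hq]
        exact_mod_cast e2
      have e3 : (16 : ℝ) ≤ 16 ^ (p + 1) := by
        calc (16 : ℝ) = 16 ^ 1 := (pow_one _).symm
          _ ≤ 16 ^ (p + 1) := pow_le_pow_right₀ (by norm_num) (by omega)
      rw [Nat.sub_self, pow_zero, mul_one, div_le_iff₀ (by positivity)]
      calc ((Xd k (p + 1) ((k - 1) * (p + 1) + (p + 1) + 1) m).card : ℝ) ≤ Q := e1
        _ = Q * (1 / 16) * 16 := by ring
        _ ≤ Q * (1 / 16) * 16 ^ (p + 1) := mul_le_mul_of_nonneg_left e3 (by positivity)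
    have hmin : 2 * Q / 16 ^ (p + 1 + 1) ≤ Q * (1 / 128) := by
      have e3 : (256 : ℝ) ≤ 16 ^ (p + 1 + 1) := by
        calc (256 : ℝ) = 16 ^ 2 := by norm_num
          _ ≤ 16 ^ (p + 1 + 1) := pow_le_pow_right₀ (by norm_num) (by omega)
      rw [div_le_iff₀ (by positivity)]
      calc 2 * Q = Q * (1 / 128) * 256 := by ring
        _ ≤ Q * (1 / 128) * 16 ^ (p + 1 + 1) := mul_le_mul_of_nonneg_left e3 (by positivity)
    linarith

end

end Pool.Agent.H598.FQ
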