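import Pool.Agent.H598.FQ.Basic

/-!
# Weyl differencing for polynomials over a finite field
-/

namespace Pool.Agent.H598.FQ

open Finset Polynomial

variable {F : Type*} [Field F]

/-- `PL j a f`: the function `f` behaves like a polynomial of degree at most `j` in which the
coefficient of the `j`-th power is `a`. -/
def PL : ℕ → F[X] → (F[X] → F[X]) → Prop
  | 0, a, f => ∀ x, f x = a
  | (j + 1), a, f => ∀ h, PL j (((j + 1 : ℕ) : F[X]) * a * h) (fun x => f (x + h) - f x)

lemma PL_add : ∀ (j : ℕ) (a b : F[X]) (f g : F[X] → F[X]), PL j a f → PL j b g →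
    PL j (a + b) (fun x => f x + g x)
  | 0, a, b, f, g, hf, hg => fun x => by
      have h1 : f x = a := hf x
      have h2 : g x = b := hg x
      simp only [h1, h2]
  | (j + 1), a, b, f, g, hf, hg => by
      intro h
      have := PL_add j _ _ _ _ (hf h) (hg h)
      convert this using 1
      · ring
      · funext x; ring

lemma PL_mul : ∀ (j : ℕ) (a c : F[X]) (f : F[X] → F[X]), PL j a f →
    PL j (c * a) (fun x => c * f x)
  | 0, a, c, f, hf => fun x => by
      have h1 : f x = a := hf x
      simp only [h1]
  | (j + 1), a, c, f, hf => by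
      intro h
      have := PL_mul j _ c _ (hf h)
      convert this using 1
      · ring
      · funext x; ring

lemma PL_zero : ∀ (j : ℕ), PL j (0 : F[X]) (fun _ => 0)
  | 0 => fun _ => rfl
  | (j + 1) => by
      intro h
      have := PL_zero j
      convert this using 1
      · ring
      · funext x; ring

lemma PL_sum {ι : Type*} (s : Finset ι) (j : ℕ) (a : ι → F[X]) (f : ι → F[X] → F[X])
    (h : ∀ i ∈ s, PL j (a i) (f i)) : PL j (∑ i ∈ s, a i) (fun x => ∑ i ∈ s, f i x) := by
  classical
  induction s using Finset.induction_on with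
  | empty => simpa using PL_zero j
  | insert i s hi ih =>
    have := PL_add j _ _ _ _ (h i (Finset.mem_insert_self i s))
      (ih (fun i' hi' => h i' (Finset.mem_insert_of_mem hi')))
    convert this using 1
    · rw [Finset.sum_insert hi]
    · funext x; rw [Finset.sum_insert hi]

lemma PL_pow : ∀ (j n : ℕ), n ≤ j → PL j (if n = j then (1 : F[X]) else 0) (fun x => x ^ n)
  | 0, n, hn => by
      have : n = 0 := by omega
      subst this
      intro x
      simp
  | (j + 1), n, hn => by
      intro h
      have hexp : (fun x : F[X] => (x + h) ^ n - x ^ n)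
          = fun x => ∑ i ∈ Finset.range n, (((n.choose i : ℕ) : F[X]) * h ^ (n - i)) * x ^ i := by
        funext x
        rw [add_pow, Finset.sum_range_succ]
        simp only [Nat.sub_self, pow_zero, mul_one, Nat.choose_self, Nat.cast_one,
          add_sub_cancel_right]
        apply Finset.sum_congr rfl
        intro i _
        ring
      rw [hexp]
      have hterm : ∀ i ∈ Finset.range n, PL j ((((n.choose i : ℕ) : F[X]) * h ^ (n - i))
          * (if i = j then (1 : F[X]) else 0))
          (fun x => (((n.choose i : ℕ) : F[X]) * h ^ (n - i)) * x ^ i) := by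
        intro i hi
        have hij : i ≤ j := by have := Finset.mem_range.1 hi; omega
        exact PL_mul j _ _ _ (PL_pow j i hij)
      have := PL_sum _ j _ _ hterm
      convert this using 1
      by_cases hnj : n = j + 1
      · subst hnj
        rw [if_pos rfl, Finset.sum_range_succ, Finset.sum_eq_zero]
        · simp
        · intro i hi
          have : i ≠ j := by have := Finset.mem_range.1 hi; omega
          rw [if_neg this, mul_zero]
      · rw [if_neg hnj, Finset.sum_eq_zero]
        · ring
        · intro i hi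
          have : i ≠ j := by have := Finset.mem_range.1 hi; omega
          rw [if_neg this, mul_zero]

section
variable [Fintype F]

/-- The exponential sum. -/
noncomputable def T (ψ : AddChar F ℂ) (L : F[X] →ₗ[F] F) (n : ℕ) (f : F[X] → F[X]) : ℂ :=
  ∑ x : degreeLT F n, ψ (L (f x))

open Classical in
/-- The number of tuples for which the final linear form vanishes identically. -/
noncomputable def cnt (L : F[X] →ₗ[F] F) (n : ℕ) : ℕ → F[X] → ℕ
  | 0, a => if ∀ x : degreeLT F n, L (a * x) = 0 then 1 else 0
  | (j + 1), a => ∑ h : degreeLT F n, cnt L n j (a * h)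

lemma cnt_const_mul (L : F[X] →ₗ[F] F) (n : ℕ) (c : F) (hc : c ≠ 0) :
    ∀ (j : ℕ) (a : F[X]), cnt L n j (C c * a) = cnt L n j a
  | 0, a => by
      unfold cnt
      have : (∀ x : degreeLT F n, L (C c * a * x) = 0) ↔ ∀ x : degreeLT F n, L (a * x) = 0 := by
        apply forall_congr'
        intro x
        rw [mul_assoc, ← smul_eq_C_mul, map_smul, smul_eq_mul, mul_eq_zero]
        simp [hc]
      by_cases h : ∀ x : degreeLT F n, L (a * x) = 0
      · rw [if_pos h, if_pos (this.2 h)]
      · rw [if_neg h, if_neg (fun h' => h (this.1 h'))]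
  | (j + 1), a => by
      unfold cnt
      apply Finset.sum_congr rfl
      intro h _
      rw [mul_assoc, cnt_const_mul L n c hc j]

lemma T_sq (ψ : AddChar F ℂ) (L : F[X] →ₗ[F] F) (n : ℕ) (f : F[X] → F[X]) :
    ‖T ψ L n f‖ ^ 2 ≤ ∑ h : degreeLT F n, ‖T ψ L n (fun x => f (x + h) - f x)‖ := by
  have h1 : ((‖T ψ L n f‖ ^ 2 : ℝ) : ℂ) = ∑ h : degreeLT F n, T ψ L n (fun x => f (x + h) - f x)
      := by
    rw [← Complex.normSq_eq_norm_sq, ← Complex.mul_conj]
    calc T ψ L n f * (starRingEnd ℂ) (T ψ L n f)
        = ∑ x : degreeLT F n, ∑ y : degreeLT F n,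
            ψ (L (f y)) * (starRingEnd ℂ) (ψ (L (f x))) := by
          unfold T
          rw [map_sum, Finset.mul_sum]
          apply Finset.sum_congr rfl
          intro x _
          rw [Finset.sum_mul]
      _ = ∑ x : degreeLT F n, ∑ h : degreeLT F n, ψ (L (f (x + h) - f x)) := by
          apply Finset.sum_congr rfl
          intro x _
          rw [← Equiv.sum_comp (Equiv.addLeft x)]
          apply Finset.sum_congr rfl
          intro h _
          rw [Equiv.coe_addLeft, ← AddChar.map_neg_eq_conj, ← AddChar.map_add_eq_mul,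
            ← sub_eq_add_neg, ← map_sub, Submodule.coe_add]
      _ = ∑ h : degreeLT F n, T ψ L n (fun x => f (x + h) - f x) := by
          rw [Finset.sum_comm]
          rfl
  have h2 : ‖T ψ L n f‖ ^ 2 = ‖((‖T ψ L n f‖ ^ 2 : ℝ) : ℂ)‖ := by
    rw [Complex.norm_real, Real.norm_of_nonneg (by positivity)]
  rw [h2, h1]
  exact norm_sum_le _ _

/-- Weyl's inequality. -/
theorem weyl (ψ : AddChar F ℂ) (hψ : ψ ≠ 1) (L : F[X] →ₗ[F] F) (n : ℕ) :
    ∀ (j : ℕ) (a : F[X]) (f : F[X] → F[X]),
      (∀ i, 2 ≤ i → i ≤ j + 1 → ((i : ℕ) : F) ≠ 0) → PL (j + 1) a f →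
      ‖T ψ L n f‖ ^ (2 ^ j) * ((Fintype.card F : ℝ) ^ n) ^ j
        ≤ ((Fintype.card F : ℝ) ^ n) ^ (2 ^ j) * (cnt L n j a : ℝ)
  | 0, a, f, _, hf => by
      classical
      have hf' : ∀ x, f x = f 0 + a * x := by
        intro x
        have h1 := hf x
        have h2 : f (0 + x) - f 0 = ((0 + 1 : ℕ) : F[X]) * a * x := h1 0
        have h3 : f x - f 0 = a * x := by simpa using h2
        rw [← h3]; ring
      have h1 : T ψ L n f = ψ (L (f 0)) * ∑ x : degreeLT F n, ψ (L (a * x)) := by
        unfold T
        rw [Finset.mul_sum]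
        apply Finset.sum_congr rfl
        intro x _
        rw [hf' x, map_add, AddChar.map_add_eq_mul]
      have h2 := sum_char_lin hψ (W := degreeLT F n)
        ((L.comp (LinearMap.mulLeft F a)).comp (degreeLT F n).subtype)
      by_cases h : ∀ x : degreeLT F n, L (a * x) = 0
      · rw [if_pos (by exact h)] at h2
        simp only [LinearMap.comp_apply, Submodule.subtype_apply, LinearMap.mulLeft_apply] at h2
        rw [h1, h2, norm_mul, AddChar.norm_apply, one_mul, card_V]
        unfold cnt
        rw [if_pos h]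
        simp
      · rw [if_neg (by exact h)] at h2
        simp only [LinearMap.comp_apply, Submodule.subtype_apply, LinearMap.mulLeft_apply] at h2
        rw [h1, h2]
        unfold cnt
        rw [if_neg h]
        simp
  | (j + 1), a, f, hch, hf => by
      set N : ℝ := (Fintype.card F : ℝ) ^ n with hN
      have hN0 : 0 < N := by
        have : (0 : ℝ) < Fintype.card F := by exact_mod_cast Fintype.card_pos
        positivity
      set t : degreeLT F n → ℝ := fun h => ‖T ψ L n (fun x => f (x + h) - f x)‖ with ht
      have h1 : ‖T ψ L n f‖ ^ 2 ≤ ∑ h, t h := T_sq ψ L n f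
      obtain ⟨e, he⟩ : ∃ e, 2 ^ j = e + 1 := ⟨2 ^ j - 1, by
        have : 0 < 2 ^ j := by positivity
        omega⟩
      have h3 : (∑ h, t h) ^ (e + 1) ≤ N ^ e * ∑ h, t h ^ (e + 1) := by
        have := pow_sum_div_card_le_sum_pow (s := (Finset.univ : Finset (degreeLT F n)))
          (f := t) (fun _ _ => norm_nonneg _) e
        rw [Finset.card_univ, card_V] at this
        push_cast at this
        rw [div_le_iff₀ (by positivity)] at this
        rw [mul_comm]
        exact this
      have h4 : ∀ h : degreeLT F n, t h ^ (2 ^ j) * N ^ j ≤ N ^ (2 ^ j) * (cnt L n j (a * h) : ℝ)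
          := by
        intro h
        have h5 := weyl ψ hψ L n j _ _ (fun i hi hi' => hch i hi (by omega)) (hf h)
        have h6 : cnt L n j (((j + 1 + 1 : ℕ) : F[X]) * a * h) = cnt L n j (a * h) := by
          have h7 : ((j + 1 + 1 : ℕ) : F[X]) * a * h = C ((j + 1 + 1 : ℕ) : F) * (a * h) := by
            rw [map_natCast, mul_assoc]
          rw [h7, cnt_const_mul L n _ (hch _ (by omega) (by omega))]
        rw [h6] at h5
        exact h5
      calc ‖T ψ L n f‖ ^ (2 ^ (j + 1)) * N ^ (j + 1)
          = (‖T ψ L n f‖ ^ 2) ^ (e + 1) * N ^ (j + 1) := by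
            rw [← he, ← pow_mul ‖T ψ L n f‖, pow_succ 2 j, mul_comm 2 (2 ^ j)]
        _ ≤ (∑ h, t h) ^ (e + 1) * N ^ (j + 1) := by
            apply mul_le_mul_of_nonneg_right _ (by positivity)
            exact pow_le_pow_left₀ (by positivity) h1 _
        _ ≤ (N ^ e * ∑ h, t h ^ (e + 1)) * N ^ (j + 1) :=
            mul_le_mul_of_nonneg_right h3 (by positivity)
        _ = N ^ (e + 1) * ∑ h, (t h ^ (2 ^ j) * N ^ j) := by
            rw [← Finset.sum_mul, he]; ring
        _ ≤ N ^ (e + 1) * ∑ h : degreeLT F n, N ^ (2 ^ j) * (cnt L n j (a * h) : ℝ) :=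
            mul_le_mul_of_nonneg_left (Finset.sum_le_sum (fun h _ => h4 h)) (by positivity)
        _ = N ^ (2 ^ (j + 1)) * (cnt L n (j + 1) a : ℝ) := by
            rw [← Finset.mul_sum, ← he, cnt]
            push_cast
            ring

end

end Pool.Agent.H598.FQ
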